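import Mathlib
import Pool.Agent.W245.CubeOver
import Pool.Agent.W245.Extend
import Pool.Agent.H297R2.Dense

set_option autoImplicit false
set_option linter.unusedSectionVars false
set_option linter.unusedVariables false

/-!
# Density theorems for an abstract logarithm, uniform in the field
-/

namespace Pool.Agent.W245.PB

open Finset Module Pool.Agent.H297R2 Pool.Agent.W245

/-- `cube_over_basis` with an explicit bound. -/
theorem cube_over_basis_explicit (κ C : Type*) [Field κ] [IsAlgClosed κ] [CharZero κ] [Field C]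
    [Algebra κ C] (ι : Type*) [Fintype ι] (D r d : ℕ) (hd : d = Fintype.card (Idx ι D) * D)
    (e : Fin r ≃ Fin d × Idx ι D) (t : ι → C) (ht : LinearIndependent κ t) (v₀ : C)
    (w : Fin r → C) (hw : LinearIndependent κ w) :
    ∃ S : Finset (Fin r), NoRelOver (Submodule.span κ (Set.range t)) D (v₀ + ∑ i ∈ S, w i) := by
  classical
  set U : Set C := Set.range t ∪ Set.range w ∪ {v₀} with hU
  have hUf : U.Finite := ((Set.finite_range _).union (Set.finite_range _)).union (Set.finite_singleton _)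
  have htU : ∀ i, t i ∈ U := fun i => Or.inl (Or.inl ⟨i, rfl⟩)
  have hwU : ∀ k, w k ∈ U := fun k => Or.inl (Or.inr ⟨k, rfl⟩)
  have hvU : v₀ ∈ U := Or.inr rfl
  obtain ⟨τ, hne, hspan⟩ := exists_eval' D t ht (G := Fin d) (fun g i => w (e.symm (g, i)))
    (fun g => hw.comp _ (fun i j h => by
      have := e.symm.injective h
      exact (Prod.mk.inj this).2)) U hUf htU (fun g i => hwU _)
  set vA : Algebra.adjoin κ U := ⟨v₀, Algebra.subset_adjoin hvU⟩ with hvA
  set wA : Fin r → Algebra.adjoin κ U :=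
    fun k => ⟨w k, Algebra.subset_adjoin (hwU k)⟩ with hwA
  obtain ⟨η, hη⟩ := cube_nonvanish d (evalDet' D (fun j i => τ j ⟨t i, Algebra.subset_adjoin (htU i)⟩))
    (by rw [hd]; exact evalDet'_degLE D _) (evalDet'_linePoly D _) hne
    (fun g i j => τ j (wA (e.symm (g, i)))) hspan (fun j => τ j vA)
  refine ⟨univ.filter (fun k => η (e k).1 = some (e k).2), ?_⟩
  set S := univ.filter (fun k => η (e k).1 = some (e k).2) with hS
  have hcoe : v₀ + ∑ i ∈ S, w i = ((vA + ∑ i ∈ S, wA i : Algebra.adjoin κ U) : C) := by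
    push_cast
    rfl
  rw [hcoe]
  apply noRelOver_of_evalDet' D t U htU τ
  convert hη using 2
  funext j
  rw [map_add, Pi.add_apply, map_sum]
  congr 1
  rw [Finset.sum_apply, hS, Finset.sum_filter]
  rw [← e.symm.sum_comp]
  rw [Fintype.sum_prod_type]
  apply Finset.sum_congr rfl
  intro g _
  simp only [Equiv.apply_symm_apply]
  rcases hηg : η g with _ | i₀
  · simp
  · rw [Finset.sum_eq_single i₀]
    · simp
    · intro i _ hi
      rw [if_neg]
      intro h
      exact hi (Option.some.inj h).symm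
    · intro h; exact absurd (mem_univ _) h

/-- **No cube is entirely exceptional**, uniformly in the fields and the space of coefficients. -/
theorem cube_over_unif (N D : ℕ) : ∃ r : ℕ, ∀ (κ C : Type) [Field κ] [IsAlgClosed κ] [CharZero κ]
    [Field C] [Algebra κ C] (W : Submodule κ C), Module.Finite κ W → finrank κ W ≤ N → ∀ (v₀ : C)
    (w : Fin r → C), LinearIndependent κ w →
    ∃ S : Finset (Fin r), NoRelOver W D (v₀ + ∑ i ∈ S, w i) := by
  classical
  set r : ℕ → ℕ := fun n =>
    Fintype.card (Fin (Fintype.card (Idx (Fin n) D) * D) × Idx (Fin n) D) with hr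
  refine ⟨∑ n ∈ Finset.range (N + 1), r n, ?_⟩
  intro κ C _ _ _ _ _ W hWf hWN v₀ w hw
  set n := finrank κ W with hn
  have hrn : r n ≤ ∑ n ∈ Finset.range (N + 1), r n :=
    Finset.single_le_sum (f := r) (fun _ _ => Nat.zero_le _) (Finset.mem_range.2 (by omega))
  let b : Basis (Fin n) κ W := Module.finBasis κ W
  have hb : LinearIndependent κ (fun i => (b i : C)) :=
    b.linearIndependent.map' W.subtype (Submodule.ker_subtype W)
  have hspan : Submodule.span κ (Set.range (fun i => (b i : C))) = W := by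
    have h1 : Set.range (fun i => (b i : C)) = W.subtype '' Set.range b := by
      rw [← Set.range_comp]
      rfl
    rw [h1, Submodule.span_image, b.span_eq, Submodule.map_subtype_top]
  obtain ⟨S, hS⟩ := cube_over_basis_explicit κ C (Fin n) D (r n) _ rfl
    (Fintype.equivFin _).symm (fun i => (b i : C)) hb v₀
    (fun i => w (Fin.castLE hrn i)) (hw.comp _ (Fin.castLE_injective hrn))
  refine ⟨S.map (Fin.castLEEmb hrn), ?_⟩
  rw [hspan] at hS
  rw [Finset.sum_map]
  exact hS

/-- A function with the formal properties of the logarithm of integers. -/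
structure LogLike (κ : Type*) {C : Type*} [Field κ] [Field C] [Algebra κ C] (lg : ℕ → C) : Prop where
  mul : ∀ a b : ℕ, 0 < a → 0 < b → lg (a * b) = lg a + lg b
  indep : ∀ (r : ℕ) (p q : Fin r → ℕ), (∀ i, (p i).Prime) → (∀ i, (q i).Prime) →
    Function.Injective (Sum.elim p q) → LinearIndependent κ (fun i => lg (q i) - lg (p i))

section

variable {κ C : Type*} [Field κ] [Field C] [Algebra κ C] {lg : ℕ → C}

theorem LogLike.one (h : LogLike κ lg) : lg 1 = 0 := by
  have := h.mul 1 1 one_pos one_pos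
  rw [mul_one] at this
  exact left_eq_add.1 this

theorem LogLike.prod (h : LogLike κ lg) {ι : Type*} (s : Finset ι) (f : ι → ℕ)
    (hf : ∀ i ∈ s, 0 < f i) : lg (∏ i ∈ s, f i) = ∑ i ∈ s, lg (f i) := by
  classical
  induction s using Finset.induction_on with
  | empty => simpa using h.one
  | insert i s hi ih =>
    rw [Finset.prod_insert hi, Finset.sum_insert hi, h.mul _ _ (hf i (mem_insert_self _ _))
      (Finset.prod_pos fun j hj => hf j (mem_insert_of_mem hj)),
      ih fun j hj => hf j (mem_insert_of_mem hj)]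

theorem LogLike.cube (h : LogLike κ lg) {r : ℕ} (a : ℕ) (p q : Fin r → ℕ) (ha : 0 < a)
    (hp : ∀ i, 0 < p i) (hq : ∀ i, 0 < q i) (S : Finset (Fin r)) :
    lg (a * ∏ i, (if i ∈ S then q i else p i)) =
      lg (a * ∏ i, p i) + ∑ i ∈ S, (lg (q i) - lg (p i)) := by
  classical
  rw [h.mul _ _ ha (Finset.prod_pos fun i _ => by split_ifs <;> [exact hq i; exact hp i]),
    h.mul _ _ ha (Finset.prod_pos fun i _ => hp i),
    h.prod univ _ (fun i _ => by split_ifs <;> [exact hq i; exact hp i]),
    h.prod univ _ (fun i _ => hp i), add_assoc]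
  congr 1
  rw [← Finset.sum_filter_add_sum_filter_not univ (fun i => i ∈ S)
    (fun i => lg (if i ∈ S then q i else p i)),
    ← Finset.sum_filter_add_sum_filter_not univ (fun i => i ∈ S) (fun i => lg (p i))]
  have e1 : univ.filter (fun i => i ∈ S) = S := by ext i; simp
  rw [e1]
  have e2 : ∑ i ∈ S, lg (if i ∈ S then q i else p i) = ∑ i ∈ S, lg (q i) := by
    apply Finset.sum_congr rfl
    intro i hi
    rw [if_pos hi]
  have e3 : ∑ i ∈ univ.filter (fun i => i ∉ S), lg (if i ∈ S then q i else p i) =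
      ∑ i ∈ univ.filter (fun i => i ∉ S), lg (p i) := by
    apply Finset.sum_congr rfl
    intro i hi
    rw [Finset.mem_filter] at hi
    rw [if_neg hi.2]
  rw [e2, e3, Finset.sum_sub_distrib]
  ring

end

/-- The one-variable density theorem. -/
theorem density_one (N D : ℕ) (ε : ℝ) (hε : 0 < ε) : ∃ x₀ : ℕ, ∀ x ≥ x₀,
    ∀ (κ C : Type) [Field κ] [IsAlgClosed κ] [CharZero κ] [Field C] [Algebra κ C] (lg : ℕ → C),
    LogLike κ lg → ∀ W : Submodule κ C, Module.Finite κ W →
    finrank κ W ≤ N → ∀ A : Finset ℕ, A ⊆ Ioc 0 x →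
    (∀ n ∈ A, ¬ NoRelOver W D (lg n)) → (A.card : ℝ) ≤ ε * x := by
  classical
  obtain ⟨r, hr⟩ := cube_over_unif N D
  obtain ⟨x₀, hx₀⟩ := dense_cube r ε hε 0
  refine ⟨x₀, fun x hx κ C _ _ _ _ _ lg hlg W hWf hWN A hA hbad => ?_⟩
  by_contra hcon
  push Not at hcon
  obtain ⟨a, p, q, ha, hp, hq, hinj, hcube⟩ := hx₀ x hx A hA hcon.le
  obtain ⟨S, hS⟩ := hr κ C W hWf hWN (lg (a * ∏ i, p i)) (fun i => lg (q i) - lg (p i))
    (hlg.indep r p q (fun i => (hp i).1) (fun i => (hq i).1) hinj)
  apply hbad _ (hcube S)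
  rw [hlg.cube a p q ha (fun i => (hp i).1.pos) (fun i => (hq i).1.pos) S]
  exact hS

/-- A general counting lemma for tuples. -/
theorem count_cons (k x : ℕ) (ε : ℝ) (hε : 0 < ε) (bad : (Fin (k + 1) → ℕ) → Prop)
    (A : Finset ℕ) (hAsub : A ⊆ Ioc 0 x) (hA : (A.card : ℝ) ≤ ε / 2 * x)
    (hgood : ∀ a ∈ Ioc 0 x, a ∉ A → ∀ B : Finset (Fin k → ℕ),
      B ⊆ Fintype.piFinset (fun _ : Fin k => Ioc 0 x) → (∀ m ∈ B, bad (Fin.cons a m)) →
      (B.card : ℝ) ≤ ε / 2 * x ^ k) (B : Finset (Fin (k + 1) → ℕ))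
    (hB : B ⊆ Fintype.piFinset (fun _ : Fin (k + 1) => Ioc 0 x)) (hbad : ∀ m ∈ B, bad m) :
    (B.card : ℝ) ≤ ε * x ^ (k + 1) := by
  classical
  have hfib : B.card = ∑ a ∈ Ioc 0 x, (B.filter (fun n => n 0 = a)).card := by
    apply Finset.card_eq_sum_card_fiberwise
    intro n hn
    have hn' := hB hn
    rw [Fintype.mem_piFinset] at hn'
    exact hn' 0
  set F : ℕ → Finset (Fin k → ℕ) := fun a => (B.filter (fun n => n 0 = a)).image (fun n => Fin.tail n)
    with hF
  have hFcard : ∀ a, (F a).card = (B.filter (fun n => n 0 = a)).card := by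
    intro a
    apply Finset.card_image_of_injOn
    intro n hn m hm h
    have hn' : n ∈ B.filter (fun n => n 0 = a) := hn
    have hm' : m ∈ B.filter (fun n => n 0 = a) := hm
    rw [Finset.mem_filter] at hn' hm'
    rw [← Fin.cons_self_tail n, ← Fin.cons_self_tail m, hn'.2, hm'.2]
    have : Fin.tail n = Fin.tail m := h
    rw [this]
  have hFsub : ∀ a, F a ⊆ Fintype.piFinset (fun _ : Fin k => Ioc 0 x) := by
    intro a m hm
    rw [hF, Finset.mem_image] at hm
    obtain ⟨n, hn, rfl⟩ := hm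
    rw [Finset.mem_filter] at hn
    have hn' := hB hn.1
    rw [Fintype.mem_piFinset] at hn' ⊢
    exact fun j => hn' j.succ
  have hFbad : ∀ a, ∀ m ∈ F a, bad (Fin.cons a m) := by
    intro a m hm
    rw [hF, Finset.mem_image] at hm
    obtain ⟨n, hn, rfl⟩ := hm
    rw [Finset.mem_filter] at hn
    have hcons : (Fin.cons a (Fin.tail n) : Fin (k + 1) → ℕ) = n := by
      rw [← hn.2]; exact Fin.cons_self_tail n
    rw [hcons]
    exact hbad n hn.1
  have htriv : ∀ a, ((F a).card : ℝ) ≤ (x : ℝ) ^ k := by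
    intro a
    have h1 := Finset.card_le_card (hFsub a)
    rw [Fintype.card_piFinset] at h1
    simp only [Nat.card_Ioc, Finset.prod_const, Finset.card_univ, Fintype.card_fin] at h1
    have h2 : ((F a).card : ℝ) ≤ (((x - 0) ^ k : ℕ) : ℝ) := by exact_mod_cast h1
    simpa using h2
  calc (B.card : ℝ) = ∑ a ∈ Ioc 0 x, ((F a).card : ℝ) := by
        rw [hfib]; push_cast; exact Finset.sum_congr rfl fun a _ => by rw [hFcard a]
    _ ≤ ∑ a ∈ Ioc 0 x, ((if a ∈ A then (x : ℝ) ^ k else 0) + ε / 2 * x ^ k) := by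
        apply Finset.sum_le_sum
        intro a ha
        by_cases haA : a ∈ A
        · rw [if_pos haA]
          have h2 := htriv a
          have h3 : (0 : ℝ) ≤ ε / 2 * x ^ k := by positivity
          linarith
        · rw [if_neg haA, zero_add]
          exact hgood a ha haA (F a) (hFsub a) (hFbad a)
    _ = (A.card : ℝ) * x ^ k + x * (ε / 2 * x ^ k) := by
        rw [Finset.sum_add_distrib, ← Finset.sum_filter, Finset.filter_mem_eq_inter,
          Finset.inter_eq_right.2 hAsub, Finset.sum_const, Finset.sum_const, Nat.card_Ioc,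
          nsmul_eq_mul, nsmul_eq_mul]
        simp
    _ ≤ (ε / 2 * x) * x ^ k + x * (ε / 2 * x ^ k) := by gcongr
    _ = ε * x ^ (k + 1) := by ring

end Pool.Agent.W245.PB
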