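import Mathlib
import Pool.Agent.W245.PB.Abs

set_option autoImplicit false
set_option linter.unusedSectionVars false
set_option linter.unusedVariables false

/-!
# Extension theorems over an abstract logarithm
-/

namespace Pool.Agent.W245.PB

open Finset Module Pool.Agent.H297R2 Pool.Agent.W245

/-! ### Small spaces -/

section Small

variable {C : Type*} [Field C] [CharZero C]

theorem gen_bot : SingularHasZero (⊥ : Submodule ℚ C) := by
  intro n hn M hM _
  obtain ⟨n', rfl⟩ : ∃ n', n = n' + 1 := ⟨n - 1, by omega⟩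
  have h0 : M = 0 := by
    ext i j
    exact (Submodule.mem_bot ℚ).1 (hM i j)
  refine ⟨Pi.single 0 1, Pi.single 0 1, ?_, ?_, ?_⟩
  · intro h
    have := congrFun h 0
    simp at this
  · intro h
    have := congrFun h 0
    simp at this
  · rw [h0]
    simp

theorem gen_line (x : C) : SingularHasZero (Submodule.span ℚ {x}) := by
  classical
  by_cases hx : x = 0
  · rw [hx, Submodule.span_zero_singleton]
    exact gen_bot
  intro n hn M hM hdet
  have h1 : ∀ i j, ∃ b : ℚ, M i j = x * (b : C) := by
    intro i j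
    obtain ⟨b, hb⟩ := Submodule.mem_span_singleton.1 (hM i j)
    exact ⟨b, by rw [← hb, Rat.smul_def, mul_comm]⟩
  choose B hB using h1
  have hM' : M = x • (Matrix.of B).map (fun q : ℚ => (q : C)) := by
    ext i j
    rw [hB i j]
    rfl
  rw [hM', Matrix.det_smul] at hdet
  have h2 : ((Matrix.of B).map (fun q : ℚ => (q : C))).det = 0 :=
    (mul_eq_zero.1 hdet).resolve_left (pow_ne_zero _ hx)
  have h3 : (Matrix.of B).det = 0 := by
    have h4 := RingHom.map_det (Rat.castHom C) (Matrix.of B)
    have h5 : ((Matrix.of B).det : C) = 0 := by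
      refine Eq.trans h4 (Eq.trans ?_ h2)
      congr 1
    exact_mod_cast h5
  obtain ⟨v, hv, hv0⟩ := Matrix.exists_mulVec_eq_zero_iff.2 h3
  have hn0 : 0 < n := by omega
  refine ⟨Pi.single ⟨0, hn0⟩ 1, v, ?_, hv, ?_⟩
  · intro h
    have := congrFun h ⟨0, hn0⟩
    simp at this
  · change bil M _ v = 0
    rw [hM', bil_smul]
    unfold bil
    have h6 : ∀ i, ∑ j, (((Pi.single ⟨0, hn0⟩ 1 : Fin n → ℚ) i : ℚ) : C) *
        ((Matrix.of B).map (fun q : ℚ => (q : C))) i j * (v j : C) = 0 := by
      intro i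
      have h7 := congrFun hv0 i
      rw [Matrix.mulVec, dotProduct] at h7
      have h8 : ∑ j, ((B i j : ℚ) : C) * (v j : C) = 0 := by
        have := congrArg (fun q : ℚ => (q : C)) h7
        simp only [Matrix.of_apply, Pi.zero_apply, Rat.cast_zero] at this
        rw [← this]
        push_cast
        rfl
      simp only [mul_assoc]
      rw [← Finset.mul_sum]
      simp only [Matrix.map_apply, Matrix.of_apply]
      rw [h8, mul_zero]
    rw [Finset.sum_eq_zero (fun i _ => h6 i), mul_zero]

/-- Two elements with transcendental quotient. -/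
theorem gen_plane (x y : C) (hy0 : y ≠ 0) (htr : ¬ IsAlgebraic ℚ (x / y)) :
    SingularHasZero (Submodule.span ℚ {x} ⊔ Submodule.span ℚ {y}) := by
  classical
  intro n hn M hM hdet
  have h1 : ∀ i j, ∃ a b : ℚ, M i j = x * (a : C) + y * (b : C) := by
    intro i j
    obtain ⟨u, hu, c, hc, hac⟩ := Submodule.mem_sup.1 (hM i j)
    obtain ⟨a, rfl⟩ := Submodule.mem_span_singleton.1 hu
    obtain ⟨b, rfl⟩ := Submodule.mem_span_singleton.1 hc
    exact ⟨a, b, by rw [← hac, Rat.smul_def, Rat.smul_def, mul_comm x, mul_comm y]⟩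
  choose A B hAB using h1
  set q : Polynomial ℚ := Matrix.det (Matrix.of fun i j : Fin n =>
      Polynomial.C (B i j) + Polynomial.X * Polynomial.C (A i j)) with hq
  have heval : ∀ t : C, Polynomial.aeval t q =
      ((Matrix.of B).map (fun q : ℚ => (q : C)) + t • (Matrix.of A).map (fun q : ℚ => (q : C))).det := by
    intro t
    rw [hq, AlgHom.map_det]
    congr 1
    ext i j
    simp only [Matrix.of_apply, Matrix.add_apply, Matrix.smul_apply, Matrix.map_apply,
      AlgHom.mapMatrix_apply, map_add, map_mul, Polynomial.aeval_C, Polynomial.aeval_X, smul_eq_mul,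
      eq_ratCast]
  have hMeq : M = y • ((Matrix.of B).map (fun q : ℚ => (q : C)) +
      (x / y) • (Matrix.of A).map (fun q : ℚ => (q : C))) := by
    ext i j
    simp only [Matrix.of_apply, Matrix.add_apply, Matrix.smul_apply, Matrix.map_apply, smul_eq_mul]
    rw [hAB i j]
    field_simp
    ring
  have hq0 : q = 0 := by
    by_contra hne
    apply htr
    refine ⟨q, hne, ?_⟩
    rw [heval]
    rw [hMeq, Matrix.det_smul] at hdet
    exact (mul_eq_zero.1 hdet).resolve_left (pow_ne_zero _ hy0)
  obtain ⟨w, v, hw, hv, h2, h3⟩ := pencil_general (gen_line y)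
    (y • (Matrix.of B).map (fun q : ℚ => (q : C))) (by
      intro i j
      rw [Submodule.mem_span_singleton]
      refine ⟨B i j, ?_⟩
      rw [Rat.smul_def, mul_comm]
      rfl) (Matrix.of A) (by
      intro t
      have h4 : y • (Matrix.of B).map (fun q : ℚ => (q : C)) + t • (Matrix.of A).map (fun q : ℚ => (q : C)) =
          y • ((Matrix.of B).map (fun q : ℚ => (q : C)) +
            (t / y) • (Matrix.of A).map (fun q : ℚ => (q : C))) := by
        rw [smul_add, smul_smul]
        congr 2
        field_simp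
      rw [h4, Matrix.det_smul, ← heval, hq0, map_zero, mul_zero])
  refine ⟨w, v, hw, hv, ?_⟩
  change bil M w v = 0
  have h5 : M = y • (Matrix.of B).map (fun q : ℚ => (q : C)) +
      x • (Matrix.of A).map (fun q : ℚ => (q : C)) := by
    ext i j
    simp only [Matrix.of_apply, Matrix.add_apply, Matrix.smul_apply, Matrix.map_apply, smul_eq_mul]
    rw [hAB i j]
    ring
  rw [h5, bil_add, bil_smul x, h2, h3, mul_zero, add_zero]

/-- Spaces of dimension at most two. -/
theorem gen_small (V : Submodule ℚ C) [Module.Finite ℚ V]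
    (htr : ∀ x ∈ V, ∀ y ∈ V, LinearIndependent ℚ ![x, y] → ¬ IsAlgebraic ℚ (x / y))
    (h2 : finrank ℚ V ≤ 2) : SingularHasZero V := by
  set b := Module.finBasis ℚ V with hb
  have hspan : V = Submodule.span ℚ (Set.range (fun i => (b i : C))) := by
    have h1 : Set.range (fun i => (b i : C)) = V.subtype '' Set.range b := by
      rw [← Set.range_comp]
      rfl
    rw [h1, Submodule.span_image, b.span_eq, Submodule.map_subtype_top]
  have hli : LinearIndependent ℚ (fun i => (b i : C)) :=
    b.linearIndependent.map' V.subtype (Submodule.ker_subtype V)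
  have hmem : ∀ i, (b i : C) ∈ V := fun i => (b i).2
  generalize hd : (fun i => (b i : C)) = f at hspan hli
  have hmem' : ∀ i, f i ∈ V := by
    intro i
    rw [← hd]
    exact hmem i
  have htr' : ∀ i j, LinearIndependent ℚ ![f i, f j] → ¬ IsAlgebraic ℚ (f i / f j) :=
    fun i j => htr _ (hmem' i) _ (hmem' j)
  clear hmem hmem' hd hb htr
  clear b
  rw [hspan]
  clear hspan
  generalize finrank ℚ V = d at h2 f hli htr'
  interval_cases d
  · rw [Set.range_eq_empty, Submodule.span_empty]
    exact gen_bot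
  · have : Set.range f = {f 0} := by
      ext z
      constructor
      · rintro ⟨i, rfl⟩
        rw [Subsingleton.elim i 0]
        rfl
      · rintro rfl
        exact ⟨0, rfl⟩
    rw [this]
    exact gen_line _
  · have : Set.range f = {f 0} ∪ {f 1} := by
      ext z
      constructor
      · rintro ⟨i, rfl⟩
        fin_cases i
        · left; rfl
        · right; rfl
      · rintro (rfl | rfl)
        · exact ⟨0, rfl⟩
        · exact ⟨1, rfl⟩
    rw [this, Submodule.span_union]
    apply gen_plane _ _ (hli.ne_zero 1)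
    apply htr'
    convert hli using 1
    funext i
    fin_cases i <;> rfl

end Small

/-! ### Extension -/

section Ext

variable {κ C : Type*} [Field κ] [CharZero κ] [Field C] [CharZero C] [Algebra κ C]

theorem not_mem_of_noRelOver' {V : Submodule ℚ C} {d : ℕ} {x : C}
    (hx : NoRelOver (affSpan κ V ^ (d + 1)) (d + 1) x) : x ∉ V := by
  intro hxV
  have hle : affSpan κ V ≤ affSpan κ V ^ (d + 1) := by
    conv_lhs => rw [← pow_one (affSpan κ V)]
    exact pow_le_pow_right' (Submodule.one_le.2 (one_mem_affSpan V)) (by omega)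
  have h1 := hx (fun j => if j = 0 then -x else if j = 1 then 1 else 0) (by
    intro j
    split_ifs
    · exact Submodule.neg_mem _ (hle (mem_affSpan V hxV))
    · exact hle (one_mem_affSpan V)
    · exact Submodule.zero_mem _) (by
    rw [Fin.sum_univ_succ, Fin.sum_univ_succ]
    have h2 : ∀ j : Fin d, (Fin.succ (Fin.succ j) : Fin (d + 1 + 1)) ≠ 0 := fun j => Fin.succ_ne_zero _
    have h3 : ∀ j : Fin d, (Fin.succ (Fin.succ j) : Fin (d + 1 + 1)) ≠ 1 := by
      intro j h
      rw [← Fin.succ_zero_eq_one] at h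
      exact Fin.succ_ne_zero _ (Fin.succ_injective _ h)
    simp [h3]) 1
  have h4 : (1 : Fin (d + 1 + 1)) ≠ 0 := by
    intro h
    exact absurd (congrArg Fin.val h) (by simp)
  simp only [h4, if_false, if_true] at h1
  exact one_ne_zero h1

omit [CharZero C] in
theorem finrank_sup_span_singleton' {K : Type*} [Field K] [Algebra K C] {V : Submodule K C}
    [Module.Finite K V] {x : C} (hx : x ∉ V) :
    finrank K (V ⊔ Submodule.span K {x} : Submodule K C) = finrank K V + 1 := by
  have hx0 : x ≠ 0 := by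
    rintro rfl
    exact hx V.zero_mem
  have h1 : V ⊓ Submodule.span K {x} = ⊥ := by
    rw [← disjoint_iff]
    exact (Submodule.disjoint_span_singleton' hx0).2 hx
  have h2 := Submodule.finrank_sup_add_finrank_inf_eq V (Submodule.span K {x})
  rw [h1, finrank_bot, add_zero, finrank_span_singleton hx0] at h2
  exact h2

omit [CharZero C] in
theorem span_cons {K : Type*} [Field K] [Algebra K C] (V : Submodule K C) (lg : ℕ → C) {k : ℕ}
    (b : ℕ) (a : Fin k → ℕ) :
    V ⊔ Submodule.span K (Set.range fun i => lg ((Fin.cons b a : Fin (k + 1) → ℕ) i)) =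
      V ⊔ Submodule.span K {lg b} ⊔ Submodule.span K (Set.range fun i => lg (a i)) := by
  rw [sup_assoc, ← Submodule.span_union]
  congr 2
  ext z
  constructor
  · rintro ⟨i, rfl⟩
    refine Fin.cases ?_ (fun j => ?_) i
    · left; simp
    · right; exact ⟨j, by simp⟩
  · rintro (h | ⟨j, rfl⟩)
    · exact ⟨0, by simpa using h.symm⟩
    · exact ⟨j.succ, by simp⟩

/-- The good tuples for the zero coefficient property. -/
def GoodZ (V : Submodule ℚ C) (lg : ℕ → C) {k : ℕ} (a : Fin k → ℕ) : Prop :=
  SingularHasZero (V ⊔ Submodule.span ℚ (Set.range fun i => lg (a i))) ∧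
  finrank ℚ (V ⊔ Submodule.span ℚ (Set.range fun i => lg (a i)) : Submodule ℚ C) =
    finrank ℚ V + k

end Ext

/-- The uniform density theorem for tuples, zero coefficient property. -/
theorem density_goodZ (k : ℕ) : ∀ (m : ℕ) (ε : ℝ), 0 < ε →
    ∃ x₀ : ℕ, ∀ x ≥ x₀, ∀ (κ C : Type) [Field κ] [IsAlgClosed κ] [CharZero κ] [Field C]
      [CharZero C] [Algebra κ C] (lg : ℕ → C), LogLike κ lg → ∀ V : Submodule ℚ C,
      Module.Finite ℚ V → finrank ℚ V ≤ m → SingularHasZero V → ∀ B : Finset (Fin k → ℕ),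
      B ⊆ Fintype.piFinset (fun _ : Fin k => Ioc 0 x) → (∀ a ∈ B, ¬ GoodZ V lg a) →
      (B.card : ℝ) ≤ ε * x ^ k := by
  classical
  induction k with
  | zero =>
    intro m ε hε
    refine ⟨0, fun x _ κ C _ _ _ _ _ _ lg hlg V hVf hVm hV B hB hbad => ?_⟩
    have : B = ∅ := by
      rw [Finset.eq_empty_iff_forall_notMem]
      intro a ha
      apply hbad a ha
      unfold GoodZ
      have : Submodule.span ℚ (Set.range fun i : Fin 0 => lg (a i)) = ⊥ := by
        rw [Set.range_eq_empty, Submodule.span_empty]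
      rw [this, sup_bot_eq]
      exact ⟨hV, rfl⟩
    rw [this]
    simp [hε.le]
  | succ k ih =>
    intro m ε hε
    choose f hf using fun d : ℕ => density_one ((m + 1) ^ (d + 1)) (d + 1) (ε / 2) (by linarith)
    obtain ⟨x₂, hx₂⟩ := ih (m + 1) (ε / 2) (by linarith)
    refine ⟨max ((Finset.range (m + 1)).sup f) x₂, fun x hx κ C _ _ _ _ _ _ lg hlg V hVf hVm hV
      B hB hbad => ?_⟩
    have h0 := affSpan_finite (κ := κ) V
    obtain ⟨h2, h3⟩ := finrank_pow_le (affSpan κ V)
      (m + 1) ((finrank_affSpan_le V).trans (by omega)) (finrank ℚ V + 1)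
    have hfx : f (finrank ℚ V) ≤ x :=
      (Finset.le_sup (f := f) (Finset.mem_range.2 (by omega))).trans ((le_max_left _ _).trans hx)
    refine count_cons k x ε hε (fun a => ¬ GoodZ V lg a)
      ((Ioc 0 x).filter (fun n => ¬ NoRelOver (affSpan κ V ^ (finrank ℚ V + 1))
        (finrank ℚ V + 1) (lg n))) (Finset.filter_subset _ _) ?_ ?_ B hB hbad
    · exact hf (finrank ℚ V) x hfx κ C lg hlg _ h2 h3 _ (Finset.filter_subset _ _)
        (fun n hn => (Finset.mem_filter.1 hn).2)
    · intro a ha haA B' hB' hbad'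
      have hta : NoRelOver (affSpan κ V ^ (finrank ℚ V + 1)) (finrank ℚ V + 1) (lg a) := by
        by_contra hcon
        exact haA (Finset.mem_filter.2 ⟨ha, hcon⟩)
      have hrk := finrank_sup_span_singleton' (K := ℚ) (not_mem_of_noRelOver' hta)
      apply hx₂ x (le_trans (le_max_right _ _) hx) κ C lg hlg
        (V ⊔ Submodule.span ℚ {lg a}) inferInstance (by rw [hrk]; omega) (extend V hV _ hta) B' hB'
      intro n hn hg
      apply hbad' n hn
      unfold GoodZ
      rw [span_cons]
      refine ⟨hg.1, ?_⟩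
      rw [hg.2, hrk]
      ring

/-! ### Strong four exponentials -/

section Four

variable {κ C : Type*} [Field κ] [Field C] [Algebra κ C]

/-- The strong four exponentials property of a space: a singular `2 × 2` matrix with entries in `V`
has dependent rows or dependent columns. -/
def StrongFour (V : Submodule κ C) : Prop :=
  ∀ M : Matrix (Fin 2) (Fin 2) C, (∀ i j, M i j ∈ V) → M.det = 0 →
    (∃ a b : κ, (a ≠ 0 ∨ b ≠ 0) ∧ ∀ j, a • M 0 j + b • M 1 j = 0) ∨
    (∃ a b : κ, (a ≠ 0 ∨ b ≠ 0) ∧ ∀ i, a • M i 0 + b • M i 1 = 0)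

/-- Rank one matrices over a field. -/
theorem rank_one_form {F : Type*} [Field F] (b : Fin 2 → Fin 2 → F)
    (h : b 0 0 * b 1 1 - b 0 1 * b 1 0 = 0) :
    ∃ v β : Fin 2 → F, ∀ i j, b i j = v i * β j := by
  by_cases h00 : b 0 0 = 0 ∧ b 0 1 = 0
  · refine ⟨![0, 1], b 1, fun i j => ?_⟩
    fin_cases i
    · fin_cases j
      · simp [h00.1]
      · simp [h00.2]
    · simp
  · have h0 : b 0 0 ≠ 0 ∨ b 0 1 ≠ 0 := by
      by_contra hcon
      push Not at hcon
      exact h00 hcon
    rcases h0 with h0 | h0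
    · refine ⟨![1, b 1 0 / b 0 0], b 0, fun i j => ?_⟩
      fin_cases i
      · simp
      · fin_cases j
        · simp; field_simp
        · simp; field_simp; linear_combination h
    · refine ⟨![1, b 1 1 / b 0 1], b 0, fun i j => ?_⟩
      fin_cases i
      · simp
      · fin_cases j
        · simp; field_simp; linear_combination -h
        · simp; field_simp

/-- The algebra behind the extension step. -/
theorem four_core (A : Fin 2 → Fin 2 → C) (B : Fin 2 → Fin 2 → κ) (x : C)
    (hrow : ∃ a b : κ, (a ≠ 0 ∨ b ≠ 0) ∧ ∀ j, a • A 0 j + b • A 1 j = 0)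
    (hB : B 0 0 * B 1 1 - B 0 1 * B 1 0 = 0)
    (hmix : A 0 0 * algebraMap κ C (B 1 1) + algebraMap κ C (B 0 0) * A 1 1 -
      A 0 1 * algebraMap κ C (B 1 0) - algebraMap κ C (B 0 1) * A 1 0 = 0) :
    (∃ a b : κ, (a ≠ 0 ∨ b ≠ 0) ∧ ∀ j,
      a • (A 0 j + x * algebraMap κ C (B 0 j)) + b • (A 1 j + x * algebraMap κ C (B 1 j)) = 0) ∨
    (∃ a b : κ, (a ≠ 0 ∨ b ≠ 0) ∧ ∀ i,
      a • (A i 0 + x * algebraMap κ C (B i 0)) + b • (A i 1 + x * algebraMap κ C (B i 1)) = 0) := by
  obtain ⟨a, b, hab, hA⟩ := hrow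
  obtain ⟨v, β, hvβ⟩ := rank_one_form B hB
  -- `A = u αᵀ` with `u = (b, -a)`
  obtain ⟨α, hα⟩ : ∃ α : Fin 2 → C, ∀ j, A 0 j = algebraMap κ C b * α j ∧
      A 1 j = -(algebraMap κ C a * α j) := by
    simp only [Algebra.smul_def] at hA
    rcases eq_or_ne b 0 with hb | hb
    · have ha : a ≠ 0 := by
        rcases hab with h | h
        · exact h
        · exact absurd hb h
      have ha' : algebraMap κ C a ≠ 0 := by
        rw [Ne, FaithfulSMul.algebraMap_eq_zero_iff]; exact ha
      refine ⟨fun j => -(A 1 j / algebraMap κ C a), fun j => ⟨?_, ?_⟩⟩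
      · have h1 := hA j
        rw [hb, map_zero, zero_mul, add_zero] at h1
        rw [hb, map_zero, zero_mul]
        exact (mul_eq_zero.1 h1).resolve_left ha'
      · field_simp
    · have hb' : algebraMap κ C b ≠ 0 := by
        rw [Ne, FaithfulSMul.algebraMap_eq_zero_iff]; exact hb
      refine ⟨fun j => A 0 j / algebraMap κ C b, fun j => ⟨?_, ?_⟩⟩
      · field_simp
      · have h1 := hA j
        field_simp
        linear_combination h1
  simp only [hvβ, map_mul] at hmix ⊢
  have h1 : (algebraMap κ C b * algebraMap κ C (v 1) + algebraMap κ C a * algebraMap κ C (v 0)) *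
      (α 0 * algebraMap κ C (β 1) - α 1 * algebraMap κ C (β 0)) = 0 := by
    rw [(hα 0).1, (hα 1).1, (hα 0).2, (hα 1).2] at hmix
    linear_combination hmix
  simp only [Algebra.smul_def]
  rcases mul_eq_zero.1 h1 with h2 | h2
  · left
    refine ⟨a, b, hab, fun j => ?_⟩
    rw [(hα j).1, (hα j).2]
    linear_combination (x * algebraMap κ C (β j)) * h2
  · by_cases hβ : β 0 ≠ 0 ∨ β 1 ≠ 0
    · right
      refine ⟨β 1, -β 0, ?_, fun i => ?_⟩
      · rcases hβ with h | h
        · right; simpa using h
        · left; exact h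
      · rw [map_neg]
        fin_cases i
        · show algebraMap κ C (β 1) * (A 0 0 + x * (algebraMap κ C (v 0) * algebraMap κ C (β 0))) +
            -algebraMap κ C (β 0) * (A 0 1 + x * (algebraMap κ C (v 0) * algebraMap κ C (β 1))) = 0
          rw [(hα 0).1, (hα 1).1]
          linear_combination (algebraMap κ C b) * h2
        · show algebraMap κ C (β 1) * (A 1 0 + x * (algebraMap κ C (v 1) * algebraMap κ C (β 0))) +
            -algebraMap κ C (β 0) * (A 1 1 + x * (algebraMap κ C (v 1) * algebraMap κ C (β 1))) = 0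
          rw [(hα 0).2, (hα 1).2]
          linear_combination -(algebraMap κ C a) * h2
    · push Not at hβ
      left
      refine ⟨a, b, hab, fun j => ?_⟩
      have h3 : β j = 0 := by
        fin_cases j
        · exact hβ.1
        · exact hβ.2
      rw [h3, (hα j).1, (hα j).2, map_zero]
      ring

/-- The space of coefficients. -/
def coefSp (V : Submodule κ C) : Submodule κ C := (V ⊔ 1) ^ 2

/-- **Extension of the strong four exponentials property.** -/
theorem four_extend (V : Submodule κ C) (hV : StrongFour V) (x : C)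
    (hx : NoRelOver (coefSp V) 2 x) : StrongFour (V ⊔ Submodule.span κ {x}) := by
  intro M hM hdet
  have h1 : ∀ i j, ∃ a : C, ∃ b : κ, a ∈ V ∧ M i j = a + x * algebraMap κ C b := by
    intro i j
    obtain ⟨a, ha, c, hc, hac⟩ := Submodule.mem_sup.1 (hM i j)
    obtain ⟨b, rfl⟩ := Submodule.mem_span_singleton.1 hc
    refine ⟨a, b, ha, ?_⟩
    rw [← hac, Algebra.smul_def, mul_comm]
  choose A B hA hAB using h1
  have hV2 : ∀ a ∈ V, ∀ b ∈ V, a * b ∈ coefSp V := by
    intro a ha b hb
    unfold coefSp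
    rw [pow_two]
    exact Submodule.mul_mem_mul (Submodule.mem_sup_left ha) (Submodule.mem_sup_left hb)
  have hone : (1 : C) ∈ (V ⊔ 1 : Submodule κ C) := Submodule.mem_sup_right (Submodule.one_le.1 le_rfl)
  have hV1 : ∀ a ∈ V, ∀ b : κ, a * algebraMap κ C b ∈ coefSp V := by
    intro a ha b
    have h2 : a * 1 ∈ coefSp V := by
      unfold coefSp
      rw [pow_two]
      exact Submodule.mul_mem_mul (Submodule.mem_sup_left ha) hone
    have h3 := Submodule.smul_mem _ b h2
    rw [Algebra.smul_def, mul_one, mul_comm] at h3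
    exact h3
  have hV0 : ∀ b : κ, algebraMap κ C b ∈ coefSp V := by
    intro b
    have h2 : (1 : C) * 1 ∈ coefSp V := by
      unfold coefSp
      rw [pow_two]
      exact Submodule.mul_mem_mul hone hone
    have h3 := Submodule.smul_mem _ b h2
    rw [Algebra.smul_def, mul_one, mul_one] at h3
    exact h3
  set c0 : C := A 0 0 * A 1 1 - A 0 1 * A 1 0 with hc0
  set c1 : C := A 0 0 * algebraMap κ C (B 1 1) + algebraMap κ C (B 0 0) * A 1 1 -
      A 0 1 * algebraMap κ C (B 1 0) - algebraMap κ C (B 0 1) * A 1 0 with hc1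
  set c2 : C := algebraMap κ C (B 0 0 * B 1 1 - B 0 1 * B 1 0) with hc2
  have hrel := hx ![c0, c1, c2] (by
    intro j
    fin_cases j
    · exact Submodule.sub_mem _ (hV2 _ (hA _ _) _ (hA _ _)) (hV2 _ (hA _ _) _ (hA _ _))
    · refine Submodule.sub_mem _ (Submodule.sub_mem _ (Submodule.add_mem _ (hV1 _ (hA _ _) _) ?_)
        (hV1 _ (hA _ _) _)) ?_
      · rw [mul_comm]; exact hV1 _ (hA _ _) _
      · rw [mul_comm]; exact hV1 _ (hA _ _) _
    · exact hV0 _) (by
    rw [Matrix.det_fin_two, hAB 0 0, hAB 1 1, hAB 0 1, hAB 1 0] at hdet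
    rw [Fin.sum_univ_three]
    simp only [Matrix.cons_val_zero, Matrix.cons_val_one, Matrix.cons_val_two, Matrix.head_cons,
      Matrix.tail_cons, Fin.val_zero, Fin.val_one, Fin.val_two, pow_zero, pow_one, mul_one]
    rw [hc2, map_sub, map_mul, map_mul]
    have h5 : (Matrix.vecHead (Matrix.vecTail ![c1, (algebraMap κ C) (B 0 0) * (algebraMap κ C) (B 1 1) -
      (algebraMap κ C) (B 0 1) * (algebraMap κ C) (B 1 0)])) = (algebraMap κ C) (B 0 0) * (algebraMap κ C) (B 1 1) -
      (algebraMap κ C) (B 0 1) * (algebraMap κ C) (B 1 0) := rfl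
    try rw [h5]
    linear_combination hdet)
  have e0 : c0 = 0 := hrel 0
  have e1 : c1 = 0 := hrel 1
  have e2 : c2 = 0 := hrel 2
  have hBdet : B 0 0 * B 1 1 - B 0 1 * B 1 0 = 0 := by
    rw [hc2, FaithfulSMul.algebraMap_eq_zero_iff] at e2
    exact e2
  have h6 := hV (Matrix.of A) hA (by
    rw [Matrix.det_fin_two]
    exact e0)
  simp only [hAB]
  rcases h6 with h6 | h6
  · exact four_core A B x h6 hBdet e1
  · have h7 := four_core (fun i j => A j i) (fun i j => B j i) x h6
      (by linear_combination hBdet) (by linear_combination e1)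
    exact h7.symm

theorem coefSp_finite (V : Submodule κ C) [Module.Finite κ V] (m : ℕ) (hm : finrank κ V ≤ m) :
    Module.Finite κ (coefSp V) ∧ finrank κ (coefSp V) ≤ (m + 1) ^ 2 := by
  have h1 : Module.Finite κ (1 : Submodule κ C) := by
    rw [Submodule.one_eq_range]
    infer_instance
  have h2 : finrank κ (1 : Submodule κ C) ≤ 1 := by
    rw [Submodule.one_eq_range]
    refine (LinearMap.finrank_range_le _).trans ?_
    simp
  have h3 : finrank κ (V ⊔ 1 : Submodule κ C) ≤ m + 1 :=
    (Submodule.finrank_add_le_finrank_add_finrank _ _).trans (Nat.add_le_add hm h2)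
  exact finrank_pow_le (V ⊔ 1 : Submodule κ C) (m + 1) h3 2

theorem not_mem_of_coefSp {V : Submodule κ C} {x : C} (hx : NoRelOver (coefSp V) 2 x) : x ∉ V := by
  intro hxV
  have hone : (1 : C) ∈ (V ⊔ 1 : Submodule κ C) := Submodule.mem_sup_right (Submodule.one_le.1 le_rfl)
  have h1 : ∀ a ∈ (V ⊔ 1 : Submodule κ C), a ∈ coefSp V := by
    intro a ha
    unfold coefSp
    rw [pow_two]
    have := Submodule.mul_mem_mul ha hone
    rwa [mul_one] at this
  have h2 := hx ![-x, 1, 0] (by
    intro j
    fin_cases j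
    · exact h1 _ (Submodule.mem_sup_left (Submodule.neg_mem _ hxV))
    · exact h1 _ hone
    · exact Submodule.zero_mem _) (by
    rw [Fin.sum_univ_three]
    simp) 1
  simp at h2

end Four

/-- The good tuples for the strong four exponentials property. -/
def GoodF {κ C : Type*} [Field κ] [Field C] [Algebra κ C] (V : Submodule κ C) (lg : ℕ → C) {k : ℕ}
    (a : Fin k → ℕ) : Prop :=
  StrongFour (V ⊔ Submodule.span κ (Set.range fun i => lg (a i))) ∧
  finrank κ (V ⊔ Submodule.span κ (Set.range fun i => lg (a i)) : Submodule κ C) =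
    finrank κ V + k

/-- The uniform density theorem for tuples, strong four exponentials property. -/
theorem density_goodF (k : ℕ) : ∀ (m : ℕ) (ε : ℝ), 0 < ε →
    ∃ x₀ : ℕ, ∀ x ≥ x₀, ∀ (κ C : Type) [Field κ] [IsAlgClosed κ] [CharZero κ] [Field C]
      [Algebra κ C] (lg : ℕ → C), LogLike κ lg → ∀ V : Submodule κ C,
      Module.Finite κ V → finrank κ V ≤ m → StrongFour V → ∀ B : Finset (Fin k → ℕ),
      B ⊆ Fintype.piFinset (fun _ : Fin k => Ioc 0 x) → (∀ a ∈ B, ¬ GoodF V lg a) →
      (B.card : ℝ) ≤ ε * x ^ k := by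
  classical
  induction k with
  | zero =>
    intro m ε hε
    refine ⟨0, fun x _ κ C _ _ _ _ _ lg hlg V hVf hVm hV B hB hbad => ?_⟩
    have : B = ∅ := by
      rw [Finset.eq_empty_iff_forall_notMem]
      intro a ha
      apply hbad a ha
      unfold GoodF
      have : Submodule.span κ (Set.range fun i : Fin 0 => lg (a i)) = ⊥ := by
        rw [Set.range_eq_empty, Submodule.span_empty]
      rw [this, sup_bot_eq]
      exact ⟨hV, rfl⟩
    rw [this]
    simp [hε.le]
  | succ k ih =>
    intro m ε hε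
    obtain ⟨x₁, hx₁⟩ := density_one ((m + 1) ^ 2) 2 (ε / 2) (by linarith)
    obtain ⟨x₂, hx₂⟩ := ih (m + 1) (ε / 2) (by linarith)
    refine ⟨max x₁ x₂, fun x hx κ C _ _ _ _ _ lg hlg V hVf hVm hV B hB hbad => ?_⟩
    obtain ⟨h2, h3⟩ := coefSp_finite V m hVm
    refine count_cons k x ε hε (fun a => ¬ GoodF V lg a)
      ((Ioc 0 x).filter (fun n => ¬ NoRelOver (coefSp V) 2 (lg n))) (Finset.filter_subset _ _)
      ?_ ?_ B hB hbad
    · exact hx₁ x (le_trans (le_max_left _ _) hx) κ C lg hlg _ h2 h3 _ (Finset.filter_subset _ _)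
        (fun n hn => (Finset.mem_filter.1 hn).2)
    · intro a ha haA B' hB' hbad'
      have hta : NoRelOver (coefSp V) 2 (lg a) := by
        by_contra hcon
        exact haA (Finset.mem_filter.2 ⟨ha, hcon⟩)
      have hrk := finrank_sup_span_singleton' (K := κ) (not_mem_of_coefSp hta)
      apply hx₂ x (le_trans (le_max_right _ _) hx) κ C lg hlg
        (V ⊔ Submodule.span κ {lg a}) inferInstance (by rw [hrk]; omega)
        (four_extend V hV _ hta) B' hB'
      intro n hn hg
      apply hbad' n hn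
      unfold GoodF
      rw [span_cons]
      refine ⟨hg.1, ?_⟩
      rw [hg.2, hrk]
      ring

end Pool.Agent.W245.PB
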