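import Mathlib

set_option autoImplicit false
set_option linter.unusedVariables false
set_option linter.unusedSectionVars false

/-!
# Power series converging on a disc of radius `> 1` over a complete ultrametric field

Evaluation in the closed unit disc, division by `X - c` at a zero, and a Schwarz lemma.
-/

namespace Pool.Agent.W245.PB

open Finset

variable {E : Type*} [NormedField E]

/-- The coefficients of `f` satisfy `‖a_n‖ R ^ n ≤ M`. -/
def Bd (R M : ℝ) (f : PowerSeries E) : Prop := ∀ n, ‖PowerSeries.coeff n f‖ * R ^ n ≤ M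

/-- The value of `f` at `w`. -/
noncomputable def ev (w : E) (f : PowerSeries E) : E := ∑' n, PowerSeries.coeff n f * w ^ n

theorem Bd.nonneg {R M : ℝ} {f : PowerSeries E} (hR : 0 ≤ R) (h : Bd R M f) : 0 ≤ M :=
  le_trans (by positivity) (h 0)

theorem Bd.mono {R M M' : ℝ} {f : PowerSeries E} (h : Bd R M f) (hM : M ≤ M') : Bd R M' f :=
  fun n => (h n).trans hM

theorem Bd.summable_norm {R M : ℝ} {f : PowerSeries E} (hR : 1 < R) (h : Bd R M f) {w : E}
    (hw : ‖w‖ ≤ 1) : Summable fun n => ‖PowerSeries.coeff n f * w ^ n‖ := by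
  have hR0 : 0 < R := by linarith
  refine Summable.of_nonneg_of_le (fun _ => norm_nonneg _) (fun n => ?_)
    ((summable_geometric_of_lt_one (inv_nonneg.2 hR0.le) (inv_lt_one_of_one_lt₀ hR)).mul_left M)
  rw [norm_mul, norm_pow]
  have h1 := h n
  calc ‖PowerSeries.coeff n f‖ * ‖w‖ ^ n ≤ ‖PowerSeries.coeff n f‖ * 1 ^ n := by gcongr
    _ = ‖PowerSeries.coeff n f‖ * R ^ n * R⁻¹ ^ n := by
        rw [inv_pow, one_pow]
        field_simp
    _ ≤ M * R⁻¹ ^ n := by gcongr

variable [CompleteSpace E]

theorem Bd.summable {R M : ℝ} {f : PowerSeries E} (hR : 1 < R) (h : Bd R M f) {w : E}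
    (hw : ‖w‖ ≤ 1) : Summable fun n => PowerSeries.coeff n f * w ^ n :=
  (h.summable_norm hR hw).of_norm

theorem ev_add {R M M' : ℝ} {f g : PowerSeries E} (hR : 1 < R) (hf : Bd R M f) (hg : Bd R M' g)
    {w : E} (hw : ‖w‖ ≤ 1) : ev w (f + g) = ev w f + ev w g := by
  unfold ev
  rw [← (hf.summable hR hw).tsum_add (hg.summable hR hw)]
  congr 1
  funext n
  rw [map_add, add_mul]

theorem ev_mul {R M M' : ℝ} {f g : PowerSeries E} (hR : 1 < R) (hf : Bd R M f) (hg : Bd R M' g)
    {w : E} (hw : ‖w‖ ≤ 1) : ev w (f * g) = ev w f * ev w g := by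
  unfold ev
  rw [tsum_mul_tsum_eq_tsum_sum_antidiagonal_of_summable_norm (hf.summable_norm hR hw)
    (hg.summable_norm hR hw)]
  congr 1
  funext n
  rw [PowerSeries.coeff_mul, Finset.sum_mul]
  apply Finset.sum_congr rfl
  intro x hx
  rw [HasAntidiagonal.mem_antidiagonal] at hx
  rw [← hx, pow_add]
  ring

omit [CompleteSpace E] in
theorem ev_C (w c : E) : ev w (PowerSeries.C c) = c := by
  unfold ev
  rw [tsum_eq_single 0]
  · simp
  · intro n hn
    rw [PowerSeries.coeff_C, if_neg hn, zero_mul]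

omit [CompleteSpace E] in
theorem ev_X (w : E) : ev w (PowerSeries.X : PowerSeries E) = w := by
  unfold ev
  rw [tsum_eq_single 1]
  · simp
  · intro n hn
    rw [PowerSeries.coeff_X, if_neg hn, zero_mul]

omit [CompleteSpace E] in
theorem ev_zero (w : E) : ev w (0 : PowerSeries E) = 0 := by
  unfold ev
  simp

variable [IsUltrametricDist E]

omit [CompleteSpace E] in
theorem Bd.add {R M : ℝ} {f g : PowerSeries E} (hR : 0 ≤ R) (hf : Bd R M f) (hg : Bd R M g) :
    Bd R M (f + g) := by
  intro n
  rw [map_add]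
  rcases le_total ‖PowerSeries.coeff n f‖ ‖PowerSeries.coeff n g‖ with h | h
  · have h1 := (IsUltrametricDist.norm_add_le_max (PowerSeries.coeff n f)
      (PowerSeries.coeff n g)).trans (max_le h le_rfl)
    exact (mul_le_mul_of_nonneg_right h1 (by positivity)).trans (hg n)
  · have h1 := (IsUltrametricDist.norm_add_le_max (PowerSeries.coeff n f)
      (PowerSeries.coeff n g)).trans (max_le le_rfl h)
    exact (mul_le_mul_of_nonneg_right h1 (by positivity)).trans (hf n)

omit [CompleteSpace E] [IsUltrametricDist E] in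
theorem Bd.zero {R M : ℝ} (hM : 0 ≤ M) : Bd R M (0 : PowerSeries E) := by
  intro n; simpa using hM

omit [CompleteSpace E] in
theorem Bd.sum {R M : ℝ} {ι : Type*} (s : Finset ι) (f : ι → PowerSeries E) (hR : 0 ≤ R)
    (hM : 0 ≤ M) (hf : ∀ i ∈ s, Bd R M (f i)) : Bd R M (∑ i ∈ s, f i) := by
  classical
  induction s using Finset.induction_on with
  | empty => simpa using Bd.zero hM
  | insert i s hi ih =>
    rw [Finset.sum_insert hi]
    exact (hf i (mem_insert_self _ _)).add hR (ih fun j hj => hf j (mem_insert_of_mem hj))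

omit [CompleteSpace E] in
theorem Bd.mul {R M M' : ℝ} {f g : PowerSeries E} (hR : 0 ≤ R) (hf : Bd R M f) (hg : Bd R M' g) :
    Bd R (M * M') (f * g) := by
  intro n
  have hM := hf.nonneg hR
  have hM' := hg.nonneg hR
  have hRn : 0 ≤ R ^ n := by positivity
  have h1 : ∀ x ∈ antidiagonal n, ‖PowerSeries.coeff x.1 f * PowerSeries.coeff x.2 g‖ * R ^ n
      ≤ M * M' := by
    intro x hx
    rw [HasAntidiagonal.mem_antidiagonal] at hx
    rw [← hx, pow_add, norm_mul]
    calc ‖PowerSeries.coeff x.1 f‖ * ‖PowerSeries.coeff x.2 g‖ * (R ^ x.1 * R ^ x.2)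
        = (‖PowerSeries.coeff x.1 f‖ * R ^ x.1) * (‖PowerSeries.coeff x.2 g‖ * R ^ x.2) := by ring
      _ ≤ M * M' := mul_le_mul (hf _) (hg _) (by positivity) hM
  rw [PowerSeries.coeff_mul]
  obtain ⟨x, hx, hx2⟩ := IsUltrametricDist.exists_norm_finsetSum_le_of_nonempty
    (t := antidiagonal n) ⟨(0, n), by simp⟩
    (fun x : ℕ × ℕ => PowerSeries.coeff x.1 f * PowerSeries.coeff x.2 g)
  exact (mul_le_mul_of_nonneg_right hx2 hRn).trans (h1 x hx)

omit [CompleteSpace E] [IsUltrametricDist E] in
theorem Bd.C {R : ℝ} (c : E) : Bd R ‖c‖ (PowerSeries.C c) := by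
  intro n
  rw [PowerSeries.coeff_C]
  split_ifs with h
  · simp [h]
  · simp

omit [CompleteSpace E] [IsUltrametricDist E] in
theorem Bd.X {R : ℝ} (hR : 0 ≤ R) : Bd R R (PowerSeries.X : PowerSeries E) := by
  intro n
  rw [PowerSeries.coeff_X]
  split_ifs with h
  · simp [h]
  · simpa using hR

theorem ev_sum {R M : ℝ} {ι : Type*} (s : Finset ι) (f : ι → PowerSeries E) (hR : 1 < R)
    (hM : 0 ≤ M) (hf : ∀ i ∈ s, Bd R M (f i)) {w : E} (hw : ‖w‖ ≤ 1) :
    ev w (∑ i ∈ s, f i) = ∑ i ∈ s, ev w (f i) := by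
  classical
  induction s using Finset.induction_on with
  | empty => simpa using ev_zero w
  | insert i s hi ih =>
    rw [Finset.sum_insert hi, Finset.sum_insert hi]
    have h1 : Bd R M (∑ j ∈ s, f j) := Bd.sum s f (by linarith) hM
      fun j hj => hf j (mem_insert_of_mem hj)
    rw [ev_add hR (hf i (mem_insert_self _ _)) h1 hw, ih fun j hj => hf j (mem_insert_of_mem hj)]

/-- the value is bounded by the bound of the coefficients -/
theorem norm_ev_le {R M : ℝ} {f : PowerSeries E} (hR : 1 < R) (hf : Bd R M f) {w : E}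
    (hw : ‖w‖ ≤ 1) : ‖ev w f‖ ≤ M := by
  have hM := hf.nonneg (by linarith)
  unfold ev
  apply IsUltrametricDist.norm_tsum_le_of_forall_le_of_nonneg hM
  intro n
  rw [norm_mul, norm_pow]
  calc ‖PowerSeries.coeff n f‖ * ‖w‖ ^ n ≤ ‖PowerSeries.coeff n f‖ * R ^ n := by
        gcongr
        linarith
    _ ≤ M := hf n

/-- Division by `X - c` at a zero `c` in the unit disc. -/
theorem exists_div {R M : ℝ} {f : PowerSeries E} (hR : 1 < R) (hf : Bd R M f) {c : E}
    (hc : ‖c‖ ≤ 1) (h0 : ev c f = 0) :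
    ∃ g : PowerSeries E, Bd R (M / R) g ∧ f = (PowerSeries.X - PowerSeries.C c) * g := by
  have hR0 : 0 < R := by linarith
  have hM := hf.nonneg hR0.le
  have hs : ∀ n, Summable fun k => PowerSeries.coeff (n + k) f * c ^ k := by
    intro n
    apply Summable.of_norm
    refine Summable.of_nonneg_of_le (fun _ => norm_nonneg _) (fun k => ?_)
      ((summable_geometric_of_lt_one (inv_nonneg.2 hR0.le) (inv_lt_one_of_one_lt₀ hR)).mul_left M)
    rw [norm_mul, norm_pow]
    have h1 := hf (n + k)
    calc ‖PowerSeries.coeff (n + k) f‖ * ‖c‖ ^ k ≤ ‖PowerSeries.coeff (n + k) f‖ * 1 ^ k := by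
          gcongr
      _ = (‖PowerSeries.coeff (n + k) f‖ * (1 * R ^ k)) * R⁻¹ ^ k := by
          rw [inv_pow, one_pow]
          field_simp
      _ ≤ (‖PowerSeries.coeff (n + k) f‖ * (R ^ n * R ^ k)) * R⁻¹ ^ k := by
          gcongr
          exact one_le_pow₀ hR.le
      _ ≤ M * R⁻¹ ^ k := by
          rw [← pow_add]
          gcongr
  refine ⟨PowerSeries.mk fun n => ∑' k, PowerSeries.coeff (n + 1 + k) f * c ^ k, ?_, ?_⟩
  · intro n
    rw [PowerSeries.coeff_mk, le_div_iff₀ hR0, mul_assoc, ← pow_succ]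
    have hpow : (0 : ℝ) < R ^ (n + 1) := by positivity
    rw [← le_div_iff₀ hpow]
    apply IsUltrametricDist.norm_tsum_le_of_forall_le_of_nonneg (by positivity)
    intro k
    rw [norm_mul, norm_pow, le_div_iff₀ hpow]
    calc ‖PowerSeries.coeff (n + 1 + k) f‖ * ‖c‖ ^ k * R ^ (n + 1)
        ≤ ‖PowerSeries.coeff (n + 1 + k) f‖ * R ^ k * R ^ (n + 1) := by
          gcongr
          linarith
      _ = ‖PowerSeries.coeff (n + 1 + k) f‖ * R ^ (n + 1 + k) := by rw [pow_add]; ring
      _ ≤ M := hf _
  · have key : ∀ n, (∑' k, PowerSeries.coeff (n + k) f * c ^ k) =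
        PowerSeries.coeff n f + c * ∑' k, PowerSeries.coeff (n + 1 + k) f * c ^ k := by
      intro n
      rw [(hs n).tsum_eq_zero_add, add_zero, pow_zero, mul_one, ← tsum_mul_left]
      congr 1
      apply tsum_congr
      intro k
      rw [show n + (k + 1) = n + 1 + k by ring, pow_succ]
      ring
    ext n
    rw [sub_mul, map_sub]
    rcases n with _ | n
    · rw [PowerSeries.coeff_zero_X_mul, PowerSeries.coeff_C_mul, PowerSeries.coeff_mk, zero_sub]
      have h1 := key 0
      have h2 : (∑' k, PowerSeries.coeff (0 + k) f * c ^ k) = 0 := by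
        rw [← h0]
        unfold ev
        simp
      rw [h2] at h1
      linear_combination -h1
    · rw [PowerSeries.coeff_succ_X_mul, PowerSeries.coeff_C_mul, PowerSeries.coeff_mk,
        PowerSeries.coeff_mk]
      have h1 := key (n + 1)
      linear_combination -h1

omit [CompleteSpace E] in
/-- The derivative keeps the bound. -/
theorem Bd.deriv {R M : ℝ} {f : PowerSeries E} (hR : 1 ≤ R) (hf : Bd R M f) :
    Bd R M (PowerSeries.derivative E f) := by
  intro n
  rw [PowerSeries.coeff_derivative, norm_mul]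
  have h1 : ‖((n : E) + 1)‖ ≤ 1 := by
    have := IsUltrametricDist.norm_natCast_le_one E (n + 1)
    push_cast at this
    exact this
  calc ‖PowerSeries.coeff (n + 1) f‖ * ‖(n : E) + 1‖ * R ^ n
      ≤ ‖PowerSeries.coeff (n + 1) f‖ * 1 * R ^ n := by gcongr
    _ ≤ ‖PowerSeries.coeff (n + 1) f‖ * 1 * R ^ (n + 1) := by
        gcongr
        omega
    _ ≤ M := by rw [mul_one]; exact hf _

omit [CompleteSpace E] in
theorem Bd.deriv_iter {R M : ℝ} {f : PowerSeries E} (hR : 1 ≤ R) (hf : Bd R M f) (j : ℕ) :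
    Bd R M ((fun g => PowerSeries.derivative E g)^[j] f) := by
  induction j with
  | zero => exact hf
  | succ j ih =>
    rw [Function.iterate_succ_apply']
    exact ih.deriv hR

omit [CompleteSpace E] [IsUltrametricDist E] in
theorem deriv_iter_mul (c : E) (g : PowerSeries E) (j : ℕ) :
    (fun g => PowerSeries.derivative E g)^[j] ((PowerSeries.X - PowerSeries.C c) * g) =
      (PowerSeries.X - PowerSeries.C c) * (fun g => PowerSeries.derivative E g)^[j] g +
        PowerSeries.C (j : E) * (fun g => PowerSeries.derivative E g)^[j - 1] g := by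
  induction j with
  | zero => simp
  | succ j ih =>
    rw [Function.iterate_succ_apply', ih]
    simp only [map_add, Derivation.leibniz, smul_eq_mul, map_sub, PowerSeries.derivative_C,
      sub_zero, mul_zero, add_zero]
    rw [Function.iterate_succ_apply', Nat.add_sub_cancel]
    have hX : PowerSeries.derivative E (PowerSeries.X : PowerSeries E) = 1 := by
      simp
    rw [hX]
    rcases j with _ | j
    · simp
    · rw [Nat.add_sub_cancel]
      have h1 : (fun g => PowerSeries.derivative E g)^[j + 1] g =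
          PowerSeries.derivative E ((fun g => PowerSeries.derivative E g)^[j] g) :=
        Function.iterate_succ_apply' _ _ _
      rw [← h1]
      push_cast
      simp only [map_add, map_one]
      ring

/-- A `p`-adic Schwarz lemma. -/
theorem schwarz [CharZero E] {R : ℝ} (hR : 1 < R) (Z : Finset E) (hZ : ∀ c ∈ Z, ‖c‖ ≤ 1) {w : E}
    (hw : ‖w‖ ≤ 1) (N : ℕ) : ∀ (M : ℝ) (f : PowerSeries E) (μ : E → ℕ), Bd R M f →
      ∑ c ∈ Z, μ c = N →
      (∀ c ∈ Z, ∀ j < μ c, ev c ((fun g => PowerSeries.derivative E g)^[j] f) = 0) →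
      ‖ev w f‖ * R ^ N ≤ M := by
  classical
  have hR0 : 0 < R := by linarith
  induction N with
  | zero =>
    intro M f μ hf _ _
    rw [pow_zero, mul_one]
    exact norm_ev_le hR hf hw
  | succ N ih =>
    intro M f μ hf hμ hv
    obtain ⟨c, hc, hc0⟩ : ∃ c ∈ Z, μ c ≠ 0 := by
      by_contra hcon
      push Not at hcon
      rw [Finset.sum_eq_zero hcon] at hμ
      omega
    obtain ⟨g, hg, hfg⟩ := exists_div hR hf (hZ c hc) (by
      have := hv c hc 0 (by omega)
      simpa using this)
    have hXC : Bd R R (PowerSeries.X - PowerSeries.C c : PowerSeries E) := by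
      rw [sub_eq_add_neg, ← map_neg]
      refine (Bd.X hR0.le).add hR0.le ((Bd.C (-c)).mono ?_)
      rw [norm_neg]
      exact (hZ c hc).trans hR.le
    have hevXC : ∀ v : E, ‖v‖ ≤ 1 → ev v (PowerSeries.X - PowerSeries.C c : PowerSeries E) = v - c := by
      intro v hv
      rw [sub_eq_add_neg, ← map_neg, ev_add hR (Bd.X hR0.le) (Bd.C (-c)) hv, ev_X, ev_C,
        ← sub_eq_add_neg]
    -- the derivatives
    have hder : ∀ v : E, ‖v‖ ≤ 1 → ∀ j,
        ev v ((fun g => PowerSeries.derivative E g)^[j] f) =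
          (v - c) * ev v ((fun g => PowerSeries.derivative E g)^[j] g) +
          (j : E) * ev v ((fun g => PowerSeries.derivative E g)^[j - 1] g) := by
      intro v hv j
      have hbj := hg.deriv_iter hR.le j
      have hbj' := hg.deriv_iter hR.le (j - 1)
      have h1 := hXC.mul hR0.le hbj
      have h2 := (Bd.C (R := R) (j : E)).mul hR0.le hbj'
      rw [hfg, deriv_iter_mul, ev_add hR h1 h2 hv, ev_mul hR hXC hbj hv, hevXC v hv,
        ev_mul hR (Bd.C _) hbj' hv, ev_C]
    have hnew : ∀ v ∈ Z, ∀ j < Function.update μ c (μ c - 1) v,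
        ev v ((fun g => PowerSeries.derivative E g)^[j] g) = 0 := by
      intro v hvZ
      by_cases hvc : v = c
      · subst hvc
        intro j hj
        rw [Function.update_self] at hj
        have h1 := hv v hvZ (j + 1) (by omega)
        rw [hder v (hZ v hvZ), sub_self, zero_mul, zero_add, Nat.add_sub_cancel] at h1
        rcases mul_eq_zero.1 h1 with h2 | h2
        · exact absurd h2 (Nat.cast_ne_zero.2 (Nat.succ_ne_zero j))
        · exact h2
      · intro j
        induction j with
        | zero =>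
          intro hj
          rw [Function.update_of_ne hvc] at hj
          have h1 := hv v hvZ 0 hj
          rw [hder v (hZ v hvZ), Nat.cast_zero, zero_mul, add_zero] at h1
          exact (mul_eq_zero.1 h1).resolve_left (sub_ne_zero.2 hvc)
        | succ j ihj =>
          intro hj
          have h0 := ihj (by omega)
          rw [Function.update_of_ne hvc] at hj
          have h1 := hv v hvZ (j + 1) hj
          rw [hder v (hZ v hvZ), Nat.add_sub_cancel, h0, mul_zero, add_zero] at h1
          exact (mul_eq_zero.1 h1).resolve_left (sub_ne_zero.2 hvc)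
    have hsum : ∑ v ∈ Z, Function.update μ c (μ c - 1) v = N := by
      rw [Finset.sum_update_of_mem hc]
      rw [← Finset.add_sum_erase _ _ hc] at hμ
      rw [Finset.sdiff_singleton_eq_erase]
      omega
    have h3 := ih (M / R) g _ hg hsum hnew
    have h4 : ev w f = (w - c) * ev w g := by
      have := hder w hw 0
      simpa using this
    have h5 : ‖w - c‖ ≤ 1 := by
      rw [sub_eq_add_neg]
      refine (IsUltrametricDist.norm_add_le_max w (-c)).trans (max_le hw ?_)
      rw [norm_neg]
      exact hZ c hc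
    rw [h4, norm_mul, pow_succ]
    rw [le_div_iff₀ hR0] at h3
    calc ‖w - c‖ * ‖ev w g‖ * (R ^ N * R) ≤ 1 * ‖ev w g‖ * (R ^ N * R) := by gcongr
      _ = ‖ev w g‖ * R ^ N * R := by ring
      _ ≤ M := h3

end Pool.Agent.W245.PB
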