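import Mathlib
import Pool.Agent.W245.PB.Ev

set_option autoImplicit false
set_option linter.unusedVariables false
set_option linter.unusedSectionVars false

/-!
# The `p`-adic exponential near `0`
-/

namespace Pool.Agent.W245.PB

open Finset

variable (p : ℕ) [hp : Fact p.Prime] {E : Type*} [NormedField E] [CompleteSpace E]
  [IsUltrametricDist E] [NormedAlgebra ℚ_[p] E] [CharZero E]

omit [CompleteSpace E] [IsUltrametricDist E] [CharZero E] in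
theorem norm_p : ‖(p : E)‖ = (p : ℝ)⁻¹ := by
  rw [show (p : E) = algebraMap ℚ_[p] E (p : ℚ_[p]) by simp, norm_algebraMap', Padic.norm_p]

omit [CompleteSpace E] [IsUltrametricDist E] [CharZero E] in
theorem norm_factorial (n : ℕ) (hn : n ≠ 0) : 1 ≤ ‖(n.factorial : E)‖ * (p : ℝ) ^ (n - 1) := by
  have hp1 : 1 < p := hp.out.one_lt
  have hp0 : (0 : ℝ) < p := by exact_mod_cast hp.out.pos
  have h1 : ‖(n.factorial : E)‖ = ‖(n.factorial : ℚ_[p])‖ := by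
    rw [← norm_algebraMap' E (n.factorial : ℚ_[p]), map_natCast]
  rw [h1, Padic.norm_eq_zpow_neg_valuation (Nat.cast_ne_zero.2 n.factorial_ne_zero),
    Padic.valuation_natCast, zpow_neg, zpow_natCast]
  have h2 := sub_one_mul_padicValNat_factorial_lt_of_ne_zero (p := p) hn
  have h3 : padicValNat p n.factorial ≤ n - 1 := by
    have : padicValNat p n.factorial ≤ (p - 1) * padicValNat p n.factorial :=
      Nat.le_mul_of_pos_left _ (by omega)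
    omega
  rw [← div_eq_inv_mul, le_div_iff₀ (by positivity), one_mul]
  exact pow_le_pow_right₀ (by exact_mod_cast hp1.le) h3

omit [CompleteSpace E] [IsUltrametricDist E] [CharZero E] in
theorem norm_inv_factorial (n : ℕ) (hn : n ≠ 0) : ‖(n.factorial : E)‖⁻¹ ≤ (p : ℝ) ^ (n - 1) := by
  have h := norm_factorial p (E := E) n hn
  have hpos : 0 < ‖(n.factorial : E)‖ := by
    by_contra hcon
    have : ‖(n.factorial : E)‖ = 0 := le_antisymm (not_lt.1 hcon) (norm_nonneg _)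
    rw [this, zero_mul] at h
    linarith
  rw [inv_le_iff_one_le_mul₀ hpos, mul_comm]
  exact h

/-- The power series `exp (ψ X)`. -/
noncomputable def ex (ψ : E) : PowerSeries E := PowerSeries.rescale ψ (PowerSeries.exp E)

omit hp [CompleteSpace E] [IsUltrametricDist E] [NormedAlgebra ℚ_[p] E] in
theorem coeff_ex (ψ : E) (n : ℕ) : PowerSeries.coeff n (ex ψ) = ψ ^ n / n.factorial := by
  unfold ex
  rw [PowerSeries.coeff_rescale, PowerSeries.coeff_exp]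
  simp [div_eq_mul_inv]

omit hp [CompleteSpace E] [IsUltrametricDist E] [NormedAlgebra ℚ_[p] E] in
theorem deriv_ex (ψ : E) : PowerSeries.derivative E (ex ψ) = PowerSeries.C ψ * ex ψ := by
  ext n
  rw [PowerSeries.coeff_derivative, PowerSeries.coeff_C_mul, coeff_ex, coeff_ex,
    Nat.factorial_succ]
  have h1 : ((n : E) + 1) ≠ 0 := by exact_mod_cast Nat.succ_ne_zero n
  have h2 : (n.factorial : E) ≠ 0 := by exact_mod_cast n.factorial_ne_zero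
  push_cast
  field_simp
  ring

omit hp [CompleteSpace E] [IsUltrametricDist E] [NormedAlgebra ℚ_[p] E] in
theorem ex_add (a b : E) : ex (a + b) = ex a * ex b := by
  unfold ex
  rw [PowerSeries.exp_mul_exp_eq_exp_add]

omit [CompleteSpace E] [IsUltrametricDist E] in
theorem bd_ex {ψ : E} (hψ : ‖ψ‖ * (p : ℝ) ^ 3 ≤ 1) : Bd 4 1 (ex ψ) := by
  have hp2 : (2 : ℝ) ≤ p := by exact_mod_cast hp.out.two_le
  intro n
  rw [coeff_ex, norm_div, norm_pow, div_eq_mul_inv]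
  rcases Nat.eq_zero_or_pos n with h0 | h0
  · subst h0; simp
  · have h1 := norm_inv_factorial p (E := E) n (by omega)
    calc ‖ψ‖ ^ n * ‖(n.factorial : E)‖⁻¹ * 4 ^ n ≤ ‖ψ‖ ^ n * (p : ℝ) ^ (n - 1) * ((p : ℝ) ^ 2) ^ n := by
          gcongr
          nlinarith
      _ ≤ ‖ψ‖ ^ n * (p : ℝ) ^ n * ((p : ℝ) ^ 2) ^ n := by
          gcongr
          · linarith
          · omega
      _ = (‖ψ‖ * (p : ℝ) ^ 3) ^ n := by
          rw [← mul_pow, ← mul_pow]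
          congr 1
          ring
      _ ≤ 1 := pow_le_one₀ (by positivity) hψ

/-- The `p`-adic exponential. -/
noncomputable def pe (ψ : E) : E := ev 1 (ex ψ)

omit hp [CompleteSpace E] [IsUltrametricDist E] [NormedAlgebra ℚ_[p] E] in
theorem ev_ex (w ψ : E) : ev w (ex ψ) = pe (w * ψ) := by
  unfold pe ev
  apply tsum_congr
  intro n
  rw [coeff_ex, coeff_ex, mul_pow]
  ring

theorem norm_sum_small {a b : E} (ha : ‖a‖ * (p : ℝ) ^ 3 ≤ 1) (hb : ‖b‖ * (p : ℝ) ^ 3 ≤ 1) :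
    ‖a + b‖ * (p : ℝ) ^ 3 ≤ 1 := by
  have h := IsUltrametricDist.norm_add_le_max a b
  calc ‖a + b‖ * (p : ℝ) ^ 3 ≤ max ‖a‖ ‖b‖ * (p : ℝ) ^ 3 := by gcongr
    _ ≤ 1 := by
      rcases max_choice ‖a‖ ‖b‖ with h | h <;> rw [h] <;> assumption

theorem norm_mul_small {a b : E} (ha : ‖a‖ ≤ 1) (hb : ‖b‖ * (p : ℝ) ^ 3 ≤ 1) :
    ‖a * b‖ * (p : ℝ) ^ 3 ≤ 1 := by
  rw [norm_mul, mul_assoc]
  exact mul_le_one₀ ha (by positivity) hb

theorem norm_fsum_small {ι : Type*} (s : Finset ι) (f : ι → E)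
    (hf : ∀ i ∈ s, ‖f i‖ * (p : ℝ) ^ 3 ≤ 1) : ‖∑ i ∈ s, f i‖ * (p : ℝ) ^ 3 ≤ 1 := by
  classical
  induction s using Finset.induction_on with
  | empty => simp
  | insert i s hi ih =>
    rw [Finset.sum_insert hi]
    exact norm_sum_small p (hf i (mem_insert_self _ _)) (ih fun j hj => hf j (mem_insert_of_mem hj))

theorem pe_zero : pe (0 : E) = 1 := by
  unfold pe ev
  rw [tsum_eq_single 0]
  · rw [coeff_ex]; simp
  · intro n hn
    rw [coeff_ex, zero_pow hn]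
    simp

theorem pe_add {a b : E} (ha : ‖a‖ * (p : ℝ) ^ 3 ≤ 1) (hb : ‖b‖ * (p : ℝ) ^ 3 ≤ 1) :
    pe (a + b) = pe a * pe b := by
  unfold pe
  rw [ex_add, ev_mul (by norm_num) (bd_ex p ha) (bd_ex p hb) (by simp)]

theorem pe_nat_mul {a : E} (ha : ‖a‖ * (p : ℝ) ^ 3 ≤ 1) (l : ℕ) : pe ((l : E) * a) = pe a ^ l := by
  induction l with
  | zero => simp [pe_zero]
  | succ l ih =>
    have hl : ‖(l : E) * a‖ * (p : ℝ) ^ 3 ≤ 1 :=
      norm_mul_small p (IsUltrametricDist.norm_natCast_le_one E l) ha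
    push_cast
    rw [add_mul, one_mul, pe_add p hl ha, ih, pow_succ]

theorem pe_sum {ι : Type*} (s : Finset ι) (f : ι → E) (hf : ∀ i ∈ s, ‖f i‖ * (p : ℝ) ^ 3 ≤ 1) :
    pe (∑ i ∈ s, f i) = ∏ i ∈ s, pe (f i) := by
  classical
  induction s using Finset.induction_on with
  | empty => simp [pe_zero]
  | insert i s hi ih =>
    rw [Finset.sum_insert hi, Finset.prod_insert hi, pe_add p (hf i (mem_insert_self _ _))
      (norm_fsum_small p s f fun j hj => hf j (mem_insert_of_mem hj)),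
      ih fun j hj => hf j (mem_insert_of_mem hj)]

theorem pe_approx {y : E} (hy : ‖y‖ * (p : ℝ) ^ 3 ≤ 1) : ‖pe y - 1 - y‖ ≤ p * ‖y‖ ^ 2 := by
  have hp2 : (2 : ℝ) ≤ p := by exact_mod_cast hp.out.two_le
  have hs := (bd_ex p hy).summable (by norm_num) (w := 1) (by simp)
  have h1 : pe y = 1 + (y + ∑' n, PowerSeries.coeff (n + 2) (ex y) * 1 ^ (n + 2)) := by
    unfold pe ev
    rw [hs.tsum_eq_zero_add, ((summable_nat_add_iff 1).2 hs).tsum_eq_zero_add]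
    congr 1
    · rw [coeff_ex]; simp
    · congr 1
      rw [coeff_ex]
      simp
  have h2 : pe y - 1 - y = ∑' n, PowerSeries.coeff (n + 2) (ex y) * 1 ^ (n + 2) := by
    rw [h1]; ring
  rw [h2]
  apply IsUltrametricDist.norm_tsum_le_of_forall_le_of_nonneg (by positivity)
  intro n
  rw [one_pow, mul_one, coeff_ex, norm_div, norm_pow, div_eq_mul_inv]
  have h3 := norm_inv_factorial p (E := E) (n + 2) (by omega)
  have h4 : ‖y‖ * p ≤ 1 := by
    refine le_trans ?_ hy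
    gcongr
    calc (p : ℝ) = (p : ℝ) ^ 1 := (pow_one _).symm
      _ ≤ (p : ℝ) ^ 3 := pow_le_pow_right₀ (by linarith) (by norm_num)
  calc ‖y‖ ^ (n + 2) * ‖((n + 2).factorial : E)‖⁻¹ ≤ ‖y‖ ^ (n + 2) * (p : ℝ) ^ (n + 2 - 1) := by
        gcongr
    _ = p * ‖y‖ ^ 2 * (‖y‖ * p) ^ n := by
        rw [show n + 2 - 1 = n + 1 by omega]
        ring
    _ ≤ p * ‖y‖ ^ 2 * 1 := by
        gcongr
        exact pow_le_one₀ (by positivity) h4
    _ = p * ‖y‖ ^ 2 := mul_one _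

theorem pe_small {y : E} (hy : ‖y‖ * (p : ℝ) ^ 3 ≤ 1) : p * ‖y‖ ^ 2 ≤ ‖y‖ := by
  have hp2 : (2 : ℝ) ≤ p := by exact_mod_cast hp.out.two_le
  have h4 : p * ‖y‖ ≤ 1 := by
    refine le_trans ?_ hy
    rw [mul_comm]
    gcongr
    calc (p : ℝ) = (p : ℝ) ^ 1 := (pow_one _).symm
      _ ≤ (p : ℝ) ^ 3 := pow_le_pow_right₀ (by linarith) (by norm_num)
  calc p * ‖y‖ ^ 2 = (p * ‖y‖) * ‖y‖ := by ring
    _ ≤ 1 * ‖y‖ := by gcongr
    _ = ‖y‖ := one_mul _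

theorem pe_small' {y : E} (hy : ‖y‖ * (p : ℝ) ^ 3 ≤ 1) : p * ‖y‖ ^ 2 ≤ ((p : ℝ) ^ 2)⁻¹ * ‖y‖ := by
  have hp2 : (2 : ℝ) ≤ p := by exact_mod_cast hp.out.two_le
  have hp0 : (0 : ℝ) < p := by linarith
  have h4 : p * ‖y‖ ≤ ((p : ℝ) ^ 2)⁻¹ := by
    rw [← one_div, le_div_iff₀ (by positivity)]
    calc p * ‖y‖ * (p : ℝ) ^ 2 = ‖y‖ * (p : ℝ) ^ 3 := by ring
      _ ≤ 1 := hy
  calc p * ‖y‖ ^ 2 = (p * ‖y‖) * ‖y‖ := by ring
    _ ≤ ((p : ℝ) ^ 2)⁻¹ * ‖y‖ := by gcongr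

theorem pe_eq_one {y : E} (hy : ‖y‖ * (p : ℝ) ^ 3 ≤ 1) (h : pe y = 1) : y = 0 := by
  have hp2 : (2 : ℝ) ≤ p := by exact_mod_cast hp.out.two_le
  have h1 := pe_approx p hy
  rw [h, sub_self, zero_sub, norm_neg] at h1
  have h2 := h1.trans (pe_small' p hy)
  by_contra hne
  have h3 : 0 < ‖y‖ := norm_pos_iff.2 hne
  have h4 : ((p : ℝ) ^ 2)⁻¹ < 1 := by
    apply inv_lt_one_of_one_lt₀
    nlinarith
  nlinarith

/-- distinct small arguments give distinct values -/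
theorem pe_injective {a b : E} (ha : ‖a‖ * (p : ℝ) ^ 3 ≤ 1) (hb : ‖b‖ * (p : ℝ) ^ 3 ≤ 1)
    (h : pe a = pe b) : a = b := by
  have hb' : ‖-b‖ * (p : ℝ) ^ 3 ≤ 1 := by rwa [norm_neg]
  have h1 : pe b * pe (-b) = 1 := by
    rw [← pe_add p hb hb', add_neg_cancel, pe_zero]
  have h2 : pe (a + -b) = 1 := by rw [pe_add p ha hb', h, h1]
  have h3 := pe_eq_one p (norm_sum_small p ha hb') h2
  rw [← sub_eq_add_neg] at h3
  exact sub_eq_zero.1 h3

theorem pe_ne_zero {a : E} (ha : ‖a‖ * (p : ℝ) ^ 3 ≤ 1) : pe a ≠ 0 := by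
  have ha' : ‖-a‖ * (p : ℝ) ^ 3 ≤ 1 := by rwa [norm_neg]
  intro h
  have h1 : pe a * pe (-a) = 1 := by
    rw [← pe_add p ha ha', add_neg_cancel, pe_zero]
  rw [h, zero_mul] at h1
  exact zero_ne_one h1

omit hp [CompleteSpace E] [NormedAlgebra ℚ_[p] E] [CharZero E] in
theorem binom_two (y : E) (hy : ‖y‖ ≤ 1) (N : ℕ) :
    ∃ s : E, ‖s‖ ≤ 1 ∧ (1 + y) ^ N = 1 + N * y + y ^ 2 * s := by
  induction N with
  | zero => exact ⟨0, by simp, by simp⟩
  | succ N ih =>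
    obtain ⟨s, hs, h⟩ := ih
    refine ⟨N + s + y * s, ?_, ?_⟩
    · refine (IsUltrametricDist.norm_add_le_max _ _).trans (max_le ?_ ?_)
      · exact (IsUltrametricDist.norm_add_le_max _ _).trans
          (max_le (IsUltrametricDist.norm_natCast_le_one E N) hs)
      · rw [norm_mul]
        exact mul_le_one₀ hy (norm_nonneg _) hs
    · rw [pow_succ, h]
      push_cast
      ring

omit [CompleteSpace E] [CharZero E] in
theorem norm_pow_p {y : E} (hy : ‖y‖ * (p : ℝ) ^ 3 ≤ 1) :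
    ‖(1 + y) ^ p - 1‖ = ‖y‖ * (p : ℝ)⁻¹ := by
  have hp2 : (2 : ℝ) ≤ p := by exact_mod_cast hp.out.two_le
  have hp0 : (0 : ℝ) < p := by linarith
  have hy1 : ‖y‖ ≤ 1 := by
    refine le_trans ?_ hy
    calc ‖y‖ = ‖y‖ * 1 := (mul_one _).symm
      _ ≤ ‖y‖ * (p : ℝ) ^ 3 := by gcongr; exact one_le_pow₀ (by linarith)
  obtain ⟨s, hs, h⟩ := binom_two y hy1 p
  rcases eq_or_ne y 0 with h0 | h0
  · subst h0; simp
  have hypos : 0 < ‖y‖ := norm_pos_iff.2 h0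
  have h1 : (1 + y) ^ p - 1 = p * y + y ^ 2 * s := by rw [h]; ring
  have h2 : ‖(p : E) * y‖ = ‖y‖ * (p : ℝ)⁻¹ := by rw [norm_mul, norm_p, mul_comm]
  have h3 : ‖y ^ 2 * s‖ < ‖(p : E) * y‖ := by
    rw [h2, norm_mul, norm_pow]
    have h4 : p * ‖y‖ < 1 := by
      have h5 : p * ‖y‖ * 4 ≤ 1 := by
        refine le_trans ?_ hy
        calc p * ‖y‖ * 4 ≤ p * ‖y‖ * (p : ℝ) ^ 2 := by
              gcongr
              nlinarith
          _ = ‖y‖ * (p : ℝ) ^ 3 := by ring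
      have : 0 < p * ‖y‖ := by positivity
      linarith
    calc ‖y‖ ^ 2 * ‖s‖ ≤ ‖y‖ ^ 2 * 1 := by gcongr
      _ = ‖y‖ * (p * ‖y‖) * (p : ℝ)⁻¹ := by field_simp
      _ < ‖y‖ * 1 * (p : ℝ)⁻¹ := by gcongr
      _ = ‖y‖ * (p : ℝ)⁻¹ := by ring
  rw [h1, IsUltrametricDist.norm_add_eq_max_of_norm_ne_norm h3.ne', max_eq_left h3.le, h2]

omit [CompleteSpace E] [CharZero E] in
theorem norm_pow_p_iter {u : E} (hu : ‖u - 1‖ * (p : ℝ) ^ 3 ≤ 1) (n : ℕ) :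
    ‖u ^ (p ^ n) - 1‖ = ‖u - 1‖ * (p : ℝ)⁻¹ ^ n := by
  have hp2 : (2 : ℝ) ≤ p := by exact_mod_cast hp.out.two_le
  have hpi : (p : ℝ)⁻¹ ≤ 1 := inv_le_one_of_one_le₀ (by linarith)
  induction n with
  | zero => simp
  | succ n ih =>
    have h1 : ‖u ^ (p ^ n) - 1‖ * (p : ℝ) ^ 3 ≤ 1 := by
      rw [ih]
      calc ‖u - 1‖ * (p : ℝ)⁻¹ ^ n * (p : ℝ) ^ 3 ≤ ‖u - 1‖ * 1 * (p : ℝ) ^ 3 := by
            gcongr
            exact pow_le_one₀ (by positivity) hpi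
        _ ≤ 1 := by rw [mul_one]; exact hu
    have h2 := norm_pow_p p h1
    rw [show 1 + (u ^ (p ^ n) - 1) = u ^ (p ^ n) by ring, ← pow_mul, ← pow_succ, ih] at h2
    rw [h2, pow_succ]
    ring

/-- The exponential of the logarithm. -/
theorem pe_log {u l : E} (hu : ‖u - 1‖ * (p : ℝ) ^ 3 ≤ 1)
    (hl : ∀ n : ℕ, ‖(p : E) ^ n * l - (u ^ (p ^ n) - 1)‖ ≤ p * ‖u ^ (p ^ n) - 1‖ ^ 2) :
    pe l = u := by
  have hp2 : (2 : ℝ) ≤ p := by exact_mod_cast hp.out.two_le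
  have hp0 : (0 : ℝ) < p := by linarith
  have hpi : (p : ℝ)⁻¹ ≤ 1 := inv_le_one_of_one_le₀ (by linarith)
  -- the elements z_n
  have hz : ∀ n : ℕ, ‖u ^ (p ^ n) - 1‖ * (p : ℝ) ^ 3 ≤ 1 := by
    intro n
    rw [norm_pow_p_iter p hu]
    calc ‖u - 1‖ * (p : ℝ)⁻¹ ^ n * (p : ℝ) ^ 3 ≤ ‖u - 1‖ * 1 * (p : ℝ) ^ 3 := by
          gcongr
          exact pow_le_one₀ (by positivity) hpi
      _ ≤ 1 := by rw [mul_one]; exact hu
  have hl1 : ∀ n : ℕ, ‖(p : E) ^ n * l‖ ≤ ‖u ^ (p ^ n) - 1‖ := by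
    intro n
    have h1 : (p : E) ^ n * l = ((p : E) ^ n * l - (u ^ (p ^ n) - 1)) + (u ^ (p ^ n) - 1) := by ring
    rw [h1]
    exact (IsUltrametricDist.norm_add_le_max _ _).trans
      (max_le ((hl n).trans (pe_small p (hz n))) le_rfl)
  have hl2 : ∀ n : ℕ, ‖(p : E) ^ n * l‖ * (p : ℝ) ^ 3 ≤ 1 := fun n =>
    le_trans (by gcongr; exact hl1 n) (hz n)
  have hl0 : ‖l‖ * (p : ℝ) ^ 3 ≤ 1 := by simpa using hl2 0
  -- comparison
  have h3 : ∀ n : ℕ, ‖pe l ^ (p ^ n) - u ^ (p ^ n)‖ ≤ p * ‖u ^ (p ^ n) - 1‖ ^ 2 := by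
    intro n
    have h4 : pe l ^ (p ^ n) = pe ((p : E) ^ n * l) := by
      rw [← pe_nat_mul p hl0]
      push_cast
      rfl
    have h5 := pe_approx p (hl2 n)
    have h6 : pe l ^ (p ^ n) - u ^ (p ^ n) = (pe ((p : E) ^ n * l) - 1 - (p : E) ^ n * l) +
        ((p : E) ^ n * l - (u ^ (p ^ n) - 1)) := by rw [h4]; ring
    rw [h6]
    refine (IsUltrametricDist.norm_add_le_max _ _).trans (max_le (h5.trans ?_) (hl n))
    gcongr
    exact hl1 n
  have hu1 : ‖u‖ = 1 := by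
    have h7 : ‖u - 1‖ < ‖(1 : E)‖ := by
      rw [norm_one]
      have : ‖u - 1‖ * 8 ≤ 1 := by
        refine le_trans ?_ hu
        gcongr
        calc (8 : ℝ) = 2 ^ 3 := by norm_num
          _ ≤ (p : ℝ) ^ 3 := by gcongr
      have := norm_nonneg (u - 1)
      by_contra hcon
      push Not at hcon
      linarith
    have h8 := IsUltrametricDist.norm_add_eq_max_of_norm_ne_norm h7.ne
    rw [sub_add_cancel, max_eq_right h7.le, norm_one] at h8
    exact h8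
  have hu0 : u ≠ 0 := by
    intro h
    rw [h, norm_zero] at hu1
    exact zero_ne_one hu1
  -- the quotient
  have h9 : ∀ n : ℕ, ‖(pe l / u) ^ (p ^ n) - 1‖ ≤ p * ‖u ^ (p ^ n) - 1‖ ^ 2 := by
    intro n
    have h10 : (pe l / u) ^ (p ^ n) - 1 = (pe l ^ (p ^ n) - u ^ (p ^ n)) / u ^ (p ^ n) := by
      rw [div_pow, sub_div, div_self (pow_ne_zero _ hu0)]
    rw [h10, norm_div, norm_pow, hu1, one_pow, div_one]
    exact h3 n
  have h11 : ‖pe l / u - 1‖ * (p : ℝ) ^ 3 ≤ 1 := by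
    have h12 := h9 0
    rw [pow_zero, pow_one, pow_one] at h12
    exact le_trans (by gcongr; exact h12.trans (pe_small p hu)) hu
  have h13 : ∀ n : ℕ, ‖pe l / u - 1‖ ≤ p * ‖u - 1‖ ^ 2 * (p : ℝ)⁻¹ ^ n := by
    intro n
    have h14 := h9 n
    rw [norm_pow_p_iter p h11, norm_pow_p_iter p hu] at h14
    have hpn : 0 < (p : ℝ)⁻¹ ^ n := by positivity
    refine le_of_mul_le_mul_right (h14.trans (le_of_eq ?_)) hpn
    ring
  have h15 : ‖pe l / u - 1‖ ≤ 0 := by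
    have hlim : Filter.Tendsto (fun n : ℕ => p * ‖u - 1‖ ^ 2 * (p : ℝ)⁻¹ ^ n) Filter.atTop
        (nhds (p * ‖u - 1‖ ^ 2 * 0)) :=
      (tendsto_pow_atTop_nhds_zero_of_lt_one (by positivity)
        (inv_lt_one_of_one_lt₀ (by linarith))).const_mul _
    rw [mul_zero] at hlim
    exact ge_of_tendsto' hlim h13
  have h16 : pe l / u = 1 := by
    have := norm_le_zero_iff.1 h15
    exact sub_eq_zero.1 this
  rwa [div_eq_one_iff_eq hu0] at h16

end Pool.Agent.W245.PB
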