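import Mathlib
import Pool.Agent.W245.PB.PE
import Pool.Agent.H297R2.InAux
import Pool.Agent.NearOne652.PadicG

set_option autoImplicit false
set_option linter.unusedVariables false
set_option linter.unusedSectionVars false

/-!
# The extrapolation step, `p`-adic version
-/

namespace Pool.Agent.W245.PB

open Finset NumberField Pool.Agent.H297R2

variable (p : ℕ) [hp : Fact p.Prime] {E : Type*} [NormedField E] [CompleteSpace E]
  [IsUltrametricDist E] [NormedAlgebra ℚ_[p] E] [CharZero E]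

section wt

omit hp [CompleteSpace E] [IsUltrametricDist E] [NormedAlgebra ℚ_[p] E] [CharZero E] in
theorem wt_deriv (g : E) (j : ℕ) : ∀ μ : ℕ,
    PowerSeries.derivative E (wt μ j (PowerSeries.C g) PowerSeries.X) =
      (μ : PowerSeries E) * wt (μ - 1) j (PowerSeries.C g) PowerSeries.X := by
  induction j with
  | zero =>
    intro μ
    simp only [wt_zero]
    rcases μ with _ | μ
    · simp
    · rw [Derivation.leibniz_pow]
      simp
  | succ j ih =>
    intro μ
    rw [wt_succ, wt_succ, map_add, Derivation.leibniz, Derivation.leibniz, ih, ih]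
    simp only [smul_eq_mul, PowerSeries.derivative_C, mul_zero, add_zero]
    have h1 : PowerSeries.derivative E (μ : PowerSeries E) = 0 := by
      rw [show ((μ : ℕ) : PowerSeries E) = PowerSeries.C (μ : E) by simp]
      exact PowerSeries.derivative_C
    rw [h1]
    ring

omit hp [CompleteSpace E] [NormedAlgebra ℚ_[p] E] [CharZero E] in
theorem bd_wt (g : E) (hg : ‖g‖ ≤ 1) (j : ℕ) : ∀ μ : ℕ,
    Bd 4 (4 ^ μ) (wt μ j (PowerSeries.C g) PowerSeries.X : PowerSeries E) := by
  induction j with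
  | zero =>
    intro μ
    simp only [wt_zero]
    induction μ with
    | zero =>
      have h := Bd.C (R := 4) (1 : E)
      rw [map_one, norm_one] at h
      simpa using h
    | succ μ ih =>
      rw [pow_succ, pow_succ]
      exact ih.mul (by norm_num) (Bd.X (by norm_num))
  | succ j ih =>
    intro μ
    rw [wt_succ]
    apply Bd.add (by norm_num)
    · rw [show ((μ : ℕ) : PowerSeries E) = PowerSeries.C (μ : E) by simp]
      refine ((Bd.C (μ : E)).mul (by norm_num) (ih (μ - 1))).mono ?_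
      calc ‖(μ : E)‖ * (4 : ℝ) ^ (μ - 1) ≤ 1 * 4 ^ μ := by
            gcongr
            · exact IsUltrametricDist.norm_natCast_le_one E μ
            · norm_num
            · omega
        _ = 4 ^ μ := one_mul _
    · refine ((Bd.C g).mul (by norm_num) (ih μ)).mono ?_
      calc ‖g‖ * (4 : ℝ) ^ μ ≤ 1 * 4 ^ μ := by gcongr
        _ = 4 ^ μ := one_mul _

omit hp [NormedAlgebra ℚ_[p] E] [CharZero E] in
theorem ev_wt (g w : E) (hg : ‖g‖ ≤ 1) (hw : ‖w‖ ≤ 1) (j : ℕ) : ∀ μ : ℕ,
    ev w (wt μ j (PowerSeries.C g) PowerSeries.X : PowerSeries E) = wt μ j g w := by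
  induction j with
  | zero =>
    intro μ
    simp only [wt_zero]
    induction μ with
    | zero =>
      have := ev_C w (1 : E)
      rw [map_one] at this
      simpa using this
    | succ μ ih =>
      have h := bd_wt g hg 0 μ
      rw [wt_zero] at h
      rw [pow_succ, pow_succ, ev_mul (by norm_num) h (Bd.X (by norm_num)) hw, ih, ev_X]
  | succ j ih =>
    intro μ
    rw [wt_succ, wt_succ]
    have h1 := bd_wt g hg j (μ - 1)
    have h2 := bd_wt g hg j μ
    have h3 : Bd 4 _ (PowerSeries.C (μ : E) * wt (μ - 1) j (PowerSeries.C g) PowerSeries.X) :=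
      (Bd.C (μ : E)).mul (by norm_num) h1
    have h4 : Bd 4 _ (PowerSeries.C g * wt μ j (PowerSeries.C g) PowerSeries.X) :=
      (Bd.C g).mul (by norm_num) h2
    rw [show ((μ : ℕ) : PowerSeries E) = PowerSeries.C (μ : E) by simp,
      ev_add (by norm_num) h3 h4 hw, ev_mul (by norm_num) (Bd.C _) h1 hw,
      ev_mul (by norm_num) (Bd.C _) h2 hw, ev_C, ev_C, ih, ih]

end wt

section aux

variable {Λ ι : Type*} [Fintype Λ] [Fintype ι] [DecidableEq ι]

/-- The auxiliary functions. -/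
noncomputable def auxS (P : Λ → E) (μ : Λ → ℕ) (γ : Λ → Option ι → E) (ψ : Λ → E)
    (m : Option ι → ℕ) : PowerSeries E :=
  ∑ x, PowerSeries.C (P x * ∏ i, γ x (some i) ^ m (some i)) *
    wt (μ x) (m none) (PowerSeries.C (γ x none)) PowerSeries.X * ex (ψ x)

omit hp [CompleteSpace E] [IsUltrametricDist E] [NormedAlgebra ℚ_[p] E] in
theorem auxS_deriv (P : Λ → E) (μ : Λ → ℕ) (γ : Λ → Option ι → E) (ψ : Λ → E)
    (η : Option ι → E) (hη : η none = 1) (hψ : ∀ x, ψ x = ∑ k, γ x k * η k)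
    (m : Option ι → ℕ) :
    PowerSeries.derivative E (auxS P μ γ ψ m) =
      ∑ k, PowerSeries.C (η k) * auxS P μ γ ψ (m + Pi.single k 1) := by
  unfold auxS
  rw [map_sum]
  simp only [Finset.mul_sum]
  rw [Finset.sum_comm]
  apply Finset.sum_congr rfl
  intro x _
  rw [Fintype.sum_option]
  have e1 : (m + Pi.single none 1 : Option ι → ℕ) none = m none + 1 := by simp
  have e2 : ∀ i, (m + Pi.single none 1 : Option ι → ℕ) (some i) = m (some i) := by intro i; simp
  have e3 : ∀ i, (m + Pi.single (some i) 1 : Option ι → ℕ) none = m none := by intro i; simp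
  have e4 : ∀ i, ∏ j, γ x (some j) ^ (m + Pi.single (some i) 1 : Option ι → ℕ) (some j) =
      (∏ j, γ x (some j) ^ m (some j)) * γ x (some i) := by
    intro i
    simp only [Pi.add_apply, pow_add, Finset.prod_mul_distrib]
    congr 1
    rw [Finset.prod_eq_single i]
    · simp
    · intro b _ hb
      rw [Pi.single_eq_of_ne (by simpa using hb), pow_zero]
    · simp
  rw [e1]
  simp only [e2, e3, e4]
  rw [wt_succ, hη, Derivation.leibniz, Derivation.leibniz, wt_deriv, deriv_ex,
    PowerSeries.derivative_C, smul_eq_mul, smul_eq_mul, smul_zero, add_zero, smul_eq_mul]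
  have hC : (PowerSeries.C (ψ x) : PowerSeries E) = PowerSeries.C (γ x none) +
      ∑ i, PowerSeries.C (γ x (some i)) * PowerSeries.C (η (some i)) := by
    rw [hψ x, Fintype.sum_option, hη, mul_one, map_add, map_sum]
    congr 1
    apply Finset.sum_congr rfl
    intro i _
    rw [map_mul]
  rw [hC, map_one, one_mul]
  simp only [map_mul, add_mul, Finset.sum_mul, mul_add, Finset.mul_sum]
  have hre : ∀ i, PowerSeries.C (η (some i)) * (PowerSeries.C (P x) *
      (PowerSeries.C (∏ j, γ x (some j) ^ m (some j)) * PowerSeries.C (γ x (some i))) *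
      wt (μ x) (m none) (PowerSeries.C (γ x none)) PowerSeries.X * ex (ψ x)) =
      PowerSeries.C (P x) * PowerSeries.C (∏ j, γ x (some j) ^ m (some j)) *
      wt (μ x) (m none) (PowerSeries.C (γ x none)) PowerSeries.X *
      (PowerSeries.C (γ x (some i)) * PowerSeries.C (η (some i)) * ex (ψ x)) := by
    intro i; ring
  simp only [hre]
  ring

omit [CompleteSpace E] in
theorem bd_auxS (P : Λ → E) (μ : Λ → ℕ) (γ : Λ → Option ι → E) (ψ : Λ → E) (L : ℕ)
    (hμ : ∀ x, μ x ≤ L) (hP : ∀ x, ‖P x‖ ≤ 1) (hγ : ∀ x k, ‖γ x k‖ ≤ 1)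
    (hψ : ∀ x, ‖ψ x‖ * (p : ℝ) ^ 3 ≤ 1) (m : Option ι → ℕ) :
    Bd 4 (4 ^ L) (auxS P μ γ ψ m) := by
  unfold auxS
  apply Bd.sum _ _ (by norm_num) (by positivity)
  intro x _
  have h1 : ‖P x * ∏ i, γ x (some i) ^ m (some i)‖ ≤ 1 := by
    rw [norm_mul, norm_prod]
    refine mul_le_one₀ (hP x) (by positivity) ?_
    apply Finset.prod_le_one
    · intro i _; positivity
    · intro i _
      rw [norm_pow]
      exact pow_le_one₀ (norm_nonneg _) (hγ x _)
  refine ((((Bd.C _).mono h1).mul (by norm_num) (bd_wt (γ x none) (hγ x none) (m none) (μ x))).mul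
    (by norm_num) (bd_ex p (hψ x))).mono ?_
  rw [one_mul, mul_one]
  exact pow_le_pow_right₀ (by norm_num) (hμ x)

theorem ev_auxS (P : Λ → E) (μ : Λ → ℕ) (γ : Λ → Option ι → E) (ψ : Λ → E)
    (hP : ∀ x, ‖P x‖ ≤ 1) (hγ : ∀ x k, ‖γ x k‖ ≤ 1)
    (hψ : ∀ x, ‖ψ x‖ * (p : ℝ) ^ 3 ≤ 1) (m : Option ι → ℕ) (l : ℕ) :
    ev (l : E) (auxS P μ γ ψ m) = ∑ x, P x * (∏ i, γ x (some i) ^ m (some i)) *
      wt (μ x) (m none) (γ x none) (l : E) * pe (ψ x) ^ l := by
  have hl : ‖(l : E)‖ ≤ 1 := IsUltrametricDist.norm_natCast_le_one E l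
  have h1 : ∀ x, ‖P x * ∏ i, γ x (some i) ^ m (some i)‖ ≤ 1 := by
    intro x
    rw [norm_mul, norm_prod]
    refine mul_le_one₀ (hP x) (by positivity) ?_
    apply Finset.prod_le_one
    · intro i _; positivity
    · intro i _
      rw [norm_pow]
      exact pow_le_one₀ (norm_nonneg _) (hγ x _)
  have hb1 : ∀ x, Bd 4 (1 * 4 ^ (μ x)) (PowerSeries.C (P x * ∏ i, γ x (some i) ^ m (some i)) *
      wt (μ x) (m none) (PowerSeries.C (γ x none)) PowerSeries.X) := fun x =>
    ((Bd.C _).mono (h1 x)).mul (by norm_num) (bd_wt (γ x none) (hγ x none) (m none) (μ x))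
  have hb2 : ∀ x, Bd 4 (1 * 4 ^ (μ x) * 1) (PowerSeries.C (P x * ∏ i, γ x (some i) ^ m (some i)) *
      wt (μ x) (m none) (PowerSeries.C (γ x none)) PowerSeries.X * ex (ψ x)) := fun x =>
    (hb1 x).mul (by norm_num) (bd_ex p (hψ x))
  unfold auxS
  rw [ev_sum (M := 4 ^ (∑ x, μ x)) univ _ (by norm_num) (by positivity) (fun x _ => (hb2 x).mono (by
    rw [one_mul, mul_one]
    apply pow_le_pow_right₀ (by norm_num)
    exact Finset.single_le_sum (f := μ) (fun i _ => Nat.zero_le _) (mem_univ x))) hl]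
  apply Finset.sum_congr rfl
  intro x _
  rw [ev_mul (by norm_num) (hb1 x) (bd_ex p (hψ x)) hl, ev_mul (by norm_num) (Bd.C _)
    (bd_wt (γ x none) (hγ x none) (m none) (μ x)) hl, ev_C, ev_wt _ _ (hγ x none) hl, ev_ex,
    pe_nat_mul p (hψ x)]

variable {K : Type*} [Field K] [NumberField K]

include hp in
theorem norm_int_le_one (σ : K →+* E) (x : 𝓞 K) : ‖σ (x : K)‖ ≤ 1 := by
  apply Pool.Agent.NearOne652.G.norm_le_one_of_isIntegral p
  obtain ⟨P, hP, hPx⟩ := x.2
  refine ⟨P, hP, ?_⟩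
  have h1 : Polynomial.eval₂ (algebraMap ℤ E) (σ (x : K)) P =
      σ (Polynomial.eval₂ (algebraMap ℤ K) (x : K) P) := by
    rw [Polynomial.hom_eval₂]
    congr 1
    exact RingHom.ext_int _ _
  exact h1.trans ((congrArg σ hPx).trans (map_zero σ))

theorem map_auxGP (σ : K →+* E) (P : Λ → 𝓞 K) (μ : Λ → ℕ) (γ : Λ → Option ι → 𝓞 K)
    (A : Λ → 𝓞 K) (ψ : Λ → E) (hψ : ∀ x, ‖ψ x‖ * (p : ℝ) ^ 3 ≤ 1) (e₀ : E)
    (hA : ∀ x, σ (A x : K) = e₀ * pe (ψ x)) (m : Option ι → ℕ) (l : ℕ) :
    σ (auxG P μ γ A m l : K) = e₀ ^ l *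
      ev (l : E) (auxS (fun x => σ (P x : K)) μ (fun x k => σ (γ x k : K)) ψ m) := by
  rw [ev_auxS p _ _ _ _ (fun x => norm_int_le_one p σ _) (fun x k => norm_int_le_one p σ _) hψ]
  unfold auxG
  rw [Finset.mul_sum]
  have hs : σ ((∑ x, P x * (∏ i, γ x (some i) ^ m (some i)) *
      wt (μ x) (m none) (γ x none) (l : 𝓞 K) * A x ^ l : 𝓞 K) : K) =
      ∑ x, σ (P x : K) * (∏ i, σ (γ x (some i) : K) ^ m (some i)) *
        wt (μ x) (m none) (σ (γ x none : K)) (l : E) * σ (A x : K) ^ l := by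
    set τ : 𝓞 K →+* E := σ.comp (algebraMap (𝓞 K) K) with hτ
    have : ∀ y : 𝓞 K, σ (y : K) = τ y := fun y => rfl
    simp only [this]
    simp only [map_sum, map_mul, map_prod, map_pow, map_wt, map_natCast]
  rw [hs]
  apply Finset.sum_congr rfl
  intro x _
  rw [hA, mul_pow]
  ring

end aux

/-- vanishing of iterated derivatives in a family closed under differentiation -/
theorem family_deriv {κ : Type*} [Fintype κ] [DecidableEq κ] (η : κ → E)
    (f : (κ → ℕ) → PowerSeries E) (M : ℝ) (hB : ∀ m, Bd 4 M (f m))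
    (hf : ∀ m, PowerSeries.derivative E (f m) =
      ∑ k, PowerSeries.C (η k) * f (m + Pi.single k 1))
    (S : ℕ) (w : E) (hw : ‖w‖ ≤ 1) (hvan : ∀ m : κ → ℕ, ∑ k, m k ≤ S → ev w (f m) = 0) (j : ℕ) :
    ∀ m : κ → ℕ, ∑ k, m k + j ≤ S →
      ev w ((fun g => PowerSeries.derivative E g)^[j] (f m)) = 0 := by
  -- iterates are linear
  have hlin : ∀ (j : ℕ) (s : Finset κ) (c : κ → E) (g : κ → PowerSeries E),
      (fun g => PowerSeries.derivative E g)^[j] (∑ k ∈ s, PowerSeries.C (c k) * g k) =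
        ∑ k ∈ s, PowerSeries.C (c k) * (fun g => PowerSeries.derivative E g)^[j] (g k) := by
    intro j s c g
    induction j with
    | zero => simp
    | succ j ih =>
      rw [Function.iterate_succ_apply', ih, map_sum]
      apply Finset.sum_congr rfl
      intro k _
      rw [Derivation.leibniz, PowerSeries.derivative_C, smul_zero, add_zero, smul_eq_mul,
        Function.iterate_succ_apply']
  induction j with
  | zero => intro m hm; simpa using hvan m (by omega)
  | succ j ih =>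
    intro m hm
    rw [Function.iterate_succ_apply]
    simp only [hf m]
    rw [hlin]
    have hM : 0 ≤ M := (hB m).nonneg (by norm_num)
    have hb : ∀ k ∈ univ, Bd 4 ((∑ k, ‖η k‖) * M) (PowerSeries.C (η k) *
        (fun g => PowerSeries.derivative E g)^[j] (f (m + Pi.single k 1))) := by
      intro k _
      refine ((Bd.C (η k)).mono ?_).mul (by norm_num) ((hB _).deriv_iter (by norm_num) j)
      exact Finset.single_le_sum (f := fun k => ‖η k‖) (fun i _ => norm_nonneg _) (mem_univ k)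
    rw [ev_sum univ _ (by norm_num) (mul_nonneg (Finset.sum_nonneg fun i _ => norm_nonneg _) hM)
      hb hw]
    apply Finset.sum_eq_zero
    intro k _
    rw [ev_mul (by norm_num) (Bd.C _) ((hB _).deriv_iter (by norm_num) j) hw,
      ih (m + Pi.single k 1) (by
        have : ∑ i, (m + Pi.single k 1 : κ → ℕ) i = ∑ i, m i + 1 := by
          simp [Pi.add_apply, Finset.sum_add_distrib]
        rw [this]; omega), mul_zero]

include hp in
/-- Abstract extrapolation step. -/
theorem abs_stepP {K : Type*} [Field K] [NumberField K] (σ : K →+* E) {κ : Type*} [Fintype κ]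
    [DecidableEq κ] (η : κ → E) (f : (κ → ℕ) → PowerSeries E) (L : ℕ)
    (hB : ∀ m, Bd 4 (4 ^ L) (f m))
    (hf : ∀ m, PowerSeries.derivative E (f m) =
      ∑ k, PowerSeries.C (η k) * f (m + Pi.single k 1))
    (Q : (κ → ℕ) → ℕ → 𝓞 K) (e₀ : E) (he0 : e₀ ≠ 0) (he1 : ‖e₀‖ ≤ 1)
    (hQ : ∀ m (l : ℕ), σ (Q m l : K) = e₀ ^ l * ev (l : E) (f m)) (X : ℝ)
    (S1 S2 h h' : ℕ) (hh : h ≤ h')
    (hX : ∀ m : κ → ℕ, ∑ k, m k ≤ S1 → ∀ l ∈ Icc 1 h', house (Q m l : K) ≤ Real.exp X)
    (hvan : ∀ m : κ → ℕ, ∑ i, m i ≤ S1 + S2 → ∀ l ∈ Icc 1 h, Q m l = 0)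
    (hnum : (Module.finrank ℚ K : ℝ) * X + L < h * S2) :
    ∀ m : κ → ℕ, ∑ i, m i ≤ S1 → ∀ l ∈ Icc 1 h', Q m l = 0 := by
  classical
  intro m hm l hl
  by_contra hQ0
  have hhouse := hX m hm l hl
  have hlw : ‖(l : E)‖ ≤ 1 := IsUltrametricDist.norm_natCast_le_one E l
  have hL := Pool.Agent.NearOne652.G.liouville p (E := E) K σ (Q m l : K) (Q m l).2 (by
    exact_mod_cast hQ0) (Real.exp X) (fun φ => (norm_embedding_le_house _ φ).trans hhouse)
  set Z : Finset E := (Icc 1 h).image (fun r : ℕ => (r : E)) with hZ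
  have hcard : Z.card = h := by
    rw [hZ, Finset.card_image_of_injective _ Nat.cast_injective]
    simp
  have hS := schwarz (R := 4) (by norm_num) Z (by
      intro c hc
      rw [hZ, Finset.mem_image] at hc
      obtain ⟨r, _, rfl⟩ := hc
      exact IsUltrametricDist.norm_natCast_le_one E r) hlw (h * S2) (4 ^ L) (f m) (fun _ => S2)
    (hB m) (by rw [Finset.sum_const, hcard, smul_eq_mul]) (by
      intro c hc j hj
      rw [hZ, Finset.mem_image] at hc
      obtain ⟨r, hr, rfl⟩ := hc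
      apply family_deriv η f (4 ^ L) hB hf (S1 + S2) (r : E)
        (IsUltrametricDist.norm_natCast_le_one E r) _ j m (by omega)
      intro m' hm'
      have h1 := hvan m' hm' r hr
      have h2 := hQ m' r
      rw [h1] at h2
      simp only [map_zero] at h2
      rcases mul_eq_zero.1 h2.symm with h4 | h4
      · exact absurd h4 (pow_ne_zero _ he0)
      · exact h4)
  have h3 : ‖σ (Q m l : K)‖ ≤ ‖ev (l : E) (f m)‖ := by
    rw [hQ m l, norm_mul, norm_pow]
    calc ‖e₀‖ ^ l * ‖ev (l : E) (f m)‖ ≤ 1 * ‖ev (l : E) (f m)‖ := by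
          gcongr
          exact pow_le_one₀ (norm_nonneg _) he1
      _ = _ := one_mul _
  have h4 : (4 : ℝ) ^ (h * S2) ≤ 4 ^ L * Real.exp X ^ (Module.finrank ℚ K) := by
    calc (4 : ℝ) ^ (h * S2) = 1 * 4 ^ (h * S2) := (one_mul _).symm
      _ ≤ (Real.exp X ^ (Module.finrank ℚ K) * ‖ev (l : E) (f m)‖) * 4 ^ (h * S2) := by
          gcongr
          exact hL.trans (by gcongr)
      _ = Real.exp X ^ (Module.finrank ℚ K) * (‖ev (l : E) (f m)‖ * 4 ^ (h * S2)) := by ring
      _ ≤ Real.exp X ^ (Module.finrank ℚ K) * 4 ^ L := by gcongr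
      _ = _ := mul_comm _ _
  have hLS : L ≤ h * S2 := by
    have hX0 : 0 ≤ (Module.finrank ℚ K : ℝ) * X := by
      apply mul_nonneg (Nat.cast_nonneg _)
      rw [← Real.one_le_exp_iff]
      refine le_trans ?_ hhouse
      have h5 : (Q m l : K) ≠ 0 := by exact_mod_cast hQ0
      -- the house of a nonzero algebraic integer is at least one
      obtain ⟨φ⟩ : Nonempty (K →+* ℂ) := inferInstance
      have h6 := liouville φ (Q m l) hQ0 _ le_rfl
      by_contra hcon
      push Not at hcon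
      have h7 : ‖φ (Q m l : K)‖ ≤ house (Q m l : K) := norm_embedding_le_house _ φ
      have h8 : ‖φ (Q m l : K)‖ * house (Q m l : K) ^ (Module.finrank ℚ K - 1) < 1 := by
        calc ‖φ (Q m l : K)‖ * house (Q m l : K) ^ (Module.finrank ℚ K - 1)
            ≤ house (Q m l : K) * 1 := by
              gcongr
              · exact pow_nonneg (house_nonneg _) _
              · exact house_nonneg _
              · exact pow_le_one₀ (house_nonneg _) hcon.le
          _ < 1 := by rw [mul_one]; exact hcon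
      linarith
    have : (L : ℝ) < h * S2 := by linarith
    exact_mod_cast this.le
  have h5 : (4 : ℝ) ^ (h * S2 - L) ≤ Real.exp X ^ (Module.finrank ℚ K) := by
    have h6 : (0 : ℝ) < 4 ^ L := by positivity
    refine le_of_mul_le_mul_left ?_ h6
    rw [← pow_add, Nat.add_sub_cancel' hLS]
    exact h4
  have h6 : Real.exp ((h * S2 - L : ℕ) : ℝ) ≤ (4 : ℝ) ^ (h * S2 - L) := by
    have h7 : Real.exp 1 ≤ 4 := by
      have := Real.exp_one_lt_d9
      linarith
    calc Real.exp ((h * S2 - L : ℕ) : ℝ) = Real.exp 1 ^ (h * S2 - L) := by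
          rw [← Real.exp_nat_mul, mul_one]
      _ ≤ _ := pow_le_pow_left₀ (Real.exp_pos _).le h7 _
  have h7 := h6.trans h5
  rw [← Real.exp_nat_mul, Real.exp_le_exp, Nat.cast_sub hLS] at h7
  push_cast at h7
  linarith

end Pool.Agent.W245.PB
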