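import Mathlib

set_option autoImplicit false

/-!
# Generalised Vandermonde over a field of characteristic zero
-/

namespace Pool.Agent.W245.PB

open Finset Polynomial

theorem degree_C_mul_leP {F : Type*} [Field F] (a : F) (p : F[X]) :
    (Polynomial.C a * p).degree ≤ p.degree := by
  by_cases h : a = 0
  · simp [h]
  · rw [degree_C_mul h]

/-- Generalised Vandermonde: exponential polynomials on an interval of integers. -/
theorem gen_vanderP {F I : Type*} [Field F] [CharZero F] (V : Finset I) (v : I → F)
    (hinj : Set.InjOn v V) (hV : ∀ i ∈ V, v i ≠ 0) (N : ℕ) :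
    ∀ (d : I → ℕ) (q : I → F[X]) (a h : ℕ), ∑ i ∈ V, d i = N → N ≤ h →
      (∀ i ∈ V, (q i).degree < d i) →
      (∀ l ∈ Ioc a (a + h), ∑ i ∈ V, (q i).eval (l : F) * v i ^ l = 0) → ∀ i ∈ V, q i = 0 := by
  classical
  induction N with
  | zero =>
    intro d q a h hd _ hdeg _ i hi
    have : d i = 0 := (Finset.sum_eq_zero_iff.1 hd) i hi
    have h1 := hdeg i hi
    rw [this] at h1
    simpa using h1
  | succ N ih =>
    intro d q a h hd hNh hdeg hvan
    obtain ⟨t, ht, hdt⟩ : ∃ t ∈ V, d t ≠ 0 := by
      by_contra hcon
      push Not at hcon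
      rw [Finset.sum_eq_zero hcon] at hd
      omega
    -- the operator
    set q' : I → F[X] := fun u => Polynomial.C (v u) * taylor 1 (q u) - Polynomial.C (v t) * q u
      with hq'
    set d' : I → ℕ := Function.update d t (d t - 1) with hd'
    have hdeg' : ∀ u ∈ V, (q' u).degree < d' u := by
      intro u hu
      by_cases huv : u = t
      · subst huv
        rw [hd', Function.update_self]
        by_cases h0 : q u = 0
        · rw [hq']; simp [h0]
        · have e1 : q' u = Polynomial.C (v u) * (taylor 1 (q u) - q u) := by rw [hq']; ring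
          rw [e1, degree_C_mul (hV u hu)]
          have h2 : (taylor 1 (q u) - q u).degree < (taylor 1 (q u)).degree :=
            degree_sub_lt_left (degree_taylor _ _) (by rwa [Ne, taylor_eq_zero])
              (leadingCoeff_taylor _ _)
          rw [degree_taylor] at h2
          refine lt_of_lt_of_le h2 ?_
          apply degree_le_of_natDegree_le
          have h3 := (natDegree_lt_iff_degree_lt h0).2 (hdeg u hu)
          omega
      · rw [hd', Function.update_of_ne huv]
        refine lt_of_le_of_lt (degree_sub_le _ _) (max_lt ?_ ?_)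
        · refine lt_of_le_of_lt (degree_C_mul_leP _ _) ?_
          rw [degree_taylor]
          exact hdeg u hu
        · exact lt_of_le_of_lt (degree_C_mul_leP _ _) (hdeg u hu)
    have hsum' : ∑ u ∈ V, d' u = N := by
      rw [hd', Finset.sum_update_of_mem ht]
      rw [← Finset.add_sum_erase _ _ ht] at hd
      rw [Finset.sdiff_singleton_eq_erase]
      omega
    have h4 := ih d' q' a (h - 1) hsum' (by omega) hdeg' (by
      intro l hl
      rw [Finset.mem_Ioc] at hl
      have e1 := hvan (l + 1) (by rw [Finset.mem_Ioc]; omega)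
      have e2 := hvan l (by rw [Finset.mem_Ioc]; omega)
      have e3 : ∑ u ∈ V, (q' u).eval (l : F) * v u ^ l =
          ∑ u ∈ V, (q u).eval ((l + 1 : ℕ) : F) * v u ^ (l + 1) -
          v t * ∑ u ∈ V, (q u).eval (l : F) * v u ^ l := by
        rw [Finset.mul_sum, ← Finset.sum_sub_distrib]
        apply Finset.sum_congr rfl
        intro u _
        rw [hq']
        simp only [eval_sub, eval_mul, eval_C, taylor_eval]
        push_cast
        ring
      rw [e3, e1, e2, mul_zero, sub_zero])
    -- consequences
    have h5 : ∀ u ∈ V, u ≠ t → q u = 0 := by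
      intro u hu huv
      have e1 := h4 u hu
      have e2 : (Polynomial.C (v u) * taylor 1 (q u)).leadingCoeff =
          (Polynomial.C (v t) * q u).leadingCoeff := by
        rw [sub_eq_zero.1 e1]
      rw [leadingCoeff_mul, leadingCoeff_mul, leadingCoeff_C, leadingCoeff_C, leadingCoeff_taylor] at e2
      have e3 : (v u - v t) * (q u).leadingCoeff = 0 := by rw [sub_mul, e2, sub_self]
      rcases mul_eq_zero.1 e3 with h0 | h0
      · exact absurd (hinj hu ht (sub_eq_zero.1 h0)) huv
      · exact leadingCoeff_eq_zero.1 h0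
    have h6 : taylor 1 (q t) = q t := by
      have e1 := h4 t ht
      have e2 : Polynomial.C (v t) * (taylor 1 (q t) - q t) = 0 := by rw [mul_sub]; exact e1
      rcases mul_eq_zero.1 e2 with h0 | h0
      · exact absurd (C_eq_zero.1 h0) (hV t ht)
      · exact sub_eq_zero.1 h0
    have h7 : ∀ n : ℕ, (q t).eval (n : F) = (q t).eval 0 := by
      intro n
      induction n with
      | zero => simp
      | succ n ihn =>
        rw [← ihn]
        conv_rhs => rw [← h6]
        rw [taylor_eval]
        push_cast
        rfl
    have h8 : q t = Polynomial.C ((q t).eval 0) := by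
      apply Polynomial.eq_of_infinite_eval_eq
      apply Set.infinite_of_injective_forall_mem (f := fun n : ℕ => (n : F)) Nat.cast_injective
      intro n
      simp [h7 n]
    have h9 := hvan (a + 1) (by rw [Finset.mem_Ioc]; omega)
    rw [Finset.sum_eq_single_of_mem t ht (by
      intro u hu huv
      rw [h5 u hu huv, eval_zero, zero_mul])] at h9
    rcases mul_eq_zero.1 h9 with h0 | h0
    · rw [h7] at h0
      intro u hu
      by_cases huv : u = t
      · subst huv
        rw [h8, h0, C_0]
      · exact h5 u hu huv
    · exact absurd h0 (pow_ne_zero _ (hV t ht))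

/-- The final step. -/
theorem final_stepP {F Λ : Type*} [Field F] [CharZero F] [Fintype Λ] (L : ℕ) (v : Λ → F)
    (hinj : Function.Injective v) (hv : ∀ x, v x ≠ 0) (c : Fin (L + 1) → Λ → F) (h : ℕ)
    (hh : (L + 1) * Fintype.card Λ ≤ h)
    (hvan : ∀ l ∈ Icc 1 h, ∑ x, ∑ μ : Fin (L + 1), c μ x * (l : F) ^ (μ : ℕ) * v x ^ l = 0) :
    ∀ μ x, c μ x = 0 := by
  classical
  set q : Λ → F[X] := fun x => ∑ μ : Fin (L + 1), Polynomial.C (c μ x) * X ^ (μ : ℕ) with hq
  have h0 : ∀ x ∈ (univ : Finset Λ), q x = 0 := by
    apply gen_vanderP univ v (hinj.injOn) (fun x _ => hv x) _ (fun _ => L + 1) q 0 h rfl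
    · rw [Finset.sum_const, smul_eq_mul, mul_comm, Finset.card_univ]
      exact hh
    · intro x _
      rw [hq]
      refine lt_of_le_of_lt (degree_sum_le _ _) ?_
      rw [Finset.sup_lt_iff (WithBot.bot_lt_coe _)]
      intro μ _
      refine lt_of_le_of_lt (degree_C_mul_X_pow_le _ _) ?_
      exact_mod_cast μ.isLt
    · intro l hl
      rw [Finset.mem_Ioc] at hl
      rw [← hvan l (by rw [Finset.mem_Icc]; omega)]
      apply Finset.sum_congr rfl
      intro x _
      rw [hq]
      simp only [eval_finsetSum, eval_mul, eval_C, eval_pow, eval_X, Finset.sum_mul]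
  intro μ x
  have h1 := congrArg (fun P => Polynomial.coeff P (μ : ℕ)) (h0 x (mem_univ x))
  simp only [hq, finsetSum_coeff, coeff_zero, coeff_C_mul, coeff_X_pow] at h1
  rw [Finset.sum_eq_single μ] at h1
  · simpa using h1
  · intro b _ hb
    rw [if_neg, mul_zero]
    intro h
    exact hb (Fin.ext h.symm)
  · intro h; exact absurd (mem_univ _) h

end Pool.Agent.W245.PB
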