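import Mathlib
import Pool.Agent.W245.PB.PE

set_option autoImplicit false
set_option linter.unusedVariables false
set_option linter.unusedSectionVars false

/-!
# The Iwasawa logarithm near `1`, and reduction to numbers near `1`
-/

namespace Pool.Agent.W245.PB

open Finset Filter

variable (p : ℕ) [hp : Fact p.Prime]

/-- `L` is the Iwasawa `p`-adic logarithm. -/
structure IsIwasawaLog (L : PadicAlgCl p → PadicAlgCl p) : Prop where
  mul : ∀ x y : PadicAlgCl p, x ≠ 0 → y ≠ 0 → L (x * y) = L x + L y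
  prime : L ((p : ℕ) : PadicAlgCl p) = 0
  ser : ∀ z : PadicAlgCl p, ‖z‖ < 1 →
    HasSum (fun n : ℕ => (-1 : PadicAlgCl p) ^ n * z ^ (n + 1) / ((n : PadicAlgCl p) + 1))
      (L (1 + z))

variable {p} {L : PadicAlgCl p → PadicAlgCl p} (hL : IsIwasawaLog p L)

include hL

theorem IsIwasawaLog.one : L 1 = 0 := by
  have h := hL.mul 1 1 one_ne_zero one_ne_zero
  rw [mul_one] at h
  exact left_eq_add.1 h

theorem IsIwasawaLog.pow {x : PadicAlgCl p} (hx : x ≠ 0) (n : ℕ) : L (x ^ n) = n * L x := by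
  induction n with
  | zero => simp [hL.one]
  | succ n ih =>
    rw [pow_succ, hL.mul _ _ (pow_ne_zero _ hx) hx, ih]
    push_cast
    ring

theorem IsIwasawaLog.inv {x : PadicAlgCl p} (hx : x ≠ 0) : L x⁻¹ = -L x := by
  have h := hL.mul x x⁻¹ hx (inv_ne_zero hx)
  rw [mul_inv_cancel₀ hx, hL.one] at h
  exact (neg_eq_of_add_eq_zero_right h.symm).symm

theorem IsIwasawaLog.zpow {x : PadicAlgCl p} (hx : x ≠ 0) (n : ℤ) : L (x ^ n) = n * L x := by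
  obtain ⟨m, rfl | rfl⟩ := n.eq_nat_or_neg
  · rw [zpow_natCast, hL.pow hx]; simp
  · rw [zpow_neg, zpow_natCast, hL.inv (pow_ne_zero _ hx), hL.pow hx]
    push_cast
    ring

theorem IsIwasawaLog.prod {ι : Type*} (s : Finset ι) (f : ι → PadicAlgCl p)
    (hf : ∀ i ∈ s, f i ≠ 0) : L (∏ i ∈ s, f i) = ∑ i ∈ s, L (f i) := by
  classical
  induction s using Finset.induction_on with
  | empty => simp [hL.one]
  | insert i s hi ih =>
    rw [Finset.prod_insert hi, Finset.sum_insert hi, hL.mul _ _ (hf i (mem_insert_self _ _))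
      (Finset.prod_ne_zero_iff.2 fun j hj => hf j (mem_insert_of_mem hj)),
      ih fun j hj => hf j (mem_insert_of_mem hj)]

theorem IsIwasawaLog.approx {z : PadicAlgCl p} (hz : ‖z‖ * (p : ℝ) ^ 3 ≤ 1) :
    ‖L (1 + z) - z‖ ≤ p * ‖z‖ ^ 2 := by
  have hp2 : (2 : ℝ) ≤ p := by exact_mod_cast hp.out.two_le
  have hz1 : ‖z‖ < 1 := by
    have : ‖z‖ * 8 ≤ 1 := by
      refine le_trans ?_ hz
      gcongr
      calc (8 : ℝ) = 2 ^ 3 := by norm_num
        _ ≤ (p : ℝ) ^ 3 := by gcongr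
    have := norm_nonneg z
    by_contra hcon
    push Not at hcon
    linarith
  have h1 := (hasSum_nat_add_iff' 1).2 (hL.ser z hz1)
  have h2 : L (1 + z) - ∑ i ∈ range 1, (-1 : PadicAlgCl p) ^ i * z ^ (i + 1) /
      ((i : PadicAlgCl p) + 1) = L (1 + z) - z := by simp
  rw [h2] at h1
  rw [← h1.tsum_eq]
  apply IsUltrametricDist.norm_tsum_le_of_forall_le_of_nonneg (by positivity)
  intro n
  rw [norm_div, norm_mul, norm_pow, norm_neg, norm_one, one_pow, one_mul, norm_pow]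
  have h3 : (1 : ℝ) ≤ ‖(((n + 1 : ℕ) : PadicAlgCl p) + 1)‖ * (p : ℝ) ^ (n + 1) := by
    have h4 := norm_factorial p (E := PadicAlgCl p) (n + 2) (by omega)
    rw [show n + 2 - 1 = n + 1 by omega, Nat.factorial_succ] at h4
    push_cast at h4
    rw [norm_mul] at h4
    refine h4.trans ?_
    have h5 : ‖((n + 1).factorial : PadicAlgCl p)‖ ≤ 1 :=
      IsUltrametricDist.norm_natCast_le_one _ _
    calc ‖(n : PadicAlgCl p) + 1 + 1‖ * ‖((n + 1).factorial : PadicAlgCl p)‖ * (p : ℝ) ^ (n + 1)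
        ≤ ‖(n : PadicAlgCl p) + 1 + 1‖ * 1 * (p : ℝ) ^ (n + 1) := by gcongr
      _ = ‖((n + 1 : ℕ) : PadicAlgCl p) + 1‖ * (p : ℝ) ^ (n + 1) := by push_cast; ring
  have hpos : 0 < ‖(((n + 1 : ℕ) : PadicAlgCl p) + 1)‖ := by
    by_contra hcon
    have h0 : ‖(((n + 1 : ℕ) : PadicAlgCl p) + 1)‖ = 0 := le_antisymm (not_lt.1 hcon) (norm_nonneg _)
    rw [h0, zero_mul] at h3
    linarith
  rw [div_le_iff₀ hpos]
  have h6 : ‖z‖ * p ≤ 1 := by
    refine le_trans ?_ hz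
    gcongr
    calc (p : ℝ) = (p : ℝ) ^ 1 := (pow_one _).symm
      _ ≤ (p : ℝ) ^ 3 := pow_le_pow_right₀ (by linarith) (by norm_num)
  calc ‖z‖ ^ (n + 1 + 1) = ‖z‖ ^ 2 * ‖z‖ ^ n * 1 := by ring
    _ ≤ ‖z‖ ^ 2 * ‖z‖ ^ n * (‖(((n + 1 : ℕ) : PadicAlgCl p) + 1)‖ * (p : ℝ) ^ (n + 1)) := by gcongr
    _ = p * ‖z‖ ^ 2 * ‖(((n + 1 : ℕ) : PadicAlgCl p) + 1)‖ * (‖z‖ * p) ^ n := by ring
    _ ≤ p * ‖z‖ ^ 2 * ‖(((n + 1 : ℕ) : PadicAlgCl p) + 1)‖ * 1 := by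
        gcongr
        exact pow_le_one₀ (by positivity) h6
    _ = p * ‖z‖ ^ 2 * ‖(((n + 1 : ℕ) : PadicAlgCl p) + 1)‖ := mul_one _

theorem ne_zero_of_near {u : PadicAlgCl p} (hu : ‖u - 1‖ * (p : ℝ) ^ 3 ≤ 1) : u ≠ 0 := by
  have hp2 : (2 : ℝ) ≤ p := by exact_mod_cast hp.out.two_le
  rintro rfl
  rw [zero_sub, norm_neg, norm_one, one_mul] at hu
  have : (8 : ℝ) ≤ (p : ℝ) ^ 3 := by
    calc (8 : ℝ) = 2 ^ 3 := by norm_num
      _ ≤ (p : ℝ) ^ 3 := by gcongr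
  linarith

/-- Near `1` the logarithm is small. -/
theorem IsIwasawaLog.small {u : PadicAlgCl p} (hu : ‖u - 1‖ * (p : ℝ) ^ 3 ≤ 1) :
    ‖L u‖ * (p : ℝ) ^ 3 ≤ 1 := by
  have h1 := hL.approx hu
  rw [add_sub_cancel] at h1
  have h2 : L u = (L u - (u - 1)) + (u - 1) := by ring
  have h3 : ‖L u - (u - 1)‖ ≤ ‖u - 1‖ := by
    refine h1.trans ?_
    have hp2 : (2 : ℝ) ≤ p := by exact_mod_cast hp.out.two_le
    have h4 : p * ‖u - 1‖ ≤ 1 := by
      refine le_trans ?_ hu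
      rw [mul_comm]
      gcongr
      calc (p : ℝ) = (p : ℝ) ^ 1 := (pow_one _).symm
        _ ≤ (p : ℝ) ^ 3 := pow_le_pow_right₀ (by linarith) (by norm_num)
    calc p * ‖u - 1‖ ^ 2 = (p * ‖u - 1‖) * ‖u - 1‖ := by ring
      _ ≤ 1 * ‖u - 1‖ := by gcongr
      _ = ‖u - 1‖ := one_mul _
  have h5 : ‖L u‖ ≤ ‖u - 1‖ := by
    rw [h2]
    exact (IsUltrametricDist.norm_add_le_max _ _).trans (max_le h3 le_rfl)
  exact le_trans (by gcongr) hu

/-- Near `1` the exponential inverts the logarithm. -/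
theorem IsIwasawaLog.pe_log {u : PadicAlgCl p} (hu : ‖u - 1‖ * (p : ℝ) ^ 3 ≤ 1) :
    pe ((L u : PadicAlgCl p) : ℂ_[p]) = (u : ℂ_[p]) := by
  have hp2 : (2 : ℝ) ≤ p := by exact_mod_cast hp.out.two_le
  have hpi : (p : ℝ)⁻¹ ≤ 1 := inv_le_one_of_one_le₀ (by linarith)
  have hu0 := ne_zero_of_near hL hu
  have hcast : ∀ x : PadicAlgCl p, ‖(x : ℂ_[p])‖ = ‖x‖ := PadicComplex.norm_extends p
  apply Pool.Agent.W245.PB.pe_log p
  · have h1 : (u : ℂ_[p]) - 1 = ((u - 1 : PadicAlgCl p) : ℂ_[p]) := by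
      rw [PadicComplex.coe_eq, PadicComplex.coe_eq, map_sub, map_one]
    rw [h1, hcast]
    exact hu
  · intro n
    have h1 : (u : ℂ_[p]) ^ (p ^ n) - 1 = ((u ^ (p ^ n) - 1 : PadicAlgCl p) : ℂ_[p]) := by
      rw [PadicComplex.coe_eq, PadicComplex.coe_eq, map_sub, map_one, map_pow]
    have h2 : (p : ℂ_[p]) ^ n * (L u : ℂ_[p]) = ((L (u ^ (p ^ n)) : PadicAlgCl p) : ℂ_[p]) := by
      rw [hL.pow hu0, PadicComplex.coe_eq, PadicComplex.coe_eq, map_mul, map_natCast]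
      push_cast
      rfl
    rw [h2, h1]
    have h3 : ((L (u ^ (p ^ n)) : PadicAlgCl p) : ℂ_[p]) - ((u ^ (p ^ n) - 1 : PadicAlgCl p) : ℂ_[p])
        = ((L (u ^ (p ^ n)) - (u ^ (p ^ n) - 1) : PadicAlgCl p) : ℂ_[p]) :=
      (map_sub (algebraMap (PadicAlgCl p) ℂ_[p]) _ _).symm
    rw [h3, hcast, hcast]
    have h4 : ‖u ^ (p ^ n) - 1‖ * (p : ℝ) ^ 3 ≤ 1 := by
      rw [norm_pow_p_iter p hu]
      calc ‖u - 1‖ * (p : ℝ)⁻¹ ^ n * (p : ℝ) ^ 3 ≤ ‖u - 1‖ * 1 * (p : ℝ) ^ 3 := by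
            gcongr
            exact pow_le_one₀ (by positivity) hpi
        _ ≤ 1 := by rw [mul_one]; exact hu
    have h5 := hL.approx h4
    rwa [add_sub_cancel] at h5

/-- A number near `1` with logarithm `0` is `1`. -/
theorem IsIwasawaLog.eq_one {u : PadicAlgCl p} (hu : ‖u - 1‖ * (p : ℝ) ^ 3 ≤ 1) (h : L u = 0) :
    u = 1 := by
  have h1 := hL.pe_log hu
  rw [h] at h1
  have h2 : ((0 : PadicAlgCl p) : ℂ_[p]) = 0 := PadicComplex.coe_zero p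
  rw [h2, pe_zero] at h1
  have h3 : algebraMap (PadicAlgCl p) ℂ_[p] u = algebraMap (PadicAlgCl p) ℂ_[p] 1 := by
    rw [map_one, ← PadicComplex.coe_eq]
    exact h1.symm
  exact (algebraMap (PadicAlgCl p) ℂ_[p]).injective h3

omit hL in
/-- Some power of every nonzero element is, up to a power of `p`, close to `1`. -/
theorem exists_near {x : PadicAlgCl p} (hx : x ≠ 0) :
    ∃ (m : ℕ) (r : ℤ), 0 < m ∧ ‖x ^ m * (p : PadicAlgCl p) ^ r - 1‖ * (p : ℝ) ^ 3 ≤ 1 := by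
  have hp1 : (1 : ℝ) < p := by exact_mod_cast hp.out.one_lt
  have hp0 : (0 : ℝ) < p := by linarith
  have hnp : ‖(p : PadicAlgCl p)‖ = (p : ℝ)⁻¹ := norm_p p
  have hpne : (p : PadicAlgCl p) ≠ 0 := Nat.cast_ne_zero.2 hp.out.ne_zero
  -- normalisation
  have h1 : ∀ i : ℕ, ∃ n : ℤ, 1 ≤ ‖x ^ i * (p : PadicAlgCl p) ^ n‖ ∧
      ‖x ^ i * (p : PadicAlgCl p) ^ n‖ ≤ p := by
    intro i
    have hpos : 0 < ‖x ^ i‖ := norm_pos_iff.2 (pow_ne_zero _ hx)
    obtain ⟨n, hn⟩ := exists_mem_Ico_zpow hpos hp1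
    refine ⟨n, ?_⟩
    rw [norm_mul, norm_zpow, hnp, inv_zpow, ← zpow_neg]
    have hpn : 0 < (p : ℝ) ^ (-n) := zpow_pos hp0 _
    constructor
    · calc (1 : ℝ) = (p : ℝ) ^ n * (p : ℝ) ^ (-n) := by
            rw [← zpow_add₀ hp0.ne', add_neg_cancel, zpow_zero]
        _ ≤ ‖x ^ i‖ * (p : ℝ) ^ (-n) := by gcongr; exact hn.1
    · calc ‖x ^ i‖ * (p : ℝ) ^ (-n) ≤ (p : ℝ) ^ (n + 1) * (p : ℝ) ^ (-n) := by
            gcongr; exact hn.2.le
        _ = p := by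
            rw [← zpow_add₀ hp0.ne', add_neg_cancel_comm, zpow_one]
  choose r hr1 hr2 using h1
  -- the finite dimensional space
  have hint : IsIntegral ℚ_[p] x := (PadicAlgCl.isAlgebraic p).isAlgebraic x |>.isIntegral
  set F := IntermediateField.adjoin ℚ_[p] {x} with hF
  have hfd : FiniteDimensional ℚ_[p] F := IntermediateField.adjoin.finiteDimensional hint
  set S : Submodule ℚ_[p] (PadicAlgCl p) := F.toSubalgebra.toSubmodule with hS
  have hSfd : FiniteDimensional ℚ_[p] S := hfd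
  have hprop : ProperSpace S := FiniteDimensional.proper ℚ_[p] S
  have hmem : ∀ i, x ^ i * (p : PadicAlgCl p) ^ (r i) ∈ S := by
    intro i
    have hxF : x ∈ F := IntermediateField.mem_adjoin_simple_self _ _
    have hpF : (p : PadicAlgCl p) ∈ F := by
      have := F.algebraMap_mem (p : ℚ_[p])
      rwa [map_natCast] at this
    have h3 := F.pow_mem hxF (i : ℤ)
    rw [zpow_natCast] at h3
    exact F.mul_mem h3 (F.pow_mem hpF (r i))
  set y : ℕ → S := fun i => ⟨_, hmem i⟩ with hy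
  have hyb : ∀ i, y i ∈ Metric.closedBall (0 : S) p := by
    intro i
    rw [mem_closedBall_zero_iff]
    exact hr2 i
  obtain ⟨a, _, φ, hφ, hlim⟩ := (isCompact_closedBall (0 : S) (p : ℝ)).tendsto_subseq hyb
  have hcau := hlim.cauchySeq
  rw [Metric.cauchySeq_iff'] at hcau
  have hε : (0 : ℝ) < ((p : ℝ) ^ 3)⁻¹ := by positivity
  obtain ⟨N, hN⟩ := hcau _ hε
  have h3 := hN (N + 1) (by omega)
  simp only [Function.comp_apply] at h3
  rw [dist_eq_norm] at h3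
  set i := φ N with hi
  set j := φ (N + 1) with hj
  have hij : i < j := hφ (Nat.lt_succ_self N)
  have h4 : ‖x ^ j * (p : PadicAlgCl p) ^ (r j) - x ^ i * (p : PadicAlgCl p) ^ (r i)‖ <
      ((p : ℝ) ^ 3)⁻¹ := h3
  refine ⟨j - i, r j - r i, by omega, ?_⟩
  have hyi : x ^ i * (p : PadicAlgCl p) ^ (r i) ≠ 0 :=
    mul_ne_zero (pow_ne_zero _ hx) (zpow_ne_zero _ hpne)
  have h5 : x ^ (j - i) * (p : PadicAlgCl p) ^ (r j - r i) - 1 =
      (x ^ j * (p : PadicAlgCl p) ^ (r j) - x ^ i * (p : PadicAlgCl p) ^ (r i)) /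
        (x ^ i * (p : PadicAlgCl p) ^ (r i)) := by
    rw [eq_div_iff hyi, sub_mul, one_mul]
    congr 1
    have h6 : x ^ j = x ^ (j - i) * x ^ i := by rw [← pow_add]; congr 1; omega
    have h7 : (p : PadicAlgCl p) ^ (r j) = (p : PadicAlgCl p) ^ (r j - r i) *
        (p : PadicAlgCl p) ^ (r i) := by rw [← zpow_add₀ hpne]; congr 1; ring
    rw [h6, h7]
    ring
  rw [h5, norm_div]
  calc ‖x ^ j * (p : PadicAlgCl p) ^ (r j) - x ^ i * (p : PadicAlgCl p) ^ (r i)‖ /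
        ‖x ^ i * (p : PadicAlgCl p) ^ (r i)‖ * (p : ℝ) ^ 3
      ≤ ((p : ℝ) ^ 3)⁻¹ / 1 * (p : ℝ) ^ 3 := by
        gcongr
        exact hr1 i
    _ = 1 := by
        rw [div_one, inv_mul_cancel₀ (by positivity)]

end Pool.Agent.W245.PB
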