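import Mathlib
import Pool.Agent.W245.PB.BakerP
import Pool.Agent.W245.PB.Reduce

set_option autoImplicit false
set_option linter.unusedVariables false
set_option linter.unusedSectionVars false

/-!
# The `p`-adic Baker theorem (Brumer)
-/

namespace Pool.Agent.W245.PB

open NumberField Finset

/-- The `p`-adic version of Baker's theorem (inhomogeneous form) for small logarithms. -/
theorem baker_smallP (pr : ℕ) [hp : Fact pr.Prime] {E : Type*} [NormedField E] [CompleteSpace E]
    [IsUltrametricDist E] [NormedAlgebra ℚ_[pr] E] [CharZero E]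
    {ι : Type} [Fintype ι] (ω : ι → E) (hsm : ∀ k, ‖ω k‖ * (pr : ℝ) ^ 3 ≤ 1)
    (halg : ∀ i, IsAlgebraic ℚ (pe (ω i)))
    (hω : LinearIndependent ℚ ω) (c₀ : E) (hc₀ : IsAlgebraic ℚ c₀) (c : ι → E)
    (hc : ∀ i, IsAlgebraic ℚ (c i)) (hsum : c₀ + ∑ i, c i * ω i = 0) :
    c₀ = 0 ∧ ∀ i, c i = 0 := by
  classical
  suffices hall : ∀ i, c i = 0 by
    refine ⟨?_, hall⟩
    simpa [hall] using hsum
  by_contra hcon
  push Not at hcon
  obtain ⟨i₀, hi₀⟩ := hcon
  -- normalised coefficients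
  set β : {i // i ≠ i₀} → E := fun i => -c i / c i₀ with hβ
  set β₀ : E := -c₀ / c i₀ with hβ₀
  have hβalg : ∀ i, IsAlgebraic ℚ (β i) := by
    intro i
    rw [hβ]
    simp only [div_eq_mul_inv]
    exact ((hc _).neg).mul (hc _).inv
  have hβ₀alg : IsAlgebraic ℚ β₀ := by
    rw [hβ₀, div_eq_mul_inv]
    exact hc₀.neg.mul (hc _).inv
  have hrel : ω i₀ = β₀ + ∑ i, β i * ω i := by
    have h1 : ∑ i, c i * ω i = c i₀ * ω i₀ + ∑ i : {i // i ≠ i₀}, c i * ω i := by
      rw [← Finset.add_sum_erase _ _ (mem_univ i₀)]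
      congr 1
      rw [← Finset.sum_subtype (univ.erase i₀) (by simp) (fun i => c i * ω i)]
    rw [h1] at hsum
    have h2 : ∑ i, β i * ω i = -(∑ i : {i // i ≠ i₀}, c i * ω i) / c i₀ := by
      rw [hβ, eq_div_iff hi₀, Finset.sum_mul, ← Finset.sum_neg_distrib]
      apply Finset.sum_congr rfl
      intro i _
      field_simp
    rw [h2, hβ₀, ← add_div, eq_div_iff hi₀]
    linear_combination hsum
  -- clear denominators
  have hβZ : ∀ i, IsAlgebraic ℤ (β i) := fun i => (IsFractionRing.isAlgebraic_iff ℤ ℚ E).2 (hβalg i)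
  have hβ₀Z : IsAlgebraic ℤ β₀ := (IsFractionRing.isAlgebraic_iff ℤ ℚ E).2 hβ₀alg
  choose D₁ hD₁ hD₁' using fun i => (hβZ i).exists_integral_multiple
  obtain ⟨D₂, hD₂, hD₂'⟩ := hβ₀Z.exists_integral_multiple
  obtain ⟨D, hD0, hDβ, hDβ₀⟩ : ∃ D : ℕ, D ≠ 0 ∧ (∀ i, IsIntegral ℤ ((D : E) * β i)) ∧
      IsIntegral ℤ ((D : E) * β₀) := by
    set D : ℤ := D₂ * ∏ i, D₁ i with hD
    have hD0 : D ≠ 0 := by
      rw [hD]
      exact mul_ne_zero hD₂ (by rw [Finset.prod_ne_zero_iff]; exact fun i _ => hD₁ i)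
    have hDβ : ∀ i, IsIntegral ℤ (D • β i) := by
      intro i
      rw [hD, ← Finset.prod_erase_mul _ _ (mem_univ i), ← mul_assoc, mul_smul]
      exact (hD₁' i).smul _
    have hDβ₀ : IsIntegral ℤ (D • β₀) := by
      rw [hD, mul_comm, mul_smul]
      exact hD₂'.smul _
    obtain ⟨d, hd⟩ := D.eq_nat_or_neg
    have hd0 : d ≠ 0 := by
      rintro rfl
      rcases hd with h | h
      · exact hD0 (by simpa using h)
      · exact hD0 (by simpa using h)
    have hDE : ∀ x : E, IsIntegral ℤ (D • x) → IsIntegral ℤ ((d : E) * x) := by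
      intro x hx
      rcases hd with h | h
      · have h1 : (d : E) * x = D • x := by
          rw [zsmul_eq_mul, h]
          simp
        rw [h1]; exact hx
      · have h1 : (d : E) * x = -(D • x) := by
          rw [zsmul_eq_mul, h]
          simp
        rw [h1]; exact hx.neg
    exact ⟨d, hd0, fun i => hDE _ (hDβ i), hDE _ hDβ₀⟩
  -- new family
  set ω' : Option {i // i ≠ i₀} → E := fun k => k.elim ((D : E) * ω i₀) (fun i => ω i) with hω'
  have hω'li : LinearIndependent ℚ ω' := by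
    rw [Fintype.linearIndependent_iff] at hω ⊢
    intro g hg
    rw [Fintype.sum_option] at hg
    simp only [hω', Option.elim] at hg
    have h1 := hω (fun i => if h : i = i₀ then g none * D else g (some ⟨i, h⟩)) (by
      rw [← Finset.add_sum_erase _ _ (mem_univ i₀)]
      rw [Finset.sum_subtype (p := fun i => i ≠ i₀) (univ.erase i₀) (by simp)]
      simp only [dite_true]
      rw [← hg]
      congr 1
      · simp only [Algebra.smul_def]
        push_cast
        simp
        ring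
      · apply Finset.sum_congr rfl
        intro i _
        rw [dif_neg i.2])
    intro k
    rcases k with _ | i
    · have h2 := h1 i₀
      simp only [dite_true] at h2
      have hDq : (D : ℚ) ≠ 0 := by exact_mod_cast hD0
      rcases mul_eq_zero.1 h2 with h3 | h3
      · exact h3
      · exact absurd h3 hDq
    · have h2 := h1 i
      rw [dif_neg i.2] at h2
      exact h2
  have hsm' : ∀ k, ‖ω' k‖ * (pr : ℝ) ^ 3 ≤ 1 := by
    intro k
    rcases k with _ | i
    · exact norm_mul_small pr (IsUltrametricDist.norm_natCast_le_one E D) (hsm i₀)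
    · exact hsm i
  have hω'alg : ∀ k, IsAlgebraic ℚ (pe (ω' k)) := by
    intro k
    rcases k with _ | i
    · simp only [hω', Option.elim]
      rw [pe_nat_mul pr (hsm i₀)]
      exact (halg i₀).pow _
    · exact halg i
  -- the number field
  set S : Set E := insert ((D : E) * β₀) (Set.range (fun i => (D : E) * β i) ∪
    Set.range (fun k => pe (ω' k))) with hS
  have hSfin : Finite S := by
    rw [hS]
    exact Set.Finite.to_subtype (((Set.finite_range _).union (Set.finite_range _)).insert _)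
  have hSint : ∀ x ∈ S, IsIntegral ℚ x := by
    intro x hx
    rcases hx with rfl | ⟨i, rfl⟩ | ⟨k, rfl⟩
    · exact hDβ₀.tower_top
    · exact (hDβ i).tower_top
    · exact (hω'alg k).isIntegral
  have hfd : FiniteDimensional ℚ (IntermediateField.adjoin ℚ S) :=
    IntermediateField.finiteDimensional_adjoin hSint
  have hnf : NumberField (IntermediateField.adjoin ℚ S) :=
    { to_charZero := inferInstance, to_finiteDimensional := hfd }
  set K := IntermediateField.adjoin ℚ S with hK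
  have hmem : ∀ x ∈ S, x ∈ K := fun x hx => IntermediateField.subset_adjoin ℚ S hx
  have hm0 : (D : E) * β₀ ∈ K := hmem _ (Set.mem_insert _ _)
  have hm1 : ∀ i, (D : E) * β i ∈ K := fun i => hmem _ (Set.mem_insert_of_mem _ (Or.inl ⟨i, rfl⟩))
  have hm2 : ∀ k, pe (ω' k) ∈ K := fun k => hmem _ (Set.mem_insert_of_mem _ (Or.inr ⟨k, rfl⟩))
  have hint : ∀ i, IsIntegral ℤ (⟨(D : E) * β i, hm1 i⟩ : K) := fun i =>
    (isIntegral_algHom_iff (K.val.restrictScalars ℤ) (K.val.injective)).1 (hDβ i)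
  have hint0 : IsIntegral ℤ (⟨(D : E) * β₀, hm0⟩ : K) :=
    (isIntegral_algHom_iff (K.val.restrictScalars ℤ) (K.val.injective)).1 hDβ₀
  refine baker_coreP pr (K := K) (K.val : K →+* E) ω' hω'li hsm' ⟨⟨(D : E) * β₀, hm0⟩, hint0⟩
    (fun i => ⟨⟨(D : E) * β i, hm1 i⟩, hint i⟩) ?_ (fun k => ⟨pe (ω' k), hm2 k⟩) ?_
  · simp only [hω', Option.elim]
    rw [hrel, mul_add, Finset.mul_sum]
    congr 1
    apply Finset.sum_congr rfl
    intro i _
    show (D : E) * (β i * ω i) = ((D : E) * β i) * ω i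
    ring
  · intro k
    rfl

theorem isAlgebraic_coe {p : ℕ} [hp : Fact p.Prime] {x : PadicAlgCl p} (hx : IsAlgebraic ℚ x) :
    IsAlgebraic ℚ ((x : PadicAlgCl p) : ℂ_[p]) := by
  have h := hx.algHom (algebraMap (PadicAlgCl p) ℂ_[p]).toRatAlgHom
  exact h

/-- powers of numbers near `1` are near `1` -/
theorem near_pow {p : ℕ} [hp : Fact p.Prime] {u : PadicAlgCl p}
    (hu : ‖u - 1‖ * (p : ℝ) ^ 3 ≤ 1) (k : ℕ) : ‖u ^ k - 1‖ * (p : ℝ) ^ 3 ≤ 1 := by
  have hp2 : (2 : ℝ) ≤ p := by exact_mod_cast hp.out.two_le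
  have h1 : ‖u‖ ≤ 1 := by
    have h2 : u = (u - 1) + 1 := by ring
    rw [h2]
    refine (IsUltrametricDist.norm_add_le_max _ _).trans (max_le ?_ (by rw [norm_one]))
    refine le_trans ?_ hu
    calc ‖u - 1‖ = ‖u - 1‖ * 1 := (mul_one _).symm
      _ ≤ ‖u - 1‖ * (p : ℝ) ^ 3 := by gcongr; exact one_le_pow₀ (by linarith)
  have h3 : u ^ k - 1 = (∑ i ∈ range k, u ^ i) * (u - 1) := (geom_sum_mul u k).symm
  rw [h3, norm_mul, mul_assoc]
  refine mul_le_one₀ ?_ (by positivity) hu
  apply IsUltrametricDist.norm_sum_le_of_forall_le_of_nonneg zero_le_one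
  intro i _
  rw [norm_pow]
  exact pow_le_one₀ (norm_nonneg _) h1

theorem isAlgebraic_zpow {F : Type*} [Field F] [CharZero F] {x : F} (hx : IsAlgebraic ℚ x)
    (n : ℤ) : IsAlgebraic ℚ (x ^ n) := by
  obtain ⟨m, rfl | rfl⟩ := n.eq_nat_or_neg
  · rw [zpow_natCast]; exact hx.pow m
  · rw [zpow_neg, zpow_natCast]; exact (hx.pow m).inv

/-- **The `p`-adic Baker theorem** (Brumer 1967), inhomogeneous form: if the `p`-adic logarithms of
algebraic numbers are linearly independent over `ℚ`, then together with `1` they are linearly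
independent over the algebraic numbers. -/
theorem brumer {p : ℕ} [hp : Fact p.Prime] {L : PadicAlgCl p → PadicAlgCl p}
    (hL : IsIwasawaLog p L) {ι : Type} [Fintype ι] (α : ι → PadicAlgCl p)
    (hα0 : ∀ i, α i ≠ 0) (halg : ∀ i, IsAlgebraic ℚ (α i))
    (hli : LinearIndependent ℚ fun i => L (α i)) (c₀ : PadicAlgCl p) (hc₀ : IsAlgebraic ℚ c₀)
    (c : ι → PadicAlgCl p) (hc : ∀ i, IsAlgebraic ℚ (c i))
    (hsum : c₀ + ∑ i, c i * L (α i) = 0) : c₀ = 0 ∧ ∀ i, c i = 0 := by
  classical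
  have hpne : (p : PadicAlgCl p) ≠ 0 := Nat.cast_ne_zero.2 hp.out.ne_zero
  choose m r hm hnear using fun i => exists_near (p := p) (hα0 i)
  set M : ℕ := ∏ i, m i with hM
  have hM0 : M ≠ 0 := by
    rw [hM, Finset.prod_ne_zero_iff]
    exact fun i _ => (hm i).ne'
  -- the numbers near `1`
  set u : ι → PadicAlgCl p := fun i =>
    (α i ^ (m i) * (p : PadicAlgCl p) ^ (r i)) ^ (∏ j ∈ univ.erase i, m j) with hu
  have hMi : ∀ i, (∏ j ∈ univ.erase i, m j) * m i = M := fun i =>
    Finset.prod_erase_mul _ _ (mem_univ i)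
  have hunear : ∀ i, ‖u i - 1‖ * (p : ℝ) ^ 3 ≤ 1 := fun i => near_pow (hnear i) _
  have hualg : ∀ i, IsAlgebraic ℚ (u i) := by
    intro i
    apply IsAlgebraic.pow
    apply ((halg i).pow _).mul
    apply isAlgebraic_zpow
    exact isAlgebraic_natCast p
  have hLu : ∀ i, L (u i) = (M : PadicAlgCl p) * L (α i) := by
    intro i
    have h1 : α i ^ (m i) ≠ 0 := pow_ne_zero _ (hα0 i)
    have h2 : (p : PadicAlgCl p) ^ (r i) ≠ 0 := zpow_ne_zero _ hpne
    rw [hu]
    simp only
    rw [hL.pow (mul_ne_zero h1 h2), hL.mul _ _ h1 h2, hL.pow (hα0 i), hL.zpow hpne, hL.prime,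
      mul_zero, add_zero, ← mul_assoc, ← hMi i]
    push_cast
    ring
  -- the small logarithms
  set ω : ι → ℂ_[p] := fun i => ((L (u i) : PadicAlgCl p) : ℂ_[p]) with hω
  have hωsm : ∀ i, ‖ω i‖ * (p : ℝ) ^ 3 ≤ 1 := by
    intro i
    rw [hω]
    simp only
    rw [PadicComplex.norm_extends]
    exact hL.small (hunear i)
  have hωpe : ∀ i, pe (ω i) = (u i : ℂ_[p]) := fun i => hL.pe_log (hunear i)
  have hMp : (M : PadicAlgCl p) ≠ 0 := Nat.cast_ne_zero.2 hM0
  have hinj : Function.Injective (algebraMap (PadicAlgCl p) ℂ_[p]) :=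
    (algebraMap (PadicAlgCl p) ℂ_[p]).injective
  have hωli : LinearIndependent ℚ ω := by
    rw [Fintype.linearIndependent_iff] at hli ⊢
    intro g hg
    apply hli g
    have h1 : algebraMap (PadicAlgCl p) ℂ_[p] ((M : PadicAlgCl p) * ∑ i, g i • L (α i)) = 0 := by
      rw [← hg, Finset.mul_sum, map_sum]
      apply Finset.sum_congr rfl
      intro i _
      rw [hω]
      simp only
      rw [hLu i, PadicComplex.coe_eq, Algebra.smul_def, Algebra.smul_def, map_mul, map_mul,
        map_mul]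
      have h2 : algebraMap (PadicAlgCl p) ℂ_[p] (algebraMap ℚ (PadicAlgCl p) (g i)) =
          algebraMap ℚ ℂ_[p] (g i) := by
        rw [← RingHom.comp_apply]
        congr 1
        exact Subsingleton.elim _ _
      rw [h2]
      ring
    rw [map_eq_zero_iff _ hinj] at h1
    exact (mul_eq_zero.1 h1).resolve_left hMp
  have hfin := baker_smallP p ω hωsm (fun i => by rw [hωpe]; exact isAlgebraic_coe (hualg i)) hωli
    (((M : PadicAlgCl p) * c₀ : PadicAlgCl p) : ℂ_[p])
    (isAlgebraic_coe ((isAlgebraic_natCast M).mul hc₀)) (fun i => ((c i : PadicAlgCl p) : ℂ_[p]))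
    (fun i => isAlgebraic_coe (hc i)) (by
      have h1 : algebraMap (PadicAlgCl p) ℂ_[p] ((M : PadicAlgCl p) *
          (c₀ + ∑ i, c i * L (α i))) = 0 := by rw [hsum, mul_zero, map_zero]
      rw [← h1, mul_add, map_add, Finset.mul_sum, map_sum]
      congr 1
      apply Finset.sum_congr rfl
      intro i _
      rw [hω]
      simp only
      rw [hLu i, PadicComplex.coe_eq, PadicComplex.coe_eq, ← map_mul]
      congr 1
      ring)
  refine ⟨?_, fun i => ?_⟩
  · have h1 := hfin.1
    rw [PadicComplex.coe_eq, map_eq_zero_iff _ hinj] at h1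
    exact (mul_eq_zero.1 h1).resolve_left hMp
  · have h1 := hfin.2 i
    rw [PadicComplex.coe_eq, map_eq_zero_iff _ hinj] at h1
    exact h1

end Pool.Agent.W245.PB
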