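import Mathlib
import Pool.Agent.W245.PB.BakerThmP
import Pool.Agent.W245.PB.Abs

set_option autoImplicit false
set_option linter.unusedVariables false
set_option linter.unusedSectionVars false

/-!
# The Iwasawa logarithm of integers
-/

namespace Pool.Agent.W245.PB

open Finset Module

theorem padicValRat_prod_zpow {ι : Type*} (l : ℕ) [Fact l.Prime] (s : Finset ι) (f : ι → ℚ)
    (hf : ∀ i ∈ s, f i ≠ 0) (c : ι → ℤ) :
    padicValRat l (∏ i ∈ s, f i ^ c i) = ∑ i ∈ s, c i * padicValRat l (f i) := by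
  classical
  induction s using Finset.induction_on with
  | empty => simp
  | insert i s hi ih =>
    rw [Finset.prod_insert hi, Finset.sum_insert hi, padicValRat.mul
      (zpow_ne_zero _ (hf i (mem_insert_self _ _)))
      (Finset.prod_ne_zero_iff.2 fun j hj => zpow_ne_zero _ (hf j (mem_insert_of_mem hj))),
      ih fun j hj => hf j (mem_insert_of_mem hj), padicValRat.zpow]

/-- Multiplicative independence of quotients of distinct primes modulo one further prime. -/
theorem prime_quot_indep {r : ℕ} (ℓ : ℕ) (hℓ : ℓ.Prime) (p q : Fin r → ℕ) (hp : ∀ i, (p i).Prime)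
    (hq : ∀ i, (q i).Prime) (hinj : Function.Injective (Sum.elim p q)) (c : Fin r → ℤ) (e : ℤ)
    (h : (∏ i, ((q i : ℚ) / (p i : ℚ)) ^ c i) * (ℓ : ℚ) ^ e = 1) : ∀ i, c i = 0 := by
  classical
  intro i
  have hpq : ∀ i j, p i ≠ q j := by
    intro i j hij
    have : (Sum.inl i : Fin r ⊕ Fin r) = Sum.inr j := hinj (by simpa using hij)
    exact absurd this (by simp)
  have hpi : ∀ i j, p i = p j → i = j := by
    intro i j hij
    have : (Sum.inl i : Fin r ⊕ Fin r) = Sum.inl j := hinj (by simpa using hij)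
    exact Sum.inl_injective this
  have hqi : ∀ i j, q i = q j → i = j := by
    intro i j hij
    have : (Sum.inr i : Fin r ⊕ Fin r) = Sum.inr j := hinj (by simpa using hij)
    exact Sum.inr_injective this
  have hp0 : ∀ i, (p i : ℚ) ≠ 0 := fun i => by exact_mod_cast (hp i).ne_zero
  have hq0 : ∀ i, (q i : ℚ) ≠ 0 := fun i => by exact_mod_cast (hq i).ne_zero
  have hval : ∀ (l : ℕ) (hl : l.Prime), l ≠ ℓ →
      ∑ j, c j * ((if q j = l then 1 else 0) - (if p j = l then 1 else 0) : ℤ) = 0 := by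
    intro l hl hne
    have : Fact l.Prime := ⟨hl⟩
    have hv : ∀ s : ℕ, s.Prime → padicValRat l (s : ℚ) = if s = l then 1 else 0 := by
      intro s hs
      rw [padicValRat.of_nat]
      by_cases hsl : s = l
      · subst hsl
        simp [padicValNat_self]
      · rw [if_neg hsl]
        have : Fact s.Prime := ⟨hs⟩
        have := padicValNat_primes (p := l) (q := s) (fun h => hsl h.symm)
        rw [this]
        rfl
    have h1 := congrArg (padicValRat l) h
    rw [padicValRat.mul (Finset.prod_ne_zero_iff.2 fun j _ => zpow_ne_zero _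
      (div_ne_zero (hq0 j) (hp0 j))) (zpow_ne_zero _ (by exact_mod_cast hℓ.ne_zero)),
      padicValRat_prod_zpow l univ _ (fun j _ => div_ne_zero (hq0 j) (hp0 j)), padicValRat.zpow,
      hv ℓ hℓ, if_neg (fun h => hne h.symm), mul_zero, add_zero, padicValRat.one] at h1
    refine Eq.trans ?_ h1
    apply Finset.sum_congr rfl
    intro j _
    rw [padicValRat.div (hq0 j) (hp0 j), hv _ (hq j), hv _ (hp j)]
  by_cases hqℓ : q i = ℓ
  · have hpℓ : p i ≠ ℓ := fun h => hpq i i (h.trans hqℓ.symm)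
    have h1 := hval (p i) (hp i) hpℓ
    rw [Finset.sum_eq_single i] at h1
    · rw [if_neg (fun h => hpq i i h.symm), if_pos rfl] at h1
      linarith
    · intro j _ hj
      rw [if_neg (fun h => hpq i j h.symm), if_neg (fun h => hj (hpi _ _ h))]
      simp
    · intro h; exact absurd (mem_univ _) h
  · have h1 := hval (q i) (hq i) hqℓ
    rw [Finset.sum_eq_single i] at h1
    · rw [if_pos rfl, if_neg (hpq i i)] at h1
      linarith
    · intro j _ hj
      rw [if_neg (fun h => hj (hqi _ _ h)), if_neg (hpq j i)]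
      simp
    · intro h; exact absurd (mem_univ _) h

variable {p : ℕ} [hp : Fact p.Prime] {L : PadicAlgCl p → PadicAlgCl p}

/-- `ℚ`-independence from the absence of integral relations. -/
theorem linearIndependent_of_int {F : Type*} [Field F] [CharZero F] {ι : Type*} [Fintype ι]
    (v : ι → F) (h : ∀ c : ι → ℤ, ∑ i, (c i : F) * v i = 0 → ∀ i, c i = 0) :
    LinearIndependent ℚ v := by
  classical
  rw [Fintype.linearIndependent_iff]
  intro g hg
  obtain ⟨⟨b, hb0⟩, hb⟩ := IsLocalization.exist_integer_multiples_of_finset (nonZeroDivisors ℤ)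
    (univ.image g)
  have hb1 : b ≠ 0 := nonZeroDivisors.ne_zero hb0
  have hb2 : ∀ i, ∃ c : ℤ, (c : ℚ) = b * g i := by
    intro i
    obtain ⟨c, hc⟩ := hb (g i) (mem_image_of_mem _ (mem_univ i))
    exact ⟨c, by simpa using hc⟩
  choose c hc using hb2
  have h1 := h c (by
    have h2 : ∑ i, (c i : F) * v i = (b : F) * ∑ i, g i • v i := by
      rw [Finset.mul_sum]
      apply Finset.sum_congr rfl
      intro i _
      have h3 : ((c i : ℚ) : F) = ((b * g i : ℚ) : F) := by rw [hc i]
      push_cast at h3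
      rw [Algebra.smul_def, eq_ratCast, h3]
      ring
    rw [h2, hg, mul_zero])
  intro i
  have h4 := hc i
  rw [h1 i] at h4
  simp only [Int.cast_zero] at h4
  rcases mul_eq_zero.1 h4.symm with h5 | h5
  · exact absurd (by exact_mod_cast h5) hb1
  · exact h5

theorem IsIwasawaLog.quot_indep (hL : IsIwasawaLog p L) {r : ℕ} (P Q : Fin r → ℕ)
    (hP : ∀ i, (P i).Prime) (hQ : ∀ i, (Q i).Prime) (hinj : Function.Injective (Sum.elim P Q)) :
    LinearIndependent ℚ (fun i => L ((Q i : PadicAlgCl p) / (P i : PadicAlgCl p))) := by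
  classical
  have hpne : (p : PadicAlgCl p) ≠ 0 := Nat.cast_ne_zero.2 hp.out.ne_zero
  have hP0 : ∀ i, (P i : PadicAlgCl p) ≠ 0 := fun i => Nat.cast_ne_zero.2 (hP i).ne_zero
  have hQ0 : ∀ i, (Q i : PadicAlgCl p) ≠ 0 := fun i => Nat.cast_ne_zero.2 (hQ i).ne_zero
  apply linearIndependent_of_int
  intro c hc
  set x : PadicAlgCl p := ∏ i, ((Q i : PadicAlgCl p) / (P i : PadicAlgCl p)) ^ c i with hx
  have hx0 : x ≠ 0 := Finset.prod_ne_zero_iff.2 fun i _ =>
    zpow_ne_zero _ (div_ne_zero (hQ0 i) (hP0 i))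
  have hLx : L x = 0 := by
    rw [hx, hL.prod _ _ (fun i _ => zpow_ne_zero _ (div_ne_zero (hQ0 i) (hP0 i))), ← hc]
    apply Finset.sum_congr rfl
    intro i _
    rw [hL.zpow (div_ne_zero (hQ0 i) (hP0 i))]
  obtain ⟨m, e, hm, hnear⟩ := exists_near hx0
  have h1 := hL.eq_one hnear (by
    rw [hL.mul _ _ (pow_ne_zero _ hx0) (zpow_ne_zero _ hpne), hL.pow hx0, hL.zpow hpne, hLx,
      hL.prime, mul_zero, mul_zero, add_zero])
  have h2 : (∏ i, ((Q i : ℚ) / (P i : ℚ)) ^ (m * c i : ℤ)) * (p : ℚ) ^ e = 1 := by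
    have h3 : ((((∏ i, ((Q i : ℚ) / (P i : ℚ)) ^ (m * c i : ℤ)) * (p : ℚ) ^ e : ℚ)) : PadicAlgCl p)
        = ((1 : ℚ) : PadicAlgCl p) := by
      push_cast
      rw [← h1, hx, ← Finset.prod_pow]
      congr 1
      apply Finset.prod_congr rfl
      intro i _
      rw [← zpow_natCast, ← zpow_mul, mul_comm]
    exact Rat.cast_injective h3
  have h4 := prime_quot_indep p hp.out P Q hP hQ hinj _ e h2
  intro i
  have h5 := h4 i
  rcases mul_eq_zero.1 h5 with h6 | h6
  · exact absurd (by exact_mod_cast h6) hm.ne'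
  · exact h6

/-- The field of algebraic numbers in `PadicAlgCl p`. -/
noncomputable abbrev QbarP (p : ℕ) [Fact p.Prime] := algebraicClosure ℚ (PadicAlgCl p)

instance : IsAlgClosed (QbarP p) := (algebraicClosure.isAlgClosure ℚ (PadicAlgCl p)).isAlgClosed

/-- Brumer's theorem: independence over the algebraic numbers. -/
theorem IsIwasawaLog.indep_of_indep (hL : IsIwasawaLog p L) {ι : Type} [Fintype ι]
    (v : ι → PadicAlgCl p)
    (hv : ∀ i, ∃ α : PadicAlgCl p, α ≠ 0 ∧ IsAlgebraic ℚ α ∧ v i = L α)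
    (hli : LinearIndependent ℚ v) : LinearIndependent (QbarP p) v := by
  choose α hα0 halg hα using hv
  have hveq : v = fun i => L (α i) := funext hα
  rw [hveq] at hli ⊢
  rw [Fintype.linearIndependent_iff]
  intro c hc i
  have h1 := (brumer hL α hα0 halg hli 0 isAlgebraic_zero (fun i => (c i : PadicAlgCl p))
    (fun i => (mem_algebraicClosure_iff).1 (c i).2) (by
      rw [zero_add, ← hc]
      apply Finset.sum_congr rfl
      intro i _
      rw [Algebra.smul_def]
      rfl)).2 i
  exact_mod_cast h1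

theorem IsIwasawaLog.logLike (hL : IsIwasawaLog p L) :
    LogLike (QbarP p) (fun n : ℕ => L (n : PadicAlgCl p)) where
  mul a b ha hb := by
    push_cast
    exact hL.mul _ _ (Nat.cast_ne_zero.2 ha.ne') (Nat.cast_ne_zero.2 hb.ne')
  indep r P Q hP hQ hinj := by
    have hP0 : ∀ i, (P i : PadicAlgCl p) ≠ 0 := fun i => Nat.cast_ne_zero.2 (hP i).ne_zero
    have hQ0 : ∀ i, (Q i : PadicAlgCl p) ≠ 0 := fun i => Nat.cast_ne_zero.2 (hQ i).ne_zero
    have h1 : (fun i => L (Q i : PadicAlgCl p) - L (P i : PadicAlgCl p)) =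
        fun i => L ((Q i : PadicAlgCl p) / (P i : PadicAlgCl p)) := by
      funext i
      rw [div_eq_mul_inv, hL.mul _ _ (hQ0 i) (inv_ne_zero (hP0 i)), hL.inv (hP0 i),
        sub_eq_add_neg]
    rw [h1]
    apply hL.indep_of_indep _ _ (hL.quot_indep P Q hP hQ hinj)
    intro i
    exact ⟨_, div_ne_zero (hQ0 i) (hP0 i), by
      rw [div_eq_mul_inv]
      exact (isAlgebraic_natCast _).mul (isAlgebraic_natCast _).inv, rfl⟩

end Pool.Agent.W245.PB
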