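import Mathlib
import Pool.Agent.W245.PB.Gen
import Pool.Agent.W245.TupleOver

set_option autoImplicit false
set_option linter.unusedSectionVars false
set_option linter.unusedVariables false

/-!
# Infinite sequences in an infinite dimensional space of logarithms, abstract version
-/

namespace Pool.Agent.W245.PB

open Finset Module Pool.Agent.H297R2 Pool.Agent.W245

/-- In an infinite dimensional space there are arbitrarily large independent families. -/
theorem exists_indep' {C : Type} [Field C] [CharZero C] (Λ : Submodule ℚ C)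
    (hΛ : ¬ Module.Finite ℚ Λ) (r : ℕ) :
    ∃ w : Fin r → C, (∀ i, w i ∈ Λ) ∧ LinearIndependent ℚ w := by
  classical
  have h1 : Cardinal.aleph0 ≤ Module.rank ℚ Λ := by
    by_contra h
    push Not at h
    exact hΛ (Module.rank_lt_aleph0_iff.1 h)
  have h2 : (r : Cardinal) ≤ Module.rank ℚ Λ := (Cardinal.natCast_lt_aleph0.le).trans h1
  obtain ⟨s, hs, hli⟩ := exists_set_linearIndependent ℚ Λ
  have h3 : (r : Cardinal) ≤ Cardinal.mk s := by rw [hs]; exact h2
  obtain ⟨e⟩ : Nonempty (Fin r ↪ s) := by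
    rw [← Cardinal.mk_fin, Cardinal.le_def] at h3
    exact h3
  refine ⟨fun i => ((e i : Λ) : C), fun i => (e i : Λ).2, ?_⟩
  exact (hli.comp e e.injective).map' Λ.subtype (Submodule.ker_subtype Λ)

/-- The Baker property of a rational space. -/
def BakerProp (κ : Type*) {C : Type*} [Field κ] [Field C] [CharZero C] [Algebra κ C]
    (Λ : Submodule ℚ C) : Prop :=
  ∀ (r : ℕ) (w : Fin r → C), (∀ i, w i ∈ Λ) → LinearIndependent ℚ w → LinearIndependent κ w

/-- A large space of logarithms contains an element without relations. -/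
theorem exists_noRel {κ C : Type} [Field κ] [IsAlgClosed κ] [CharZero κ] [Field C] [CharZero C]
    [Algebra κ C] (Λ : Submodule ℚ C) (hΛ : ¬ Module.Finite ℚ Λ) (hB : BakerProp κ Λ)
    (W : Submodule κ C) [Module.Finite κ W] (D : ℕ) : ∃ x ∈ Λ, NoRelOver W D x := by
  obtain ⟨r, hr⟩ := cube_over_unif (finrank κ W) D
  obtain ⟨w, hw, hli⟩ := exists_indep' Λ hΛ r
  obtain ⟨S, hS⟩ := hr κ C W inferInstance le_rfl 0 w (hB r w hw hli)
  rw [zero_add] at hS
  exact ⟨_, Submodule.sum_mem _ (fun i _ => hw i), hS⟩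

/-- The construction of chains. -/
theorem exists_chain {K C : Type*} [Field K] [Field C] [Algebra K C] (Λ : Set C)
    (P : Submodule K C → Prop)
    (step : ∀ V : Submodule K C, Module.Finite K V → P V →
      ∃ x ∈ Λ, x ∉ V ∧ P (V ⊔ Submodule.span K {x}))
    (hsup : ∀ U : ℕ → Submodule K C, Monotone U → (∀ n, P (U n)) → P (⨆ n, U n))
    (hne : Λ.Nonempty) (V₀ : Submodule K C) [Module.Finite K V₀] (hV₀ : P V₀) :
    ∃ l : ℕ → C, (∀ i, l i ∈ Λ) ∧
      (∀ i, l i ∉ V₀ ⊔ Submodule.span K (l '' Set.Iio i)) ∧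
      P (V₀ ⊔ Submodule.span K (Set.range l)) := by
  classical
  obtain ⟨x₀, hx₀⟩ := hne
  -- one step
  have step' : ∀ V : Submodule K C, ∃ x : C, x ∈ Λ ∧ (Module.Finite K V → P V →
      x ∉ V ∧ P (V ⊔ Submodule.span K {x})) := by
    intro V
    by_cases h : Module.Finite K V ∧ P V
    · obtain ⟨h1, h2⟩ := h
      obtain ⟨x, hx, hx1, hx2⟩ := step V h1 h2
      exact ⟨x, hx, fun _ _ => ⟨hx1, hx2⟩⟩
    · exact ⟨x₀, hx₀, fun h1 h2 => absurd ⟨h1, h2⟩ h⟩
  choose g hg1 hg2 using step'
  -- the chain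
  obtain ⟨U, hU0, hUs⟩ : ∃ U : ℕ → Submodule K C, U 0 = V₀ ∧
      ∀ n, U (n + 1) = U n ⊔ Submodule.span K {g (U n)} :=
    ⟨fun n => Nat.rec V₀ (fun _ V => V ⊔ Submodule.span K {g V}) n, rfl, fun n => rfl⟩
  have hUfin : ∀ n, Module.Finite K (U n) := by
    intro n
    induction n with
    | zero => rw [hU0]; infer_instance
    | succ n ih => rw [hUs]; infer_instance
  have hUgood : ∀ n, P (U n) := by
    intro n
    induction n with
    | zero => rw [hU0]; exact hV₀
    | succ n ih => rw [hUs]; exact (hg2 (U n) (hUfin n) ih).2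
  have hUmono : Monotone U := monotone_nat_of_le_succ (fun n => by rw [hUs]; exact le_sup_left)
  have hUeq : ∀ n, U n = V₀ ⊔ Submodule.span K ((fun n => g (U n)) '' Set.Iio n) := by
    intro n
    induction n with
    | zero =>
      rw [hU0]
      have : (Set.Iio 0 : Set ℕ) = ∅ := by ext; simp
      rw [this, Set.image_empty, Submodule.span_empty, sup_bot_eq]
    | succ n ih =>
      rw [hUs]
      have : (Set.Iio (n + 1) : Set ℕ) = Set.Iio n ∪ {n} := by ext; simp
      rw [this, Set.image_union, Set.image_singleton, Submodule.span_union, ← sup_assoc, ← ih]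
  refine ⟨fun n => g (U n), fun n => hg1 _, fun n => ?_, ?_⟩
  · rw [← hUeq n]
    exact (hg2 (U n) (hUfin n) (hUgood n)).1
  · have h1 : V₀ ⊔ Submodule.span K (Set.range fun n => g (U n)) = ⨆ n, U n := by
      apply le_antisymm
      · apply sup_le
        · exact (le_of_eq hU0.symm).trans (le_iSup U 0)
        · rw [Submodule.span_le]
          rintro _ ⟨n, rfl⟩
          have h2 : g (U n) ∈ U (n + 1) := by
            rw [hUs]
            exact Submodule.mem_sup_right (Submodule.mem_span_singleton_self _)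
          exact (le_iSup U (n + 1)) h2
      · apply iSup_le
        intro n
        rw [hUeq n]
        exact sup_le_sup_left (Submodule.span_mono (Set.image_subset_range _ _)) _
    rw [h1]
    exact hsup U hUmono hUgood

/-- Finitely many elements of the union of a chain lie in one member. -/
theorem mem_chain {K C : Type*} [Field K] [Field C] [Algebra K C] (U : ℕ → Submodule K C)
    (hmono : Monotone U) {n : ℕ} (M : Matrix (Fin n) (Fin n) C) (hM : ∀ i j, M i j ∈ ⨆ n, U n) :
    ∃ N, ∀ i j, M i j ∈ U N := by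
  classical
  have h1 : ∀ i j, ∃ N, M i j ∈ U N := by
    intro i j
    exact (Submodule.mem_iSup_of_directed U hmono.directed_le).1 (hM i j)
  choose N hN using h1
  refine ⟨(univ : Finset (Fin n)).sup (fun i => (univ : Finset (Fin n)).sup (fun j => N i j)),
    fun i j => ?_⟩
  apply hmono _ (hN i j)
  exact (Finset.le_sup (f := fun j => N i j) (Finset.mem_univ j)).trans
    (Finset.le_sup (f := fun i => (univ : Finset (Fin n)).sup (fun j => N i j)) (Finset.mem_univ i))

/-- **Infinite extension, zero coefficient property.** -/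
theorem infinite_goodZ {κ C : Type} [Field κ] [IsAlgClosed κ] [CharZero κ] [Field C] [CharZero C]
    [Algebra κ C] (Λ : Submodule ℚ C) (hΛ : ¬ Module.Finite ℚ Λ) (hB : BakerProp κ Λ)
    (V₀ : Submodule ℚ C) [Module.Finite ℚ V₀] (hV₀ : SingularHasZero V₀) :
    ∃ l : ℕ → C, (∀ i, l i ∈ Λ) ∧
      (∀ i, l i ∉ V₀ ⊔ Submodule.span ℚ (l '' Set.Iio i)) ∧
      SingularHasZero (V₀ ⊔ Submodule.span ℚ (Set.range l)) := by
  apply exists_chain (Λ : Set C) (fun V => SingularHasZero V) ?_ ?_ ⟨0, Λ.zero_mem⟩ V₀ hV₀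
  · intro V hVf hV
    have h0 := affSpan_finite (κ := κ) V
    obtain ⟨h2, h3⟩ := finrank_pow_le (affSpan κ V)
      (finrank ℚ V + 1) (finrank_affSpan_le V) (finrank ℚ V + 1)
    obtain ⟨x, hx, hx1⟩ := exists_noRel (κ := κ) Λ hΛ hB
      (affSpan κ V ^ (finrank ℚ V + 1)) (finrank ℚ V + 1)
    exact ⟨x, hx, not_mem_of_noRelOver' hx1, extend V hV _ hx1⟩
  · intro U hmono hU n hn M hM hdet
    obtain ⟨N, hN⟩ := mem_chain U hmono M hM
    exact hU N n hn M hN hdet

/-- **Infinite extension, strong four exponentials.** -/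
theorem infinite_goodF {κ C : Type} [Field κ] [IsAlgClosed κ] [CharZero κ] [Field C] [CharZero C]
    [Algebra κ C] (Λ : Submodule ℚ C) (hΛ : ¬ Module.Finite ℚ Λ) (hB : BakerProp κ Λ)
    (V₀ : Submodule κ C) [Module.Finite κ V₀] (hV₀ : StrongFour V₀) :
    ∃ l : ℕ → C, (∀ i, l i ∈ Λ) ∧
      (∀ i, l i ∉ V₀ ⊔ Submodule.span κ (l '' Set.Iio i)) ∧
      StrongFour (V₀ ⊔ Submodule.span κ (Set.range l)) := by
  apply exists_chain (Λ : Set C) (fun V => StrongFour V) ?_ ?_ ⟨0, Λ.zero_mem⟩ V₀ hV₀
  · intro V hVf hV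
    obtain ⟨h2, h3⟩ := coefSp_finite V _ le_rfl
    obtain ⟨x, hx, hx1⟩ := exists_noRel (κ := κ) Λ hΛ hB (coefSp V) 2
    exact ⟨x, hx, not_mem_of_coefSp hx1, four_extend V hV _ hx1⟩
  · intro U hmono hU M hM hdet
    obtain ⟨N, hN⟩ := mem_chain U hmono M hM
    exact hU N M hN hdet

/-! ### Sequences without relations -/

section Seq

variable {κ C : Type*} [Field κ] [Field C] [Algebra κ C]

/-- No polynomial relation of degree at most `D i` in the `i`-th variable, coefficients in `W`. -/
def NoRelP (W : Submodule κ C) {k : ℕ} (D : Fin k → ℕ) (y : Fin k → C) : Prop :=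
  ∀ Q : MvPolynomial (Fin k) C, (∀ i, Q.degreeOf i ≤ D i) → (∀ s, Q.coeff s ∈ W) →
    MvPolynomial.eval y Q = 0 → Q = 0

theorem NoRelP.zero (W : Submodule κ C) (D : Fin 0 → ℕ) (y : Fin 0 → C) : NoRelP W D y := by
  intro Q _ _ h0
  rw [MvPolynomial.eq_C_of_isEmpty Q] at h0 ⊢
  rw [MvPolynomial.eval_C] at h0
  rw [h0, map_zero]

theorem NoRelP.cons {W : Submodule κ C} {d k : ℕ} {b : C} {D : Fin k → ℕ} {y : Fin k → C}
    (hb : NoRelOver W d b) (hy : NoRelP (powExt W d b) D y) :
    NoRelP W (Fin.cons d D : Fin (k + 1) → ℕ) (Fin.cons b y : Fin (k + 1) → C) := by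
  classical
  intro Q hdeg hW h0
  -- the polynomial in the last variables
  set Q' : MvPolynomial (Fin k) C :=
    Polynomial.eval (MvPolynomial.C b) (MvPolynomial.finSuccEquiv C k Q) with hQ'
  have hnat : (MvPolynomial.finSuccEquiv C k Q).natDegree < d + 1 := by
    rw [MvPolynomial.natDegree_finSuccEquiv]
    exact Nat.lt_succ_of_le (by simpa using hdeg 0)
  have hcoef : ∀ s : Fin k →₀ ℕ, Q'.coeff s = ∑ j ∈ range (d + 1), Q.coeff (Finsupp.cons j s) * b ^ j := by
    intro s
    rw [hQ', Polynomial.eval_eq_sum_range' hnat, MvPolynomial.coeff_sum]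
    apply Finset.sum_congr rfl
    intro j _
    rw [← map_pow, mul_comm, MvPolynomial.coeff_C_mul, MvPolynomial.finSuccEquiv_coeff_coeff,
      mul_comm]
  have hz : Q' = 0 := by
    apply hy Q'
    · intro i
      rw [MvPolynomial.degreeOf_le_iff]
      intro s hs
      rw [MvPolynomial.mem_support_iff, hcoef] at hs
      obtain ⟨j, _, hj⟩ := Finset.exists_ne_zero_of_sum_ne_zero hs
      have h1 : Q.coeff (Finsupp.cons j s) ≠ 0 := fun h => hj (by rw [h, zero_mul])
      have h2 := (MvPolynomial.degreeOf_le_iff.1 (hdeg i.succ)) _ (MvPolynomial.mem_support_iff.2 h1)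
      simpa using h2
    · intro s
      rw [hcoef]
      apply Submodule.sum_mem
      intro j hj
      exact Submodule.mul_mem_mul (hW _) (Submodule.subset_span ⟨⟨j, Finset.mem_range.1 hj⟩, rfl⟩)
    · rw [← h0, hQ', MvPolynomial.eval_eq_eval_mv_eval', Polynomial.eval_eq_sum_range' hnat,
        map_sum]
      have hnat' : (Polynomial.map (MvPolynomial.eval y) (MvPolynomial.finSuccEquiv C k Q)).natDegree < d + 1 :=
        lt_of_le_of_lt Polynomial.natDegree_map_le hnat
      rw [Polynomial.eval_eq_sum_range' hnat']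
      apply Finset.sum_congr rfl
      intro j _
      rw [Polynomial.coeff_map, map_mul, map_pow, MvPolynomial.eval_C]
  ext m
  rw [MvPolynomial.coeff_zero]
  obtain ⟨j, s, rfl⟩ : ∃ j s, m = Finsupp.cons j s := ⟨m 0, m.tail, (Finsupp.cons_tail m).symm⟩
  by_cases hj : j < d + 1
  · have h1 := hb (fun j => Q.coeff (Finsupp.cons (j : ℕ) s)) (fun j => hW _) (by
      have h2 := hcoef s
      rw [hz, MvPolynomial.coeff_zero, Finset.sum_range] at h2
      exact h2.symm) ⟨j, hj⟩
    exact h1
  · by_contra hne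
    have h2 := (MvPolynomial.degreeOf_le_iff.1 (hdeg 0)) _ (MvPolynomial.mem_support_iff.2 hne)
    simp only [Finsupp.cons_zero, Fin.cons_zero] at h2
    omega

/-- **Infinite sequences without relations of bounded degrees.** -/
theorem infinite_noRel {κ C : Type} [Field κ] [IsAlgClosed κ] [CharZero κ] [Field C] [CharZero C]
    [Algebra κ C] (Λ : Submodule ℚ C) (hΛ : ¬ Module.Finite ℚ Λ) (hB : BakerProp κ Λ)
    (W : Submodule κ C) [hW : Module.Finite κ W] (D : ℕ → ℕ) :
    ∃ l : ℕ → C, (∀ i, l i ∈ Λ) ∧ ∀ k : ℕ, NoRelP W (fun i : Fin k => D i) (fun i => l i) := by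
  classical
  have step : ∀ (n : ℕ) (W : Submodule κ C), ∃ x : C, x ∈ Λ ∧ (Module.Finite κ W →
      NoRelOver W (D n) x) := by
    intro n W
    by_cases h : Module.Finite κ W
    · obtain ⟨x, hx, hx1⟩ := exists_noRel (κ := κ) Λ hΛ hB W (D n)
      exact ⟨x, hx, fun _ => hx1⟩
    · exact ⟨0, Λ.zero_mem, fun h1 => absurd h1 h⟩
  choose g hg1 hg2 using step
  obtain ⟨U, hU0, hUs⟩ : ∃ U : ℕ → Submodule κ C, U 0 = W ∧
      ∀ n, U (n + 1) = powExt (U n) (D n) (g n (U n)) :=
    ⟨fun n => Nat.rec W (fun n V => powExt V (D n) (g n V)) n, rfl, fun n => rfl⟩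
  have hUfin : ∀ n, Module.Finite κ (U n) := by
    intro n
    induction n with
    | zero => rw [hU0]; exact hW
    | succ n ih => rw [hUs]; exact (powExt_finite (U n) _ le_rfl _ _).1
  refine ⟨fun n => g n (U n), fun n => hg1 _ _, ?_⟩
  -- blocks
  have hblock : ∀ k m : ℕ, NoRelP (U m) (fun i : Fin k => D (m + i))
      (fun i => g (m + i) (U (m + i))) := by
    intro k
    induction k with
    | zero => intro m; exact NoRelP.zero _ _ _
    | succ k ih =>
      intro m
      have h1 := ih (m + 1)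
      rw [hUs m] at h1
      have h2 := NoRelP.cons (hg2 m (U m) (hUfin m)) h1
      have e1 : (Fin.cons (D m) (fun i : Fin k => D (m + 1 + i)) : Fin (k + 1) → ℕ) =
          fun i : Fin (k + 1) => D (m + i) := by
        funext i
        refine Fin.cases ?_ (fun j => ?_) i
        · simp
        · simp only [Fin.cons_succ, Fin.val_succ]
          congr 1
          omega
      have e2 : (Fin.cons (g m (U m)) (fun i : Fin k => g (m + 1 + i) (U (m + 1 + i))) :
          Fin (k + 1) → C) = fun i : Fin (k + 1) => g (m + i) (U (m + i)) := by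
        funext i
        refine Fin.cases ?_ (fun j => ?_) i
        · simp
        · simp only [Fin.cons_succ, Fin.val_succ]
          have e3 : m + 1 + (j : ℕ) = m + (j + 1) := by omega
          rw [e3]
      rw [e1, e2] at h2
      exact h2
  intro k
  have h1 := hblock k 0
  simp only [zero_add] at h1
  rw [hU0] at h1
  exact h1

end Seq

end Pool.Agent.W245.PB
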