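import Mathlib
import Pool.Agent.W245.PB.Gen
import Pool.Agent.W245.PB.PLog

set_option autoImplicit false

/-!
# Small spaces of `p`-adic logarithms have the zero coefficient property
-/

namespace Pool.Agent.W245.PB

open Module

theorem small_of_logs {p : ℕ} [Fact p.Prime] {L : PadicAlgCl p → PadicAlgCl p}
    (hL : IsIwasawaLog p L) (V : Submodule ℚ (PadicAlgCl p)) [Module.Finite ℚ V]
    (hV : ∀ x ∈ V, ∃ α : PadicAlgCl p, α ≠ 0 ∧ IsAlgebraic ℚ α ∧ x = L α)
    (h2 : finrank ℚ V ≤ 2) : Pool.Agent.W245.SingularHasZero V := by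
  apply gen_small V _ h2
  intro x hx y hy hli halg
  have h1 := hL.indep_of_indep ![x, y] (by
    intro i
    fin_cases i
    · exact hV x hx
    · exact hV y hy) hli
  have hy0 : y ≠ 0 := by
    have := hli.ne_zero 1
    simpa using this
  rw [LinearIndependent.pair_iff] at h1
  have h3 := h1 (-1) ⟨x / y, mem_algebraicClosure_iff.2 halg⟩ (by
    rw [Algebra.smul_def, Algebra.smul_def]
    change algebraMap _ (PadicAlgCl p) (-1) * x + (x / y) * y = 0
    rw [map_neg, map_one]
    field_simp
    ring)
  exact absurd h3.1 (by simp)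

end Pool.Agent.W245.PB
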