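import Mathlib
import Pool.Agent.W245.PB.Inf

set_option autoImplicit false
set_option linter.unusedSectionVars false
set_option linter.unusedVariables false

/-!
# Singular `2 × 2` matrices: no new ones after adjoining a generic logarithm
-/

namespace Pool.Agent.W245.PB

open Finset Module Pool.Agent.H297R2 Pool.Agent.W245

section Rel

variable {K κ C : Type*} [Field K] [Field κ] [Field C] [Algebra K C] [Algebra κ C] [Algebra K κ]
  [IsScalarTower K κ C]

/-- A singular `2 × 2` matrix with entries in `V'` has all its entries in `V`, or `K`-dependent rows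
or `K`-dependent columns. -/
def RelFour (V V' : Submodule K C) : Prop :=
  ∀ M : Matrix (Fin 2) (Fin 2) C, (∀ i j, M i j ∈ V') → M.det = 0 →
    (∀ i j, M i j ∈ V) ∨
    (∃ a b : K, (a ≠ 0 ∨ b ≠ 0) ∧ ∀ j, a • M 0 j + b • M 1 j = 0) ∨
    (∃ a b : K, (a ≠ 0 ∨ b ≠ 0) ∧ ∀ i, a • M i 0 + b • M i 1 = 0)

theorem RelFour.refl (V : Submodule K C) : RelFour V V := fun _ hM _ => Or.inl hM

/-- The space over the larger field. -/
def hull (κ : Type*) {K C : Type*} [Field K] [Field κ] [Field C] [Algebra K C] [Algebra κ C]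
    (V : Submodule K C) : Submodule κ C := Submodule.span κ (V : Set C)

theorem mem_hull {V : Submodule K C} {x : C} (hx : x ∈ V) : x ∈ hull κ V :=
  Submodule.subset_span hx

theorem hull_eq (V : Submodule K C) [Module.Finite K V] :
    hull κ V = Submodule.span κ (Set.range
      (fun i : Fin (finrank K V) => (Module.finBasis K V i : C))) := by
  apply le_antisymm
  · rw [hull, Submodule.span_le]
    intro x hx
    have h1 := (Module.finBasis K V).sum_repr ⟨x, hx⟩
    have h2 : ∑ i, ((Module.finBasis K V).repr ⟨x, hx⟩ i) • (Module.finBasis K V i : C) = x := by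
      have := congrArg V.subtype h1
      rw [map_sum] at this
      exact this
    rw [← h2]
    apply Submodule.sum_mem
    intro i _
    rw [← algebraMap_smul κ ((Module.finBasis K V).repr ⟨x, hx⟩ i) (Module.finBasis K V i : C)]
    exact Submodule.smul_mem _ _ (Submodule.subset_span ⟨i, rfl⟩)
  · rw [Submodule.span_le]
    rintro _ ⟨i, rfl⟩
    exact mem_hull (Module.finBasis K V i).2

theorem hull_finite (V : Submodule K C) [Module.Finite K V] : Module.Finite κ (hull κ V) := by
  rw [hull_eq]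
  exact FiniteDimensional.span_of_finite κ (Set.finite_range _)

theorem finrank_hull_le (V : Submodule K C) [Module.Finite K V] :
    finrank κ (hull κ V) ≤ finrank K V := by
  rw [hull_eq]
  refine (finrank_range_le_card _).trans ?_
  simp

theorem coefHull_finite (V : Submodule K C) [Module.Finite K V] (m : ℕ) (hm : finrank K V ≤ m) :
    Module.Finite κ (coefSp (hull κ V)) ∧ finrank κ (coefSp (hull κ V)) ≤ (m + 1) ^ 2 := by
  have h0 := hull_finite (κ := κ) V
  exact coefSp_finite (hull κ V) m ((finrank_hull_le V).trans hm)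

theorem not_mem_of_coefHull {V : Submodule K C} {x : C} (hx : NoRelOver (coefSp (hull κ V)) 2 x) :
    x ∉ V := fun h => not_mem_of_coefSp hx (mem_hull h)

/-- **No new singular matrices.** -/
theorem RelFour.extend {V V' : Submodule K C} (hV : RelFour V V') (x : C)
    (hx : NoRelOver (coefSp (hull κ V')) 2 x) : RelFour V (V' ⊔ Submodule.span K {x}) := by
  intro M hM hdet
  have h1 : ∀ i j, ∃ a : C, ∃ b : K, a ∈ V' ∧ M i j = a + x * algebraMap K C b := by
    intro i j
    obtain ⟨a, ha, c, hc, hac⟩ := Submodule.mem_sup.1 (hM i j)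
    obtain ⟨b, rfl⟩ := Submodule.mem_span_singleton.1 hc
    refine ⟨a, b, ha, ?_⟩
    rw [← hac, Algebra.smul_def, mul_comm]
  choose A B hA hAB using h1
  have halg : ∀ b : K, algebraMap K C b = algebraMap κ C (algebraMap K κ b) := by
    intro b
    exact IsScalarTower.algebraMap_apply K κ C b
  have hA' : ∀ i j, A i j ∈ hull κ V' := fun i j => mem_hull (hA i j)
  have hV2 : ∀ a ∈ hull κ V', ∀ b ∈ hull κ V', a * b ∈ coefSp (hull κ V') := by
    intro a ha b hb
    unfold coefSp
    rw [pow_two]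
    exact Submodule.mul_mem_mul (Submodule.mem_sup_left ha) (Submodule.mem_sup_left hb)
  have hone : (1 : C) ∈ (hull κ V' ⊔ 1 : Submodule κ C) :=
    Submodule.mem_sup_right (Submodule.one_le.1 le_rfl)
  have hV1 : ∀ a ∈ hull κ V', ∀ b : K, a * algebraMap K C b ∈ coefSp (hull κ V') := by
    intro a ha b
    have h2 : a * 1 ∈ coefSp (hull κ V') := by
      unfold coefSp
      rw [pow_two]
      exact Submodule.mul_mem_mul (Submodule.mem_sup_left ha) hone
    have h3 := Submodule.smul_mem _ (algebraMap K κ b) h2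
    rw [Algebra.smul_def, mul_one, mul_comm, ← halg] at h3
    exact h3
  have hV0 : ∀ b : K, algebraMap K C b ∈ coefSp (hull κ V') := by
    intro b
    have h2 : (1 : C) * 1 ∈ coefSp (hull κ V') := by
      unfold coefSp
      rw [pow_two]
      exact Submodule.mul_mem_mul hone hone
    have h3 := Submodule.smul_mem _ (algebraMap K κ b) h2
    rw [Algebra.smul_def, mul_one, mul_one, ← halg] at h3
    exact h3
  set c0 : C := A 0 0 * A 1 1 - A 0 1 * A 1 0 with hc0
  set c1 : C := A 0 0 * algebraMap K C (B 1 1) + algebraMap K C (B 0 0) * A 1 1 -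
      A 0 1 * algebraMap K C (B 1 0) - algebraMap K C (B 0 1) * A 1 0 with hc1
  set c2 : C := algebraMap K C (B 0 0 * B 1 1 - B 0 1 * B 1 0) with hc2
  have hrel := hx ![c0, c1, c2] (by
    intro j
    fin_cases j
    · exact Submodule.sub_mem _ (hV2 _ (hA' _ _) _ (hA' _ _)) (hV2 _ (hA' _ _) _ (hA' _ _))
    · refine Submodule.sub_mem _ (Submodule.sub_mem _ (Submodule.add_mem _ (hV1 _ (hA' _ _) _) ?_)
        (hV1 _ (hA' _ _) _)) ?_
      · rw [mul_comm]; exact hV1 _ (hA' _ _) _
      · rw [mul_comm]; exact hV1 _ (hA' _ _) _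
    · exact hV0 _) (by
    rw [Matrix.det_fin_two, hAB 0 0, hAB 1 1, hAB 0 1, hAB 1 0] at hdet
    rw [Fin.sum_univ_three]
    have e0 : (![c0, c1, c2] : Fin 3 → C) 0 = c0 := rfl
    have e1 : (![c0, c1, c2] : Fin 3 → C) 1 = c1 := rfl
    have e2 : (![c0, c1, c2] : Fin 3 → C) 2 = c2 := rfl
    rw [e0, e1, e2]
    simp only [Fin.val_zero, Fin.val_one, Fin.val_two, pow_zero, pow_one, mul_one]
    rw [hc2, map_sub, map_mul, map_mul]
    linear_combination hdet)
  have e0 : c0 = 0 := hrel 0
  have e1 : c1 = 0 := hrel 1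
  have e2 : c2 = 0 := hrel 2
  have hBdet : B 0 0 * B 1 1 - B 0 1 * B 1 0 = 0 := by
    rw [hc2, FaithfulSMul.algebraMap_eq_zero_iff] at e2
    exact e2
  obtain ⟨v, β, hvβ⟩ := rank_one_form B hBdet
  by_cases hB : (∃ i, v i ≠ 0) ∧ (∃ j, β j ≠ 0)
  · right
    obtain ⟨⟨i₀, hi₀⟩, ⟨j₀, hj₀⟩⟩ := hB
    simp only [hvβ, map_mul] at e1 hc1
    have hvn : v 0 ≠ 0 ∨ v 1 ≠ 0 := by
      fin_cases i₀
      · exact Or.inl hi₀
      · exact Or.inr hi₀
    have hβn : β 0 ≠ 0 ∨ β 1 ≠ 0 := by
      fin_cases j₀
      · exact Or.inl hj₀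
      · exact Or.inr hj₀
    -- `p = A β^⊥` and `q = v^⊥ A`
    set p : Fin 2 → C := fun i => A i 0 * algebraMap K C (β 1) - A i 1 * algebraMap K C (β 0) with hp
    set q : Fin 2 → C := fun j => algebraMap K C (v 1) * A 0 j - algebraMap K C (v 0) * A 1 j with hq
    have hpq : ∀ i j, p i * q j = 0 := by
      intro i j
      rw [hc1] at e1
      rw [hc0] at e0
      fin_cases i <;> fin_cases j
      · show (A 0 0 * algebraMap K C (β 1) - A 0 1 * algebraMap K C (β 0)) *
          (algebraMap K C (v 1) * A 0 0 - algebraMap K C (v 0) * A 1 0) = 0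
        linear_combination (A 0 0) * e1 - (algebraMap K C (v 0) * algebraMap K C (β 0)) * e0
      · show (A 0 0 * algebraMap K C (β 1) - A 0 1 * algebraMap K C (β 0)) *
          (algebraMap K C (v 1) * A 0 1 - algebraMap K C (v 0) * A 1 1) = 0
        linear_combination (A 0 1) * e1 - (algebraMap K C (v 0) * algebraMap K C (β 1)) * e0
      · show (A 1 0 * algebraMap K C (β 1) - A 1 1 * algebraMap K C (β 0)) *
          (algebraMap K C (v 1) * A 0 0 - algebraMap K C (v 0) * A 1 0) = 0
        linear_combination (A 1 0) * e1 - (algebraMap K C (v 1) * algebraMap K C (β 0)) * e0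
      · show (A 1 0 * algebraMap K C (β 1) - A 1 1 * algebraMap K C (β 0)) *
          (algebraMap K C (v 1) * A 0 1 - algebraMap K C (v 0) * A 1 1) = 0
        linear_combination (A 1 1) * e1 - (algebraMap K C (v 1) * algebraMap K C (β 1)) * e0
    by_cases hp0 : ∀ i, p i = 0
    · right
      refine ⟨β 1, -β 0, ?_, fun i => ?_⟩
      · rcases hβn with h | h
        · right; simpa using h
        · left; exact h
      · have h2 := hp0 i
        rw [Algebra.smul_def, Algebra.smul_def, map_neg, hAB i 0, hAB i 1, hvβ, hvβ, map_mul, map_mul]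
        rw [hp] at h2
        simp only at h2
        linear_combination h2
    · left
      push Not at hp0
      obtain ⟨i, hi⟩ := hp0
      have hq0 : ∀ j, q j = 0 := fun j => (mul_eq_zero.1 (hpq i j)).resolve_left hi
      refine ⟨v 1, -v 0, ?_, fun j => ?_⟩
      · rcases hvn with h | h
        · right; simpa using h
        · left; exact h
      · have h2 := hq0 j
        rw [Algebra.smul_def, Algebra.smul_def, map_neg, hAB 0 j, hAB 1 j, hvβ, hvβ, map_mul, map_mul]
        rw [hq] at h2
        simp only at h2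
        linear_combination h2
  · -- `B = 0`
    have hB0 : ∀ i j, B i j = 0 := by
      intro i j
      rw [hvβ]
      by_contra hne
      exact hB ⟨⟨i, left_ne_zero_of_mul hne⟩, ⟨j, right_ne_zero_of_mul hne⟩⟩
    apply hV M
    · intro i j
      rw [hAB, hB0, map_zero, mul_zero, add_zero]
      exact hA i j
    · exact hdet

end Rel

/-- The good tuples. -/
def GoodR {K C : Type*} [Field K] [Field C] [Algebra K C] (V V' : Submodule K C) (lg : ℕ → C)
    {k : ℕ} (a : Fin k → ℕ) : Prop :=
  RelFour V (V' ⊔ Submodule.span K (Set.range fun i => lg (a i))) ∧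
  finrank K (V' ⊔ Submodule.span K (Set.range fun i => lg (a i)) : Submodule K C) =
    finrank K V' + k

/-- The uniform density theorem for tuples. -/
theorem density_goodR (k : ℕ) : ∀ (m : ℕ) (ε : ℝ), 0 < ε →
    ∃ x₀ : ℕ, ∀ x ≥ x₀, ∀ (K κ C : Type) [Field K] [Field κ] [IsAlgClosed κ] [CharZero κ] [Field C]
      [Algebra K C] [Algebra κ C] [Algebra K κ] [IsScalarTower K κ C] (lg : ℕ → C), LogLike κ lg →
      ∀ V V' : Submodule K C, Module.Finite K V' → finrank K V' ≤ m → RelFour V V' →
      ∀ B : Finset (Fin k → ℕ),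
      B ⊆ Fintype.piFinset (fun _ : Fin k => Ioc 0 x) → (∀ a ∈ B, ¬ GoodR V V' lg a) →
      (B.card : ℝ) ≤ ε * x ^ k := by
  classical
  induction k with
  | zero =>
    intro m ε hε
    refine ⟨0, fun x _ K κ C _ _ _ _ _ _ _ _ _ lg hlg V V' hVf hVm hV B hB hbad => ?_⟩
    have : B = ∅ := by
      rw [Finset.eq_empty_iff_forall_notMem]
      intro a ha
      apply hbad a ha
      unfold GoodR
      have : Submodule.span K (Set.range fun i : Fin 0 => lg (a i)) = ⊥ := by
        rw [Set.range_eq_empty, Submodule.span_empty]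
      rw [this, sup_bot_eq]
      exact ⟨hV, rfl⟩
    rw [this]
    simp [hε.le]
  | succ k ih =>
    intro m ε hε
    obtain ⟨x₁, hx₁⟩ := density_one ((m + 1) ^ 2) 2 (ε / 2) (by linarith)
    obtain ⟨x₂, hx₂⟩ := ih (m + 1) (ε / 2) (by linarith)
    refine ⟨max x₁ x₂, fun x hx K κ C _ _ _ _ _ _ _ _ _ lg hlg V V' hVf hVm hV B hB hbad => ?_⟩
    obtain ⟨h2, h3⟩ := coefHull_finite (κ := κ) V' m hVm
    refine count_cons k x ε hε (fun a => ¬ GoodR V V' lg a)
      ((Ioc 0 x).filter (fun n => ¬ NoRelOver (coefSp (hull κ V')) 2 (lg n)))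
      (Finset.filter_subset _ _) ?_ ?_ B hB hbad
    · exact hx₁ x (le_trans (le_max_left _ _) hx) κ C lg hlg _ h2 h3 _ (Finset.filter_subset _ _)
        (fun n hn => (Finset.mem_filter.1 hn).2)
    · intro a ha haA B' hB' hbad'
      have hta : NoRelOver (coefSp (hull κ V')) 2 (lg a) := by
        by_contra hcon
        exact haA (Finset.mem_filter.2 ⟨ha, hcon⟩)
      have hrk := finrank_sup_span_singleton' (K := K) (not_mem_of_coefHull (κ := κ) hta)
      apply hx₂ x (le_trans (le_max_right _ _) hx) K κ C lg hlg V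
        (V' ⊔ Submodule.span K {lg a}) inferInstance (by rw [hrk]; omega)
        (hV.extend _ hta) B' hB'
      intro n hn hg
      apply hbad' n hn
      unfold GoodR
      rw [span_cons]
      refine ⟨hg.1, ?_⟩
      rw [hg.2, hrk]
      ring

/-- **Infinite extension, no new singular matrices.** -/
theorem infinite_goodR {K κ C : Type} [Field K] [Field κ] [IsAlgClosed κ] [CharZero κ] [Field C]
    [CharZero C] [Algebra K C] [Algebra κ C] [Algebra K κ] [IsScalarTower K κ C]
    (Λ : Submodule ℚ C) (hΛ : ¬ Module.Finite ℚ Λ)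
    (hB : BakerProp κ Λ) (V : Submodule K C) [Module.Finite K V] :
    ∃ l : ℕ → C, (∀ i, l i ∈ Λ) ∧
      (∀ i, l i ∉ V ⊔ Submodule.span K (l '' Set.Iio i)) ∧
      RelFour V (V ⊔ Submodule.span K (Set.range l)) := by
  apply exists_chain (Λ : Set C) (fun V' => RelFour V V') ?_ ?_ ⟨0, Λ.zero_mem⟩ V (RelFour.refl V)
  · intro V' hVf hV
    obtain ⟨h2, h3⟩ := coefHull_finite (κ := κ) V' _ le_rfl
    obtain ⟨x, hx, hx1⟩ := exists_noRel (κ := κ) Λ hΛ hB (coefSp (hull κ V')) 2
    exact ⟨x, hx, not_mem_of_coefHull hx1, hV.extend _ hx1⟩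
  · intro U hmono hU M hM hdet
    obtain ⟨N, hN⟩ := mem_chain U hmono M hM
    exact hU N M hN hdet

end Pool.Agent.W245.PB
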