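import Mathlib
import Pool.Agent.W245.PB.RelFour
import Pool.Agent.W245.DensityExt

set_option autoImplicit false

/-!
# The complex logarithm as a special case
-/

namespace Pool.Agent.W245.PB

open Finset Module Complex Pool.Agent.H297R2 Pool.Agent.W245

instance instIsAlgClosedQbar : IsAlgClosed (algebraicClosure ℚ ℂ) :=
  (algebraicClosure.isAlgClosure ℚ ℂ).isAlgClosed

theorem logLike_complex : LogLike (algebraicClosure ℚ ℂ) (fun n : ℕ => (Real.log n : ℂ)) where
  mul a b ha hb := by
    have ha' : (a : ℝ) ≠ 0 := by exact_mod_cast ha.ne'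
    have hb' : (b : ℝ) ≠ 0 := by exact_mod_cast hb.ne'
    show (Real.log ((a * b : ℕ) : ℝ) : ℂ) = (Real.log a : ℂ) + (Real.log b : ℂ)
    push_cast
    rw [Real.log_mul ha' hb']
    push_cast
    rfl
  indep r p q hp hq hinj := by
    set P : Fin r ⊕ Fin r → ℕ := Sum.elim p q with hPdef
    have hPprime : ∀ i, (P i).Prime := by
      rintro (i | i)
      · exact hp i
      · exact hq i
    have hli := linearIndependent_log_prime P hPprime hinj
    rw [Fintype.linearIndependent_iff]
    intro c hc
    have h1 := baker (fun i => (Real.log (P i) : ℂ)) (by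
      intro i
      rw [← Complex.ofReal_exp, Real.exp_log (by exact_mod_cast (hPprime i).pos)]
      rw [Complex.ofReal_natCast]
      exact isAlgebraic_natCast _) hli (Sum.elim (fun i => -(c i : ℂ)) (fun i => (c i : ℂ))) (by
      rintro (i | i)
      · exact ((mem_algebraicClosure_iff).1 (c i).2).neg
      · exact (mem_algebraicClosure_iff).1 (c i).2) (by
      rw [Fintype.sum_sum_type, ← hc, ← Finset.sum_add_distrib]
      apply Finset.sum_congr rfl
      intro i _
      simp only [Sum.elim_inl, Sum.elim_inr, hPdef]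
      rw [Algebra.smul_def]
      change _ = (c i : ℂ) * _
      ring)
    intro i
    have h2 := h1 (Sum.inr i)
    simp only [Sum.elim_inr] at h2
    exact_mod_cast h2

theorem bakerProp_complex (Λ : Submodule ℚ ℂ) (hlog : ∀ x ∈ Λ, IsAlgebraic ℚ (cexp x)) :
    BakerProp (algebraicClosure ℚ ℂ) Λ := by
  intro r w hw hli
  rw [Fintype.linearIndependent_iff]
  intro c hc i
  have h4 := baker w (fun i => hlog _ (hw i)) hli (fun i => (c i : ℂ))
    (fun i => (mem_algebraicClosure_iff).1 (c i).2) (by
      rw [← hc]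
      apply Finset.sum_congr rfl
      intro i _
      rw [Algebra.smul_def]
      rfl) i
  exact_mod_cast h4

/-- From matrices to pairs. -/
theorem RelFour.pairs {K C : Type*} [Field K] [Field C] [Algebra K C] {V V' : Submodule K C}
    (h : RelFour V V') (x y : Fin 2 → C) (hx : LinearIndependent K x) (hy : LinearIndependent K y)
    (hxy : ∀ i j, x i * y j ∈ V') : ∀ i j, x i * y j ∈ V := by
  have hx' : x = ![x 0, x 1] := by funext i; fin_cases i <;> rfl
  have hy' : y = ![y 0, y 1] := by funext i; fin_cases i <;> rfl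
  rcases h (Matrix.of fun i j => x i * y j) hxy (by
    rw [Matrix.det_fin_two]
    simp only [Matrix.of_apply]
    ring) with h1 | ⟨a, b, hab, h1⟩ | ⟨a, b, hab, h1⟩
  · exact h1
  · exfalso
    obtain ⟨j, hj⟩ : ∃ j, y j ≠ 0 := ⟨0, hy.ne_zero 0⟩
    have h2 := h1 j
    simp only [Matrix.of_apply, ← smul_mul_assoc, ← add_mul] at h2
    have h3 := (mul_eq_zero.1 h2).resolve_right hj
    rw [hx'] at hx
    obtain ⟨h4, h5⟩ := LinearIndependent.pair_iff.1 hx a b h3
    rcases hab with h6 | h6
    · exact h6 h4
    · exact h6 h5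
  · exfalso
    obtain ⟨i, hi⟩ : ∃ i, x i ≠ 0 := ⟨0, hx.ne_zero 0⟩
    have h2 := h1 i
    simp only [Matrix.of_apply, ← mul_smul_comm, ← mul_add] at h2
    have h3 := (mul_eq_zero.1 h2).resolve_left hi
    rw [hy'] at hy
    obtain ⟨h4, h5⟩ := LinearIndependent.pair_iff.1 hy a b h3
    rcases hab with h6 | h6
    · exact h6 h4
    · exact h6 h5

end Pool.Agent.W245.PB
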