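import Mathlib
import Pool.Agent.W245.PB.CLog
import Pool.Agent.W245.PB.PLog

set_option autoImplicit false

/-!
# No new singular `2 × 2` matrices: all fields of algebraic numbers at once
-/

namespace Pool.Agent.W245.PB

open Finset Module Pool.Agent.H297R2 Pool.Agent.W245

/-- The density theorem for all fields of algebraic numbers. -/
theorem density_sub (k m : ℕ) (ε : ℝ) (hε : 0 < ε) :
    ∃ x₀ : ℕ, ∀ x ≥ x₀, ∀ (C : Type) [Field C] [CharZero C] [IsAlgClosed (algebraicClosure ℚ C)]
      (lg : ℕ → C), LogLike (algebraicClosure ℚ C) lg →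
      ∀ K : IntermediateField ℚ C, K ≤ algebraicClosure ℚ C →
      ∀ V : Submodule K C, Module.Finite K V → finrank K V ≤ m → ∀ B : Finset (Fin k → ℕ),
      B ⊆ Fintype.piFinset (fun _ : Fin k => Ioc 0 x) → (∀ a ∈ B, ¬ GoodR V V lg a) →
      (B.card : ℝ) ≤ ε * x ^ k := by
  obtain ⟨x₀, hx₀⟩ := density_goodR k m ε hε
  refine ⟨x₀, fun x hx C _ _ _ lg hlg K hK V hVf hVm B hB hbad => ?_⟩
  let _ : Algebra K (algebraicClosure ℚ C) := (IntermediateField.inclusion hK).toAlgebra
  have : IsScalarTower K (algebraicClosure ℚ C) C := IsScalarTower.of_algebraMap_eq (fun _ => rfl)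
  exact hx₀ x hx K (algebraicClosure ℚ C) C lg hlg V V hVf hVm (RelFour.refl V) B hB hbad

/-- The infinite version for all fields of algebraic numbers. -/
theorem infinite_sub {C : Type} [Field C] [CharZero C] [IsAlgClosed (algebraicClosure ℚ C)]
    (Λ : Submodule ℚ C) (hΛ : ¬ Module.Finite ℚ Λ) (hB : BakerProp (algebraicClosure ℚ C) Λ)
    (K : IntermediateField ℚ C) (hK : K ≤ algebraicClosure ℚ C) (V : Submodule K C)
    [Module.Finite K V] :
    ∃ l : ℕ → C, (∀ i, l i ∈ Λ) ∧
      (∀ i, l i ∉ V ⊔ Submodule.span K (l '' Set.Iio i)) ∧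
      RelFour V (V ⊔ Submodule.span K (Set.range l)) := by
  let _ : Algebra K (algebraicClosure ℚ C) := (IntermediateField.inclusion hK).toAlgebra
  have : IsScalarTower K (algebraicClosure ℚ C) C := IsScalarTower.of_algebraMap_eq (fun _ => rfl)
  exact infinite_goodR (κ := algebraicClosure ℚ C) Λ hΛ hB V

/-- From dependent rows and columns to independent ones. -/
theorem RelFour.det_ne_zero {K C : Type*} [Field K] [Field C] [Algebra K C] {V V' : Submodule K C}
    (h : RelFour V V') (M : Matrix (Fin 2) (Fin 2) C) (hM : ∀ i j, M i j ∈ V')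
    (hrow : LinearIndependent K fun i : Fin 2 => fun j : Fin 2 => M i j)
    (hcol : LinearIndependent K fun j : Fin 2 => fun i : Fin 2 => M i j)
    (hV : ∃ i j, M i j ∉ V) : M.det ≠ 0 := by
  intro hdet
  rcases h M hM hdet with h1 | ⟨a, b, hab, h1⟩ | ⟨a, b, hab, h1⟩
  · obtain ⟨i, j, hij⟩ := hV
    exact hij (h1 i j)
  · rw [Fintype.linearIndependent_iff] at hrow
    have h2 := hrow ![a, b] (by
      rw [Fin.sum_univ_two]
      funext j
      exact h1 j)
    rcases hab with h3 | h3
    · exact h3 (h2 0)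
    · exact h3 (h2 1)
  · rw [Fintype.linearIndependent_iff] at hcol
    have h2 := hcol ![a, b] (by
      rw [Fin.sum_univ_two]
      funext i
      exact h1 i)
    rcases hab with h3 | h3
    · exact h3 (h2 0)
    · exact h3 (h2 1)

end Pool.Agent.W245.PB
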