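import Mathlib
import Pool.Agent.W245.PB.SubF

set_option autoImplicit false
set_option linter.unusedVariables false

/-!
# Block sequences
-/

namespace Pool.Agent.W245.PB

open Finset Module Pool.Agent.H297R2 Pool.Agent.W245

/-- One step: a sum over a subset of an interval of bounded length. -/
theorem block_step (N D : ℕ) : ∃ r : ℕ, ∀ (κ C : Type) [Field κ] [IsAlgClosed κ] [CharZero κ]
    [Field C] [Algebra κ C] (W : Submodule κ C), Module.Finite κ W → finrank κ W ≤ N →
    ∀ (w : ℕ → C), LinearIndependent κ w → ∀ s t : ℕ, s + r ≤ t →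
    ∃ S : Finset ℕ, S ⊆ Ico s t ∧ NoRelOver W D (∑ j ∈ S, w j) := by
  obtain ⟨r, hr⟩ := cube_over_unif N D
  refine ⟨r, fun κ C _ _ _ _ _ W hWf hWN w hw s t hst => ?_⟩
  have hinj : Function.Injective (fun i : Fin r => s + (i : ℕ)) := by
    intro i j h
    exact Fin.ext (Nat.add_left_cancel h)
  obtain ⟨S, hS⟩ := hr κ C W hWf hWN 0 (fun i : Fin r => w (s + i)) (hw.comp _ hinj)
  refine ⟨S.map ⟨_, hinj⟩, ?_, ?_⟩
  · intro j hj
    obtain ⟨i, _, rfl⟩ := Finset.mem_map.1 hj
    have := i.2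
    simp only [Function.Embedding.coeFn_mk, Finset.mem_Ico]
    omega
  · rw [Finset.sum_map]
    rw [zero_add] at hS
    exact hS

/-- **Block sequences without new singular matrices.** -/
theorem block_relFour_gen (m : ℕ) : ∃ R : ℕ → ℕ, StrictMono R ∧ R 0 = 0 ∧
    ∀ (K κ C : Type) [Field K] [Field κ] [IsAlgClosed κ] [CharZero κ] [Field C]
    [Algebra K C] [Algebra κ C] [Algebra K κ] [IsScalarTower K κ C] (w : ℕ → C),
    LinearIndependent κ w → ∀ V : Submodule K C, Module.Finite K V → finrank K V ≤ m →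
    ∃ S : ℕ → Finset ℕ, (∀ i, S i ⊆ Ico (R i) (R (i + 1))) ∧
      (∀ i, ∑ j ∈ S i, w j ∉ V ⊔ Submodule.span K ((fun i => ∑ j ∈ S i, w j) '' Set.Iio i)) ∧
      RelFour V (V ⊔ Submodule.span K (Set.range fun i => ∑ j ∈ S i, w j)) := by
  classical
  choose r hr using fun n : ℕ => block_step ((n + 1) ^ 2) 2
  obtain ⟨R, hR0, hRs⟩ : ∃ R : ℕ → ℕ, R 0 = 0 ∧ ∀ n, R (n + 1) = R n + (r (m + n) + 1) :=
    ⟨fun n => Nat.rec 0 (fun n s => s + (r (m + n) + 1)) n, rfl, fun n => rfl⟩
  refine ⟨R, strictMono_nat_of_lt_succ (fun n => by rw [hRs]; omega), hR0, ?_⟩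
  intro K κ C _ _ _ _ _ _ _ _ _ w hw V hVf hVm
  -- one step
  have step : ∀ (n : ℕ) (U : Submodule K C), ∃ S : Finset ℕ, S ⊆ Ico (R n) (R (n + 1)) ∧
      (Module.Finite K U → finrank K U ≤ m + n →
        NoRelOver (coefSp (hull κ U)) 2 (∑ j ∈ S, w j)) := by
    intro n U
    by_cases h : Module.Finite K U ∧ finrank K U ≤ m + n
    · obtain ⟨h1, h2⟩ := h
      obtain ⟨h3, h4⟩ := coefHull_finite (κ := κ) U (m + n) h2
      obtain ⟨S, hS, hS1⟩ := hr (m + n) κ C _ h3 h4 w hw (R n) (R (n + 1))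
        (by rw [hRs]; omega)
      exact ⟨S, hS, fun _ _ => hS1⟩
    · exact ⟨∅, Finset.empty_subset _, fun h1 h2 => absurd ⟨h1, h2⟩ h⟩
  choose g hg1 hg2 using step
  obtain ⟨U, hU0, hUs⟩ : ∃ U : ℕ → Submodule K C, U 0 = V ∧
      ∀ n, U (n + 1) = U n ⊔ Submodule.span K {∑ j ∈ g n (U n), w j} :=
    ⟨fun n => Nat.rec V (fun n U => U ⊔ Submodule.span K {∑ j ∈ g n U, w j}) n, rfl, fun n => rfl⟩
  have hUfin : ∀ n, Module.Finite K (U n) ∧ finrank K (U n) ≤ m + n := by
    intro n
    induction n with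
    | zero => rw [hU0]; exact ⟨hVf, hVm⟩
    | succ n ih =>
      obtain ⟨h1, h2⟩ := ih
      rw [hUs]
      refine ⟨inferInstance, ?_⟩
      have h3 := Submodule.finrank_add_le_finrank_add_finrank (U n)
        (Submodule.span K {∑ j ∈ g n (U n), w j})
      have h4 := finrank_span_le_card (R := K) ({∑ j ∈ g n (U n), w j} : Set C)
      simp only [Set.toFinset_card, Fintype.card_unique] at h4
      omega
  have hno : ∀ n, NoRelOver (coefSp (hull κ (U n))) 2
      (∑ j ∈ g n (U n), w j) := fun n => hg2 n (U n) (hUfin n).1 (hUfin n).2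
  have hUgood : ∀ n, RelFour V (U n) := by
    intro n
    induction n with
    | zero => rw [hU0]; exact RelFour.refl V
    | succ n ih =>
      rw [hUs]
      exact ih.extend _ (hno n)
  have hUmono : Monotone U := monotone_nat_of_le_succ (fun n => by rw [hUs]; exact le_sup_left)
  have hUeq : ∀ n, U n = V ⊔ Submodule.span K ((fun n => ∑ j ∈ g n (U n), w j) '' Set.Iio n) := by
    intro n
    induction n with
    | zero =>
      rw [hU0]
      have : (Set.Iio 0 : Set ℕ) = ∅ := by ext; simp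
      rw [this, Set.image_empty, Submodule.span_empty, sup_bot_eq]
    | succ n ih =>
      rw [hUs]
      have : (Set.Iio (n + 1) : Set ℕ) = Set.Iio n ∪ {n} := by ext; simp
      rw [this, Set.image_union, Set.image_singleton, Submodule.span_union, ← sup_assoc, ← ih]
  refine ⟨fun n => g n (U n), fun n => hg1 _ _, fun n => ?_, ?_⟩
  · rw [← hUeq n]
    exact not_mem_of_coefHull (hno n)
  · have h1 : V ⊔ Submodule.span K (Set.range fun n => ∑ j ∈ g n (U n), w j) = ⨆ n, U n := by
      apply le_antisymm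
      · apply sup_le
        · exact (le_of_eq hU0.symm).trans (le_iSup U 0)
        · rw [Submodule.span_le]
          rintro _ ⟨n, rfl⟩
          have h2 : ∑ j ∈ g n (U n), w j ∈ U (n + 1) := by
            rw [hUs]
            exact Submodule.mem_sup_right (Submodule.mem_span_singleton_self _)
          exact (le_iSup U (n + 1)) h2
      · apply iSup_le
        intro n
        rw [hUeq n]
        exact sup_le_sup_left (Submodule.span_mono (Set.image_subset_range _ _)) _
    rw [h1]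
    intro M hM hdet
    obtain ⟨n, hn⟩ := mem_chain U hUmono M hM
    exact hUgood n M hn hdet

/-- **Block sequences without new singular matrices**, all fields of algebraic numbers. -/
theorem block_relFour (m : ℕ) : ∃ R : ℕ → ℕ, StrictMono R ∧ R 0 = 0 ∧
    ∀ (C : Type) [Field C] [CharZero C] [IsAlgClosed (algebraicClosure ℚ C)] (w : ℕ → C),
    LinearIndependent (algebraicClosure ℚ C) w →
    ∀ K : IntermediateField ℚ C, K ≤ algebraicClosure ℚ C →
    ∀ V : Submodule K C, Module.Finite K V → finrank K V ≤ m →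
    ∃ S : ℕ → Finset ℕ, (∀ i, S i ⊆ Ico (R i) (R (i + 1))) ∧
      (∀ i, ∑ j ∈ S i, w j ∉ V ⊔ Submodule.span K ((fun i => ∑ j ∈ S i, w j) '' Set.Iio i)) ∧
      RelFour V (V ⊔ Submodule.span K (Set.range fun i => ∑ j ∈ S i, w j)) := by
  obtain ⟨R, hR, hR0, h⟩ := block_relFour_gen m
  refine ⟨R, hR, hR0, fun C _ _ _ w hw K hK V hVf hVm => ?_⟩
  let _ : Algebra K (algebraicClosure ℚ C) := (IntermediateField.inclusion hK).toAlgebra
  have : IsScalarTower K (algebraicClosure ℚ C) C := IsScalarTower.of_algebraMap_eq (fun _ => rfl)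
  exact h K (algebraicClosure ℚ C) C w hw V hVf hVm

/-- **Block sequences without polynomial relations of prescribed degrees.** -/
theorem block_noRel (N : ℕ) (D : ℕ → ℕ) : ∃ R : ℕ → ℕ, StrictMono R ∧ R 0 = 0 ∧
    ∀ (κ C : Type) [Field κ] [IsAlgClosed κ] [CharZero κ] [Field C] [Algebra κ C] (w : ℕ → C),
    LinearIndependent κ w → ∀ W : Submodule κ C, Module.Finite κ W → finrank κ W ≤ N →
    ∃ S : ℕ → Finset ℕ, (∀ i, S i ⊆ Ico (R i) (R (i + 1))) ∧
      ∀ k : ℕ, NoRelP W (fun i : Fin k => D i) (fun i => ∑ j ∈ S i, w j) := by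
  classical
  choose r hr using fun (n d : ℕ) => block_step n d
  -- the dimensions
  obtain ⟨F, hF0, hFs⟩ : ∃ F : ℕ → ℕ, F 0 = N ∧ ∀ n, F (n + 1) = F n * (D n + 1) :=
    ⟨fun n => Nat.rec N (fun n s => s * (D n + 1)) n, rfl, fun n => rfl⟩
  obtain ⟨R, hR0, hRs⟩ : ∃ R : ℕ → ℕ, R 0 = 0 ∧ ∀ n, R (n + 1) = R n + (r (F n) (D n) + 1) :=
    ⟨fun n => Nat.rec 0 (fun n s => s + (r (F n) (D n) + 1)) n, rfl, fun n => rfl⟩
  refine ⟨R, strictMono_nat_of_lt_succ (fun n => by rw [hRs]; omega), hR0, ?_⟩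
  intro κ C _ _ _ _ _ w hw W hWf hWN
  have step : ∀ (n : ℕ) (U : Submodule κ C), ∃ S : Finset ℕ, S ⊆ Ico (R n) (R (n + 1)) ∧
      (Module.Finite κ U → finrank κ U ≤ F n → NoRelOver U (D n) (∑ j ∈ S, w j)) := by
    intro n U
    by_cases h : Module.Finite κ U ∧ finrank κ U ≤ F n
    · obtain ⟨S, hS, hS1⟩ := hr (F n) (D n) κ C U h.1 h.2 w hw (R n) (R (n + 1))
        (by rw [hRs]; omega)
      exact ⟨S, hS, fun _ _ => hS1⟩
    · exact ⟨∅, Finset.empty_subset _, fun h1 h2 => absurd ⟨h1, h2⟩ h⟩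
  choose g hg1 hg2 using step
  obtain ⟨U, hU0, hUs⟩ : ∃ U : ℕ → Submodule κ C, U 0 = W ∧
      ∀ n, U (n + 1) = powExt (U n) (D n) (∑ j ∈ g n (U n), w j) :=
    ⟨fun n => Nat.rec W (fun n V => powExt V (D n) (∑ j ∈ g n V, w j)) n, rfl, fun n => rfl⟩
  have hUfin : ∀ n, Module.Finite κ (U n) ∧ finrank κ (U n) ≤ F n := by
    intro n
    induction n with
    | zero => rw [hU0, hF0]; exact ⟨hWf, hWN⟩
    | succ n ih =>
      obtain ⟨h1, h2⟩ := ih
      rw [hUs, hFs]
      exact powExt_finite (U n) (F n) h2 (D n) _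
  refine ⟨fun n => g n (U n), fun n => hg1 _ _, ?_⟩
  -- blocks
  have hblock : ∀ k m : ℕ, NoRelP (U m) (fun i : Fin k => D (m + i))
      (fun i => ∑ j ∈ g (m + i) (U (m + i)), w j) := by
    intro k
    induction k with
    | zero => intro m; exact NoRelP.zero _ _ _
    | succ k ih =>
      intro m
      have h1 := ih (m + 1)
      rw [hUs m] at h1
      have h2 := NoRelP.cons (hg2 m (U m) (hUfin m).1 (hUfin m).2) h1
      have e1 : (Fin.cons (D m) (fun i : Fin k => D (m + 1 + i)) : Fin (k + 1) → ℕ) =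
          fun i : Fin (k + 1) => D (m + i) := by
        funext i
        refine Fin.cases ?_ (fun j => ?_) i
        · simp
        · simp only [Fin.cons_succ, Fin.val_succ]
          congr 1
          omega
      have e2 : (Fin.cons (∑ j ∈ g m (U m), w j)
          (fun i : Fin k => ∑ j ∈ g (m + 1 + i) (U (m + 1 + i)), w j) :
          Fin (k + 1) → C) = fun i : Fin (k + 1) => ∑ j ∈ g (m + i) (U (m + i)), w j := by
        funext i
        refine Fin.cases ?_ (fun j => ?_) i
        · simp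
        · simp only [Fin.cons_succ, Fin.val_succ]
          have e3 : m + 1 + (j : ℕ) = m + (j + 1) := by omega
          rw [e3]
      rw [e1, e2] at h2
      exact h2
  intro k
  have h1 := hblock k 0
  simp only [zero_add] at h1
  rw [hU0] at h1
  exact h1

end Pool.Agent.W245.PB
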