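import Mathlib
import Pool.Agent.W245.PB.Block

set_option autoImplicit false

/-!
# Real spaces, infinite families of logarithms
-/

namespace Pool.Agent.W245.PB

open Finset Module Complex Pool.Agent.H297R2 Pool.Agent.W245

theorem baker_seq (w : ℕ → ℂ) (halg : ∀ i, IsAlgebraic ℚ (cexp (w i)))
    (hli : LinearIndependent ℚ w) : LinearIndependent (algebraicClosure ℚ ℂ) w := by
  classical
  rw [linearIndependent_iff']
  intro s g hg i hi
  have h1 := baker (fun i : s => w i) (fun i => halg _) (hli.comp _ Subtype.val_injective)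
    (fun i => (g i : ℂ)) (fun i => (mem_algebraicClosure_iff).1 (g i).2) (by
      rw [← hg, ← Finset.sum_coe_sort s (fun i => g i • w i)]
      apply Finset.sum_congr rfl
      intro i _
      rw [Algebra.smul_def]
      rfl) ⟨i, hi⟩
  exact_mod_cast h1

theorem brumer_seq {p : ℕ} [Fact p.Prime] {L : PadicAlgCl p → PadicAlgCl p}
    (hL : IsIwasawaLog p L) (w : ℕ → PadicAlgCl p)
    (hw : ∀ i, ∃ α : PadicAlgCl p, α ≠ 0 ∧ IsAlgebraic ℚ α ∧ w i = L α)
    (hli : LinearIndependent ℚ w) : LinearIndependent (algebraicClosure ℚ (PadicAlgCl p)) w := by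
  classical
  rw [linearIndependent_iff']
  intro s g hg i hi
  have h1 := hL.indep_of_indep (fun i : s => w i) (fun i => hw _)
    (hli.comp _ Subtype.val_injective)
  rw [Fintype.linearIndependent_iff] at h1
  refine h1 (fun i : s => g i) ?_ ⟨i, hi⟩
  rw [← hg, ← Finset.sum_coe_sort s (fun i => g i • w i)]

/-- The inclusion of the real numbers as a rational linear map. -/
noncomputable def rc : ℝ →ₗ[ℚ] ℂ := (Algebra.linearMap ℝ ℂ).restrictScalars ℚ

theorem rc_apply (x : ℝ) : rc x = (x : ℂ) := rfl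

theorem rc_injective : Function.Injective rc := fun x y h => by
  rw [rc_apply, rc_apply] at h
  exact_mod_cast h

theorem mem_map_rc {V : Submodule ℚ ℝ} {x : ℝ} : (x : ℂ) ∈ V.map rc ↔ x ∈ V := by
  constructor
  · rintro ⟨y, hy, h⟩
    rw [rc_apply] at h
    have : y = x := by exact_mod_cast h
    rw [← this]
    exact hy
  · intro hx
    exact ⟨x, hx, rfl⟩

theorem map_sup_span (V : Submodule ℚ ℝ) {ι : Type*} (w : ι → ℝ) (s : Set ι) :
    (V ⊔ Submodule.span ℚ (w '' s)).map rc =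
      V.map rc ⊔ Submodule.span ℚ ((fun i => (w i : ℂ)) '' s) := by
  rw [Submodule.map_sup, Submodule.map_span, Set.image_image]
  rfl

theorem map_sup_span_range (V : Submodule ℚ ℝ) {ι : Type*} (w : ι → ℝ) :
    (V ⊔ Submodule.span ℚ (Set.range w)).map rc =
      V.map rc ⊔ Submodule.span ℚ (Set.range fun i => (w i : ℂ)) := by
  rw [← Set.image_univ, ← Set.image_univ, map_sup_span]

/-- Descent to the real numbers. -/
theorem RelFour.real {V V' : Submodule ℚ ℝ} (h : RelFour (V.map rc) (V'.map rc)) : RelFour V V' := by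
  intro M hM hdet
  rcases h (M.map (fun x : ℝ => (x : ℂ))) (fun i j => mem_map_rc.2 (hM i j)) (by
    rw [Matrix.det_fin_two] at hdet ⊢
    simp only [Matrix.map_apply]
    exact_mod_cast hdet) with h1 | ⟨a, b, hab, h1⟩ | ⟨a, b, hab, h1⟩
  · left
    intro i j
    exact mem_map_rc.1 (h1 i j)
  · right; left
    refine ⟨a, b, hab, fun j => ?_⟩
    have h2 := h1 j
    simp only [Matrix.map_apply, Rat.smul_def] at h2 ⊢
    exact_mod_cast h2
  · right; right
    refine ⟨a, b, hab, fun i => ?_⟩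
    have h2 := h1 i
    simp only [Matrix.map_apply, Rat.smul_def] at h2 ⊢
    exact_mod_cast h2

/-- Block sequences of real numbers whose exponentials are algebraic. -/
theorem block_real (m : ℕ) : ∃ R : ℕ → ℕ, StrictMono R ∧ R 0 = 0 ∧
    ∀ w : ℕ → ℝ, (∀ i, IsAlgebraic ℚ (Real.exp (w i))) → LinearIndependent ℚ w →
    ∀ V : Submodule ℚ ℝ, Module.Finite ℚ V → finrank ℚ V ≤ m →
    ∃ S : ℕ → Finset ℕ, (∀ i, S i ⊆ Ico (R i) (R (i + 1))) ∧
      (∀ i, ∑ j ∈ S i, w j ∉ V ⊔ Submodule.span ℚ ((fun i => ∑ j ∈ S i, w j) '' Set.Iio i)) ∧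
      RelFour V (V ⊔ Submodule.span ℚ (Set.range fun i => ∑ j ∈ S i, w j)) := by
  obtain ⟨R, hR, hR0, h⟩ := block_relFour_gen m
  refine ⟨R, hR, hR0, fun w hw hli V hVf hVm => ?_⟩
  have hlic : LinearIndependent ℚ (fun i => (w i : ℂ)) :=
    hli.map' rc (LinearMap.ker_eq_bot.2 rc_injective)
  have halg : ∀ i, IsAlgebraic ℚ (cexp (w i)) := by
    intro i
    rw [← Complex.ofReal_exp]
    exact (hw i).algebraMap (A := ℂ)
  obtain ⟨S, hS, h1, h2⟩ := h ℚ (algebraicClosure ℚ ℂ) ℂ (fun i => (w i : ℂ))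
    (baker_seq _ halg hlic) (V.map rc) inferInstance ((Submodule.finrank_map_le _ _).trans hVm)
  have e1 : ∀ i, ((∑ j ∈ S i, w j : ℝ) : ℂ) = ∑ j ∈ S i, (w j : ℂ) := fun i => by push_cast; rfl
  refine ⟨S, hS, fun i hi => ?_, ?_⟩
  · apply h1 i
    have h3 := mem_map_rc.2 hi
    rw [map_sup_span] at h3
    simp only [e1] at h3
    exact h3
  · apply RelFour.real
    rw [map_sup_span_range]
    simp only [e1]
    exact h2

end Pool.Agent.W245.PB
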